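import Pool.Agent.THL.Defs

set_option autoImplicit false

open Finset

namespace Pool.Agent.THL

namespace BF_

lemma ed_inj {n t : ℕ} {z : Fin t → Fin n × Fin n} (hz : Function.Injective (vx z)) :
    Function.Injective (ed z) := by
  intro b c h
  unfold ed at h
  rw [Sym2.eq_iff] at h
  rcases h with ⟨h1, -⟩ | ⟨h1, h2⟩
  · have := hz h1
    rw [Fin.mk.injEq] at this
    exact Fin.ext this
  · have e1 := hz h1
    have e2 := hz h2
    rw [Fin.mk.injEq] at e1 e2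
    omega

lemma inter_eq {n t : ℕ} (z z' : Fin t → Fin n × Fin n) :
    edg z ∩ edg z' = (BB z z').image (ed z') := by
  ext e
  simp only [mem_inter, mem_image, BB, mem_filter, mem_univ, true_and]
  constructor
  · rintro ⟨h1, h2⟩
    obtain ⟨b, -, rfl⟩ := mem_image.1 h2
    exact ⟨b, h1, rfl⟩
  · rintro ⟨b, h1, rfl⟩
    exact ⟨h1, mem_image_of_mem _ (mem_univ b)⟩

lemma ends {n t : ℕ} (z : Fin t → Fin n × Fin n) {u v : Fin n} (h : s(u, v) ∈ edg z) :
    (∃ j, vx z j = u) ∧ ∃ j, vx z j = v := by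
  obtain ⟨b, -, hb⟩ := mem_image.1 h
  unfold ed at hb
  rw [Sym2.eq_iff] at hb
  rcases hb with ⟨h1, h2⟩ | ⟨h1, h2⟩
  · exact ⟨⟨_, h1⟩, ⟨_, h2⟩⟩
  · exact ⟨⟨_, h2⟩, ⟨_, h1⟩⟩

end BF_

open BF_ in
theorem p_BF : T_BF := by
  intro n t z z' hz hz'
  refine ⟨?_, ?_, ?_, ?_⟩
  · unfold edg
    rw [card_image_of_injective _ (ed_inj hz'), card_univ, Fintype.card_fin]
  · rw [inter_eq, card_image_of_injective _ (ed_inj hz')]
  · intro h
    rw [not_disjoint_iff] at h
    obtain ⟨e, h1, h2⟩ := h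
    obtain ⟨b, -, rfl⟩ := mem_image.1 h2
    exact ⟨b, by simp only [BB, mem_filter, mem_univ, true_and]; exact h1⟩
  · intro f hf
    simp only [FF, mem_filter, mem_univ, true_and] at hf
    obtain ⟨b, hb, hf⟩ := hf
    simp only [BB, mem_filter, mem_univ, true_and] at hb
    obtain ⟨h1, h2⟩ := ends z hb
    rcases hf with hf | hf
    · obtain ⟨j, hj⟩ := h1
      exact ⟨j, hj.trans (congrArg (vx z') (Fin.ext hf.symm))⟩
    · obtain ⟨j, hj⟩ := h2
      exact ⟨j, hj.trans (congrArg (vx z') (Fin.ext hf.symm))⟩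

end Pool.Agent.THL
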