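import Mathlib
import Pool.Agent.CPR.Bernoulli

set_option autoImplicit false

/-!
# Lower bounds for nonrepetitive colourings: definitions and targets
-/

open Finset

namespace Pool.Agent.THL

/-- vertex number `b` of the path `x 0, ..., x (t - 1), y 0, ..., y (t - 1)`, `z i = (x i, y i)` -/
def vx {V : Type} {t : ℕ} (z : Fin t → V × V) (b : Fin (2 * t)) : V :=
  if h : b.1 < t then (z ⟨b.1, h⟩).1 else (z ⟨b.1 - t, by omega⟩).2

/-- edge number `b` of this path -/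
def ed {V : Type} {t : ℕ} (z : Fin t → V × V) (b : Fin (2 * t - 1)) : Sym2 V :=
  s(vx z ⟨b.1, by omega⟩, vx z ⟨b.1 + 1, by omega⟩)

/-- the edges of this path -/
def edg {V : Type} [DecidableEq V] {t : ℕ} (z : Fin t → V × V) : Finset (Sym2 V) :=
  univ.image (ed z)

/-- all vertices are different and `x i`, `y i` are related -/
def Adm {V : Type} (R : V → V → Prop) {t : ℕ} (z : Fin t → V × V) : Prop :=
  (∀ i, R (z i).1 (z i).2) ∧ Function.Injective (vx z)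

/-- same defined colour -/
def Same {n : ℕ} (g : Fin n → Option (Fin n)) (x y : Fin n) : Prop := g x = g y ∧ g x ≠ none

open Classical in
/-- expectation for a random set of (unordered) pairs, each with probability `p` -/
noncomputable def EE (n : ℕ) (p : ℝ) (φ : Finset (Sym2 (Fin n)) → ℝ) : ℝ :=
  CPR.ex (fun _ => p) φ

open Classical in
/-- indicator of an event -/
noncomputable def I1 (P : Prop) : ℝ := if P then 1 else 0

open Classical in
/-- the number of elements of `A` that contain `v` -/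
noncomputable def dg {n : ℕ} (A : Finset (Sym2 (Fin n))) (v : Fin n) : ℕ :=
  (A.filter fun e => v ∈ e).card

open Classical in
/-- the number of vertices with `dg > (1 + δ) d` -/
noncomputable def badv {n : ℕ} (A : Finset (Sym2 (Fin n))) (δ d : ℝ) : ℕ :=
  (univ.filter fun v : Fin n => (1 + δ) * d < dg A v).card

/-- some set of at least `δ n` vertices spans no edge -/
def HasInd {n : ℕ} (A : Finset (Sym2 (Fin n))) (δ : ℝ) : Prop :=
  ∃ I : Finset (Fin n), δ * n ≤ I.card ∧ ∀ u ∈ I, ∀ v ∈ I, u ≠ v → s(u, v) ∉ A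

open Classical in
/-- number of related pairs -/
noncomputable def np {n : ℕ} (R : Fin n → Fin n → Prop) : ℕ :=
  (univ.filter fun q : Fin n × Fin n => R q.1 q.2).card

open Classical in
/-- size of the class of `x` -/
noncomputable def dR {n : ℕ} (R : Fin n → Fin n → Prop) (x : Fin n) : ℕ :=
  (univ.filter fun y => R x y).card

open Classical in
/-- the admissible structures -/
noncomputable def AdmS {n : ℕ} (R : Fin n → Fin n → Prop) (t : ℕ) :
    Finset (Fin t → Fin n × Fin n) := univ.filter fun z => Adm R z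

/-- JAN: Janson's inequality for families of sets with `r` elements. -/
def T_JAN : Prop := ∀ (n : ℕ) (ι : Type) [Fintype ι] [DecidableEq ι]
    (T : ι → Finset (Sym2 (Fin n))) (I : Finset ι) (r : ℕ) (p W : ℝ), 0 ≤ p → p ≤ 1 → 1 ≤ W →
    (∀ i ∈ I, (T i).card = r) →
    (∀ i ∈ I, ∑ j ∈ I.filter (fun j => ¬ Disjoint (T i) (T j)), p ^ (r - (T i ∩ T j).card) ≤ W) →
    EE n p (fun A => I1 (∀ i ∈ I, ¬ T i ⊆ A)) ≤ Real.exp (-(I.card * p ^ r / (4 * W)))

/-- CNT: number of admissible structures (natural subtraction). -/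
def T_CNT : Prop := ∀ (n t s : ℕ) (R : Fin n → Fin n → Prop), (∀ x y, R x y → R y x) →
    (∀ x, dR R x ≤ s) → (np R - n - 4 * t * s) ^ t ≤ (AdmS R t).card

/-- number of `i < t` such that neither `i` nor `i + t` is in `F` -/
def N0 (t : ℕ) (F : Finset (Fin (2 * t))) : ℕ :=
  (univ.filter fun i : Fin t => (⟨i.1, by omega⟩ : Fin (2 * t)) ∉ F ∧
    (⟨i.1 + t, by omega⟩ : Fin (2 * t)) ∉ F).card

/-- number of `i < t` such that exactly one of `i`, `i + t` is in `F` -/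
def N1 (t : ℕ) (F : Finset (Fin (2 * t))) : ℕ :=
  (univ.filter fun i : Fin t => ¬ ((⟨i.1, by omega⟩ : Fin (2 * t)) ∈ F ↔
    (⟨i.1 + t, by omega⟩ : Fin (2 * t)) ∈ F)).card

open Classical in
/-- CF: number of structures with prescribed vertices at the positions in `F`. -/
def T_CF : Prop := ∀ (n t s : ℕ) (R : Fin n → Fin n → Prop) (p : ℝ), 0 < p →
    (∀ x y, R x y → R y x) → (∀ x, dR R x ≤ s) → ∀ (F : Finset (Fin (2 * t))) (w : Fin (2 * t) → Fin n),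
    (((AdmS R t).filter fun z => ∀ f ∈ F, vx z f = w f).card : ℝ) * p ^ (2 * t - F.card) ≤
      (p ^ 2 * np R) ^ N0 t F * (p * s) ^ N1 t F

/-- the positions `b` such that edge `b` of `z'` is an edge of `z` -/
def BB {V : Type} [DecidableEq V] {t : ℕ} (z z' : Fin t → V × V) : Finset (Fin (2 * t - 1)) :=
  univ.filter fun b => ed z' b ∈ edg z

/-- the end points of the edges in `B` -/
def FF {t : ℕ} (B : Finset (Fin (2 * t - 1))) : Finset (Fin (2 * t)) :=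
  univ.filter fun f => ∃ b ∈ B, f.1 = b.1 ∨ f.1 = b.1 + 1

/-- BF: elementary facts. -/
def T_BF : Prop := ∀ (n t : ℕ) (z z' : Fin t → Fin n × Fin n), Function.Injective (vx z) →
    Function.Injective (vx z') →
    (edg z').card = 2 * t - 1 ∧ (edg z ∩ edg z').card = (BB z z').card ∧
    (¬ Disjoint (edg z) (edg z') → (BB z z').Nonempty) ∧
    (∀ f ∈ FF (BB z z'), ∃ j, vx z j = vx z' f)

/-- INT: if `B` is nonempty and has at most one end point more than elements then `FF B` is an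
interval `[b, b + l]` with `l = |B| ≥ 1`. -/
def T_INT : Prop := ∀ (t : ℕ) (B : Finset (Fin (2 * t - 1))), B.Nonempty →
    (FF B).card ≤ B.card + 1 →
    (FF B).card = B.card + 1 ∧ ∃ b : ℕ, b + B.card < 2 * t ∧
      FF B = univ.filter (fun f : Fin (2 * t) => b ≤ f.1 ∧ f.1 ≤ b + B.card) ∧
      B = univ.filter (fun f : Fin (2 * t - 1) => b ≤ f.1 ∧ f.1 < b + B.card)

/-- IWT: the weight of an interval. -/
def T_IWT : Prop := ∀ (t b l : ℕ) (ρ σ : ℝ), 1 ≤ ρ → 0 ≤ σ → σ ≤ 1 → 1 ≤ l → b + l < 2 * t →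
    ρ ^ N0 t (univ.filter (fun f : Fin (2 * t) => b ≤ f.1 ∧ f.1 ≤ b + l)) *
    σ ^ N1 t (univ.filter (fun f : Fin (2 * t) => b ≤ f.1 ∧ f.1 ≤ b + l)) ≤ 1 + ρ ^ t * σ ^ 2

/-- RUN: along a run the second path follows the first one forwards or backwards. -/
def T_RUN : Prop := ∀ (n t : ℕ) (z z' : Fin t → Fin n × Fin n), Function.Injective (vx z) →
    Function.Injective (vx z') → ∀ (b l : ℕ) (hb : b + l < 2 * t), 1 ≤ l →
    (∀ f : Fin (2 * t - 1), b ≤ f.1 → f.1 < b + l → f ∈ BB z z') →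
    ∃ a : ℕ, (∀ f : Fin (2 * t), b ≤ f.1 → f.1 ≤ b + l →
        ∃ h : a + (f.1 - b) < 2 * t, vx z' f = vx z ⟨a + (f.1 - b), h⟩) ∨
      (∀ f : Fin (2 * t), b ≤ f.1 → f.1 ≤ b + l →
        ∃ h : a < 2 * t, f.1 - b ≤ a ∧ vx z' f = vx z ⟨a - (f.1 - b), by omega⟩)

/-- the overlap bound -/
noncomputable def WW (t : ℕ) (p ρ σ : ℝ) : ℝ :=
  16 * t ^ 3 * (1 + ρ ^ t * σ ^ 2) + (2 * t + 1) ^ (2 * t) * (p * ρ ^ t)

/-- PAT: the overlap sum. -/
def T_PAT : Prop := ∀ (n t s : ℕ) (R : Fin n → Fin n → Prop) (p : ℝ), 1 ≤ t → 0 < p → p ≤ 1 →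
    (∀ x y, R x y → R y x) → (∀ x, dR R x ≤ s) → p * s ≤ 1 → 1 ≤ p ^ 2 * np R → ∀ z ∈ AdmS R t,
    ∑ z' ∈ (AdmS R t).filter (fun z' => ¬ Disjoint (edg z) (edg z')),
      p ^ (2 * t - 1 - (edg z ∩ edg z').card) ≤ WW t p (p ^ 2 * np R) (p * s)

/-- ONE: a fixed colouring of some vertices. -/
def T_ONE : Prop := ∀ (n t s : ℕ) (g : Fin n → Option (Fin n)) (p : ℝ), 1 ≤ t → 0 < p → p ≤ 1 →
    (∀ x, dR (Same g) x ≤ s) → p * s ≤ 1 → 1 ≤ p ^ 2 * np (Same g) →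
    1 ≤ (p ^ 2 * np (Same g)) ^ t * (p * s) ^ 2 →
    (2 * t + 1) ^ (2 * t) * p ≤ (p * s) ^ 2 →
    4 * (t : ℝ) * (n + 4 * t * s) ≤ np (Same g) →
    EE n p (fun A => I1 (∀ z ∈ AdmS (Same g) t, ¬ edg z ⊆ A)) ≤
      Real.exp (-(1 / (264 * t ^ 3 * p * (p * s) ^ 2)))

/-- DEG: few vertices of large degree. -/
def T_DEG : Prop := ∀ (n : ℕ) (p δ : ℝ), 1 ≤ n → 0 < p → p ≤ 1 → 0 < δ →
    EE n p (fun A => I1 (δ * n < badv A δ (n * p))) ≤ 1 / (δ ^ 3 * (n * p))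

/-- IND: no large independent set. -/
def T_IND : Prop := ∀ (n : ℕ) (p δ : ℝ), 1 ≤ n → 0 < p → p ≤ 1 → 0 < δ →
    EE n p (fun A => I1 (HasInd A δ)) ≤ 2 ^ n * Real.exp (-(p * (δ * n) * (δ * n - 1) / 8))

open Classical in
/-- the number of vertices with colour `a` -/
noncomputable def cl {n : ℕ} (g : Fin n → Option (Fin n)) (a : Fin n) : ℕ :=
  (univ.filter fun v => g v = some a).card

open Classical in
/-- ENG: the random graph. -/
def T_ENG : Prop := ∀ δ : ℝ, 0 < δ → δ ≤ 1 → ∃ d₀ : ℕ, ∀ d : ℕ, d₀ ≤ d →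
    ∃ (n : ℕ) (A : Finset (Sym2 (Fin n))), d ^ 3 ≤ n ∧ (badv A δ d : ℝ) ≤ δ * n ∧
      ¬ HasInd A δ ∧ ∀ g : Fin n → Option (Fin n),
        (∀ a, (d : ℝ) ^ 2 * cl g a ≤ 9 * n) → (1 + δ) * n ^ 2 ≤ (d : ℝ) ^ 2 * np (Same g) →
        ∃ (t : ℕ) (z : Fin t → Fin n × Fin n), 1 ≤ t ∧ Adm (Same g) z ∧ edg z ⊆ A

/-- SEL1: cutting the classes of a colouring into pieces of size at most `s`. -/
def T_SEL1 : Prop := ∀ (n M s : ℕ) (W : Finset (Fin n)) (c : Fin n → Fin M) (C : ℝ), 0 < C →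
    (M : ℝ) ≤ C → 4 * (W.card : ℝ) ≤ C * s →
    ∃ g : Fin n → Option (Fin n), (∀ v, g v ≠ none → v ∈ W) ∧
      (∀ u v, Same g u v → c u = c v) ∧ (∀ a, cl g a ≤ s) ∧
      (W.card : ℝ) ^ 2 ≤ C * np (Same g)

/-- SELK: greedy selection for a family of `k`-sets. -/
def T_SELK : Prop := ∀ (n k M s : ℕ) (W : Finset (Fin n)) (S : Fin n → Finset (Fin M)) (C : ℝ),
    0 < C → 1 ≤ k → 1 ≤ M → (∀ v ∈ W, (S v).card = k) → (M : ℝ) ≤ C * k → (W.card : ℝ) ≤ C * s →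
    ∃ g : Fin n → Option (Fin n), (∀ v, g v ≠ none → v ∈ W) ∧
      (∀ r, ∃ a, ∀ v, g v = some r → a ∈ S v) ∧ (∀ a, cl g a ≤ s) ∧
      (W.card : ℝ) ^ 2 ≤ 2 * C * np (Same g)

/-- nonrepetitive colouring of a graph -/
def Nonrep {V α : Type} (H : SimpleGraph V) (c : V → α) : Prop :=
  ∀ (a b : V) (p : H.Walk a b), p.IsPath → ∀ t : ℕ, 0 < t → p.support.length = 2 * t →
    (p.support.map c).take t ≠ (p.support.map c).drop t

/-- the blow-up `G[E_k]` -/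
def EB {V : Type} (G : SimpleGraph V) (k : ℕ) : SimpleGraph (V × Fin k) where
  Adj x y := G.Adj x.1 y.1
  symm := ⟨fun _ _ h => SimpleGraph.Adj.symm h⟩
  loopless := ⟨fun _ h => G.loopless.irrefl _ h⟩

/-- the blow-up `G[K_k]` -/
def KB {V : Type} (G : SimpleGraph V) (k : ℕ) : SimpleGraph (V × Fin k) :=
  SimpleGraph.fromRel fun x y => G.Adj x.1 y.1 ∨ x.1 = y.1

/-- LIFT: a path with equally coloured halves contradicts `Nonrep`. -/
def T_LIFT : Prop := ∀ (V α : Type) (H : SimpleGraph V) (c : V → α), Nonrep H c →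
    ∀ (t : ℕ) (u : ℕ → V), 1 ≤ t → (∀ i j, i < 2 * t → j < 2 * t → u i = u j → i = j) →
      (∀ i, i + 1 < 2 * t → H.Adj (u i) (u (i + 1))) → ¬ ∀ i < t, c (u i) = c (u (i + t))

/-- the final statement -/
def T_FIN : Prop := ∀ δ : ℝ, 0 < δ → ∃ Δ₀ : ℕ, ∀ Δ : ℕ, Δ₀ ≤ Δ →
    ∃ (n : ℕ) (G : SimpleGraph (Fin n)), (∀ v, (G.neighborSet v).ncard ≤ Δ) ∧
      (∀ (M : ℕ) (c : Fin n → Fin M), Nonrep G c → (1 - δ) * Δ ^ 2 ≤ M) ∧
      (∀ (k M : ℕ) (c : Fin n × Fin k → Fin M), Nonrep (EB G k) c →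
        (1 / 2 - δ) * k * Δ ^ 2 ≤ M) ∧
      (∀ (k M : ℕ) (c : Fin n × Fin k → Fin M), Nonrep (KB G k) c →
        (1 / 2 - δ) * k * Δ ^ 2 ≤ M)

end Pool.Agent.THL
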