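import Mathlib
import Pool.Agent.THL.Defs

/-!
# Number of structures with prescribed vertices (job THL-CF)
-/

set_option autoImplicit false

open Finset

namespace Pool.Agent.THL

namespace CF_

/-- splitting a product over `Fin (2 * t)` -/
theorem prod_split {t : ℕ} (f : Fin (2 * t) → ℝ) :
    ∏ b, f b = ∏ i : Fin t, (f ⟨i.1, by omega⟩ * f ⟨i.1 + t, by omega⟩) := by
  have key : ∀ (m : ℕ) (h : m = t + t) (g : Fin m → ℝ),
      ∏ b, g b = ∏ i : Fin t, (g ⟨i.1, by omega⟩ * g ⟨i.1 + t, by omega⟩) := by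
    intro m h g
    subst h
    rw [Fin.prod_univ_add, ← Finset.prod_mul_distrib]
    refine Finset.prod_congr rfl fun i _ => ?_
    congr 2
    apply Fin.ext
    simp [Nat.add_comm]
  exact key _ (two_mul t) f

theorem vx_left {V : Type} {t : ℕ} (z : Fin t → V × V) (i : Fin t) :
    vx z ⟨i.1, by omega⟩ = (z i).1 := by
  unfold vx
  rw [dif_pos i.2]

theorem vx_right {V : Type} {t : ℕ} (z : Fin t → V × V) (i : Fin t) :
    vx z ⟨i.1 + t, by omega⟩ = (z i).2 := by
  unfold vx
  rw [dif_neg (by simp)]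
  congr 2
  apply Fin.ext
  simp

open Classical in
/-- the local sets -/
noncomputable def AA {n t : ℕ} (R : Fin n → Fin n → Prop) (F : Finset (Fin (2 * t)))
    (w : Fin (2 * t) → Fin n) (i : Fin t) : Finset (Fin n × Fin n) :=
  univ.filter fun q => R q.1 q.2 ∧
    ((⟨i.1, by omega⟩ : Fin (2 * t)) ∈ F → q.1 = w ⟨i.1, by omega⟩) ∧
    ((⟨i.1 + t, by omega⟩ : Fin (2 * t)) ∈ F → q.2 = w ⟨i.1 + t, by omega⟩)

variable {n t s : ℕ} {R : Fin n → Fin n → Prop} {F : Finset (Fin (2 * t))}
  {w : Fin (2 * t) → Fin n}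

theorem AA_np (i : Fin t) : (AA R F w i).card ≤ np R := by
  classical
  unfold np
  apply Finset.card_le_card
  intro q hq
  simp only [AA, Finset.mem_filter, Finset.mem_univ, true_and] at hq ⊢
  exact hq.1

theorem AA_left (hs : ∀ x, dR R x ≤ s) (i : Fin t)
    (h : (⟨i.1, by omega⟩ : Fin (2 * t)) ∈ F) : (AA R F w i).card ≤ s := by
  classical
  refine le_trans ?_ (hs (w ⟨i.1, by omega⟩))
  unfold dR
  refine le_trans (Finset.card_le_card ?_) (Finset.card_image_le
    (f := fun y => ((w ⟨i.1, by omega⟩ : Fin n), y)))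
  intro q hq
  simp only [AA, Finset.mem_filter, Finset.mem_univ, true_and] at hq
  simp only [Finset.mem_image, Finset.mem_filter, Finset.mem_univ, true_and]
  refine ⟨q.2, ?_, ?_⟩
  · rw [← hq.2.1 h]
    exact hq.1
  · rw [← hq.2.1 h]

theorem AA_right (hR : ∀ x y, R x y → R y x) (hs : ∀ x, dR R x ≤ s) (i : Fin t)
    (h : (⟨i.1 + t, by omega⟩ : Fin (2 * t)) ∈ F) : (AA R F w i).card ≤ s := by
  classical
  refine le_trans ?_ (hs (w ⟨i.1 + t, by omega⟩))
  unfold dR
  refine le_trans (Finset.card_le_card ?_) (Finset.card_image_le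
    (f := fun x => (x, (w ⟨i.1 + t, by omega⟩ : Fin n))))
  intro q hq
  simp only [AA, Finset.mem_filter, Finset.mem_univ, true_and] at hq
  simp only [Finset.mem_image, Finset.mem_filter, Finset.mem_univ, true_and]
  refine ⟨q.1, ?_, ?_⟩
  · rw [← hq.2.2 h]
    exact hR _ _ hq.1
  · rw [← hq.2.2 h]

theorem AA_both (i : Fin t) (h1 : (⟨i.1, by omega⟩ : Fin (2 * t)) ∈ F)
    (h2 : (⟨i.1 + t, by omega⟩ : Fin (2 * t)) ∈ F) : (AA R F w i).card ≤ 1 := by
  classical
  rw [← Finset.card_singleton ((w ⟨i.1, by omega⟩, w ⟨i.1 + t, by omega⟩) : Fin n × Fin n)]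
  apply Finset.card_le_card
  intro q hq
  simp only [AA, Finset.mem_filter, Finset.mem_univ, true_and] at hq
  rw [Finset.mem_singleton, ← hq.2.1 h1, ← hq.2.2 h2]

end CF_

theorem p_CF : T_CF := by
  classical
  intro n t s R p hp hR hs F w
  -- the power of p
  have hpow : p ^ (2 * t - F.card) = ∏ i : Fin t,
      ((if (⟨i.1, by omega⟩ : Fin (2 * t)) ∈ F then 1 else p) *
        (if (⟨i.1 + t, by omega⟩ : Fin (2 * t)) ∈ F then 1 else p)) := by
    rw [← CF_.prod_split (fun b : Fin (2 * t) => if b ∈ F then (1 : ℝ) else p)]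
    rw [Finset.prod_ite, Finset.prod_const_one, one_mul, Finset.prod_const]
    congr 1
    have h1 : (univ.filter fun b : Fin (2 * t) => b ∉ F) = Fᶜ := by
      ext b
      simp
    rw [h1, Finset.card_compl, Fintype.card_fin]
  -- the cover
  have hcard : (((AdmS R t).filter fun z => ∀ f ∈ F, vx z f = w f).card : ℝ) ≤
      ∏ i : Fin t, ((CF_.AA R F w i).card : ℝ) := by
    rw [← Nat.cast_prod, ← Fintype.card_piFinset]
    rw [Nat.cast_le]
    apply Finset.card_le_card
    intro z hz
    rw [Fintype.mem_piFinset]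
    intro i
    simp only [AdmS, Finset.mem_filter, Finset.mem_univ, true_and] at hz
    simp only [CF_.AA, Finset.mem_filter, Finset.mem_univ, true_and]
    refine ⟨hz.1.1 i, fun h => ?_, fun h => ?_⟩
    · rw [← hz.2 _ h, CF_.vx_left]
    · rw [← hz.2 _ h, CF_.vx_right]
  have hRHS : (p ^ 2 * np R) ^ N0 t F * (p * s) ^ N1 t F = ∏ i : Fin t,
      ((if (⟨i.1, by omega⟩ : Fin (2 * t)) ∉ F ∧ (⟨i.1 + t, by omega⟩ : Fin (2 * t)) ∉ F then
          p ^ 2 * (np R : ℝ) else 1) *
        (if ¬ ((⟨i.1, by omega⟩ : Fin (2 * t)) ∈ F ↔ (⟨i.1 + t, by omega⟩ : Fin (2 * t)) ∈ F)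
          then p * (s : ℝ) else 1)) := by
    rw [Finset.prod_mul_distrib, Finset.prod_ite, Finset.prod_ite]
    simp only [Finset.prod_const_one, mul_one, Finset.prod_const]
    unfold N0 N1
    congr 2
  rw [hRHS, hpow]
  calc (((AdmS R t).filter fun z => ∀ f ∈ F, vx z f = w f).card : ℝ) * ∏ i : Fin t,
      ((if (⟨i.1, by omega⟩ : Fin (2 * t)) ∈ F then 1 else p) *
        (if (⟨i.1 + t, by omega⟩ : Fin (2 * t)) ∈ F then 1 else p))
      ≤ (∏ i : Fin t, ((CF_.AA R F w i).card : ℝ)) * ∏ i : Fin t,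
      ((if (⟨i.1, by omega⟩ : Fin (2 * t)) ∈ F then 1 else p) *
        (if (⟨i.1 + t, by omega⟩ : Fin (2 * t)) ∈ F then 1 else p)) := by
        apply mul_le_mul_of_nonneg_right hcard
        apply Finset.prod_nonneg
        intro i _
        split_ifs <;> positivity
    _ = ∏ i : Fin t, (((CF_.AA R F w i).card : ℝ) *
      ((if (⟨i.1, by omega⟩ : Fin (2 * t)) ∈ F then 1 else p) *
        (if (⟨i.1 + t, by omega⟩ : Fin (2 * t)) ∈ F then 1 else p))) := by
        rw [← Finset.prod_mul_distrib]
    _ ≤ _ := by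
        apply Finset.prod_le_prod
        · intro i _
          split_ifs <;> positivity
        · intro i _
          by_cases h1 : (⟨i.1, by omega⟩ : Fin (2 * t)) ∈ F <;>
            by_cases h2 : (⟨i.1 + t, by omega⟩ : Fin (2 * t)) ∈ F
          · have h3 : ((CF_.AA R F w i).card : ℝ) ≤ 1 := by
              exact_mod_cast CF_.AA_both i h1 h2
            simp only [h1, h2, if_true, not_true_eq_false, and_self, if_false, iff_self, mul_one]
            exact h3
          · have h3 : ((CF_.AA R F w i).card : ℝ) ≤ s := by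
              exact_mod_cast CF_.AA_left hs i h1
            simp only [h1, h2, if_true, not_true_eq_false, false_and, if_false, one_mul,
              iff_false, not_false_eq_true]
            rw [mul_comm p]
            exact mul_le_mul_of_nonneg_right h3 hp.le
          · have h3 : ((CF_.AA R F w i).card : ℝ) ≤ s := by
              exact_mod_cast CF_.AA_right hR hs i h2
            simp only [h1, h2, if_true, not_true_eq_false, and_false, if_false, one_mul,
              mul_one, iff_true, not_false_eq_true]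
            rw [mul_comm p]
            exact mul_le_mul_of_nonneg_right h3 hp.le
          · have h3 : ((CF_.AA R F w i).card : ℝ) ≤ np R := by
              exact_mod_cast CF_.AA_np i
            simp only [h1, h2, not_false_eq_true, and_self, if_true, if_false, iff_self,
              not_true_eq_false, mul_one]
            rw [← sq, mul_comm (p ^ 2)]
            exact mul_le_mul_of_nonneg_right h3 (by positivity)

end Pool.Agent.THL
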