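import Pool.Agent.THL.Defs

/-!
# CNT: number of admissible structures (helper67)
-/

set_option autoImplicit false

open Finset

namespace Pool.Agent.THL

namespace CNT_

/-- all vertices are different, in terms of the pairs -/
lemma inj_iff {V : Type} {t : ℕ} (z : Fin t → V × V) : Function.Injective (vx z) ↔
    (∀ i j, (z i).1 = (z j).1 → i = j) ∧ (∀ i j, (z i).2 = (z j).2 → i = j) ∧
      ∀ i j, (z i).1 ≠ (z j).2 := by
  have e1 : ∀ i : Fin t, vx z ⟨i.1, by omega⟩ = (z i).1 := by
    intro i
    simp [vx, i.2]
  have e2 : ∀ i : Fin t, vx z ⟨i.1 + t, by omega⟩ = (z i).2 := by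
    intro i
    simp [vx]
  constructor
  · intro h
    refine ⟨fun i j hij => ?_, fun i j hij => ?_, fun i j hij => ?_⟩
    · rw [← e1 i, ← e1 j] at hij
      have := congrArg Fin.val (h hij)
      exact Fin.ext (by simpa using this)
    · rw [← e2 i, ← e2 j] at hij
      have := congrArg Fin.val (h hij)
      exact Fin.ext (by simpa using this)
    · rw [← e1 i, ← e2 j] at hij
      have := congrArg Fin.val (h hij)
      simp only at this
      have := i.2
      omega
  · rintro ⟨h1, h2, h3⟩ a b hab
    by_cases ha : a.1 < t
    · by_cases hb : b.1 < t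
      · have h := h1 ⟨a.1, ha⟩ ⟨b.1, hb⟩ (by simpa [vx, ha, hb] using hab)
        exact Fin.ext (by simpa using h)
      · have h := h3 ⟨a.1, ha⟩ ⟨b.1 - t, by omega⟩
        exact absurd (by simpa [vx, ha, hb] using hab) h
    · by_cases hb : b.1 < t
      · have h := h3 ⟨b.1, hb⟩ ⟨a.1 - t, by omega⟩
        exact absurd (by simpa [vx, ha, hb] using hab.symm) h
      · have h := h2 ⟨a.1 - t, by omega⟩ ⟨b.1 - t, by omega⟩ (by simpa [vx, ha, hb] using hab)
        have h' := congrArg Fin.val h
        simp only at h'
        exact Fin.ext (by omega)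

lemma adm_snoc {V : Type} {R : V → V → Prop} {t : ℕ} {z : Fin t → V × V} {q : V × V}
    (hz : Adm R z) (hq : R q.1 q.2) (hne : q.1 ≠ q.2) (h1 : ∀ b, vx z b ≠ q.1)
    (h2 : ∀ b, vx z b ≠ q.2) : Adm R (Fin.snoc z q : Fin (t + 1) → V × V) := by
  obtain ⟨hR, hi⟩ := hz
  have e1 : ∀ i : Fin t, vx z ⟨i.1, by omega⟩ = (z i).1 := by
    intro i
    simp [vx, i.2]
  have e2 : ∀ i : Fin t, vx z ⟨i.1 + t, by omega⟩ = (z i).2 := by
    intro i
    simp [vx]
  have g1 : ∀ i, (z i).1 ≠ q.1 := fun i => by rw [← e1 i]; exact h1 _
  have g2 : ∀ i, (z i).2 ≠ q.1 := fun i => by rw [← e2 i]; exact h1 _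
  have g3 : ∀ i, (z i).1 ≠ q.2 := fun i => by rw [← e1 i]; exact h2 _
  have g4 : ∀ i, (z i).2 ≠ q.2 := fun i => by rw [← e2 i]; exact h2 _
  rw [inj_iff] at hi
  obtain ⟨a1, a2, a3⟩ := hi
  refine ⟨?_, (inj_iff _).mpr ⟨?_, ?_, ?_⟩⟩
  · rw [Fin.forall_fin_succ']
    refine ⟨fun i => ?_, ?_⟩
    · simpa using hR i
    · simpa using hq
  · intro i j
    induction i using Fin.lastCases with
    | last =>
      induction j using Fin.lastCases with
      | last => intro _; rfl
      | cast j => intro h; simp at h; exact absurd h.symm (g1 j)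
    | cast i =>
      induction j using Fin.lastCases with
      | last => intro h; simp at h; exact absurd h (g1 i)
      | cast j => intro h; simp at h; rw [a1 i j h]
  · intro i j
    induction i using Fin.lastCases with
    | last =>
      induction j using Fin.lastCases with
      | last => intro _; rfl
      | cast j => intro h; simp at h; exact absurd h.symm (g4 j)
    | cast i =>
      induction j using Fin.lastCases with
      | last => intro h; simp at h; exact absurd h (g4 i)
      | cast j => intro h; simp at h; rw [a2 i j h]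
  · intro i j
    induction i using Fin.lastCases with
    | last =>
      induction j using Fin.lastCases with
      | last => simpa using hne
      | cast j => intro h; simp at h; exact g2 j h.symm
    | cast i =>
      induction j using Fin.lastCases with
      | last => intro h; simp at h; exact g3 i h
      | cast j => intro h; simp at h; exact a3 i j h

open Classical in
/-- the pairs which may be added to `z` -/
noncomputable def good {n t : ℕ} (R : Fin n → Fin n → Prop) (z : Fin t → Fin n × Fin n) :
    Finset (Fin n × Fin n) :=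
  univ.filter fun q => R q.1 q.2 ∧ q.1 ≠ q.2 ∧ (∀ b, vx z b ≠ q.1) ∧ ∀ b, vx z b ≠ q.2

open Classical in
lemma card_good {n t s : ℕ} {R : Fin n → Fin n → Prop} (hR : ∀ x y, R x y → R y x)
    (hs : ∀ x, dR R x ≤ s) (z : Fin t → Fin n × Fin n) :
    np R ≤ (good R z).card + n + 4 * t * s := by
  have hsub : (univ.filter fun q : Fin n × Fin n => R q.1 q.2) ⊆
      good R z ∪ (univ.image (fun x : Fin n => (x, x))) ∪
      ((univ.image (vx z)).biUnion fun x => (univ.filter fun y => R x y).image fun y => (x, y)) ∪
      ((univ.image (vx z)).biUnion fun x => (univ.filter fun y => R x y).image fun y => (y, x)) := by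
    intro q hq
    simp only [mem_filter, mem_univ, true_and] at hq
    simp only [mem_union, good, mem_filter, mem_univ, true_and, mem_image, mem_biUnion]
    by_cases hne : q.1 = q.2
    · left; left; right
      exact ⟨q.1, Prod.ext rfl hne⟩
    by_cases h1 : ∃ b, vx z b = q.1
    · left; right
      obtain ⟨b, hb⟩ := h1
      exact ⟨q.1, ⟨b, hb⟩, q.2, hq, rfl⟩
    by_cases h2 : ∃ b, vx z b = q.2
    · right
      obtain ⟨b, hb⟩ := h2
      exact ⟨q.2, ⟨b, hb⟩, q.1, hR _ _ hq, rfl⟩
    left; left; left
    push Not at h1 h2
    exact ⟨hq, hne, h1, h2⟩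
  have hc := card_le_card hsub
  have c1 : (univ.image (fun x : Fin n => (x, x))).card ≤ n := by
    refine le_trans card_image_le ?_
    simp
  have ci : (univ.image (vx z)).card ≤ 2 * t := by
    refine le_trans card_image_le ?_
    simp
  have c2 : ((univ.image (vx z)).biUnion fun x =>
      (univ.filter fun y => R x y).image fun y => (x, y)).card ≤ 2 * t * s := by
    refine le_trans (card_biUnion_le_card_mul _ _ s ?_) (Nat.mul_le_mul_right _ ci)
    intro x _
    exact le_trans card_image_le (hs x)
  have c3 : ((univ.image (vx z)).biUnion fun x =>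
      (univ.filter fun y => R x y).image fun y => (y, x)).card ≤ 2 * t * s := by
    refine le_trans (card_biUnion_le_card_mul _ _ s ?_) (Nat.mul_le_mul_right _ ci)
    intro x _
    exact le_trans card_image_le (hs x)
  have u1 := card_union_le (good R z ∪ (univ.image (fun x : Fin n => (x, x))) ∪
      ((univ.image (vx z)).biUnion fun x => (univ.filter fun y => R x y).image fun y => (x, y)))
      ((univ.image (vx z)).biUnion fun x => (univ.filter fun y => R x y).image fun y => (y, x))
  have u2 := card_union_le (good R z ∪ (univ.image (fun x : Fin n => (x, x))))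
      ((univ.image (vx z)).biUnion fun x => (univ.filter fun y => R x y).image fun y => (x, y))
  have u3 := card_union_le (good R z) (univ.image (fun x : Fin n => (x, x)))
  unfold np
  have : 4 * t * s = 2 * t * s + 2 * t * s := by ring
  omega

open Classical in
lemma step {n t s K : ℕ} {R : Fin n → Fin n → Prop} (hR : ∀ x y, R x y → R y x)
    (hs : ∀ x, dR R x ≤ s) (hK : K + n + 4 * t * s ≤ np R ∨ K = 0) :
    (AdmS R t).card * K ≤ (AdmS R (t + 1)).card := by
  have hg : ∀ z : Fin t → Fin n × Fin n, K ≤ (good R z).card := by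
    intro z
    rcases hK with hK | hK
    · have := card_good hR hs z
      omega
    · omega
  have h1 : (AdmS R t).card * K ≤ ((AdmS R t).sigma fun z => good R z).card := by
    rw [card_sigma]
    calc (AdmS R t).card * K = ∑ _z ∈ AdmS R t, K := by rw [sum_const, smul_eq_mul]
      _ ≤ _ := sum_le_sum fun z _ => hg z
  refine le_trans h1 ?_
  refine card_le_card_of_injOn
    (fun p : (_ : Fin t → Fin n × Fin n) × (Fin n × Fin n) =>
      (Fin.snoc p.1 p.2 : Fin (t + 1) → Fin n × Fin n)) ?_ ?_
  · rintro ⟨z, q⟩ hp
    simp only [coe_sigma, Set.mem_sigma_iff, mem_coe, AdmS, good, mem_filter, mem_univ,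
      true_and] at hp
    simp only [mem_coe, AdmS, mem_filter, mem_univ, true_and]
    exact adm_snoc hp.1 hp.2.1 hp.2.2.1 hp.2.2.2.1 hp.2.2.2.2
  · rintro ⟨z, q⟩ _ ⟨z', q'⟩ _ heq
    simp only at heq
    have h2 : z = z' := by
      funext i
      have := congrFun heq i.castSucc
      simpa using this
    have h3 : q = q' := by
      have := congrFun heq (Fin.last t)
      simpa using this
    rw [h2, h3]

end CNT_

open CNT_ in
theorem p_CNT : T_CNT := by
  intro n T s R hR hs
  set K := np R - n - 4 * T * s with hKdef
  have key : ∀ t, t ≤ T → K ^ t ≤ (AdmS R t).card := by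
    intro t
    induction t with
    | zero =>
      intro _
      have : (fun i : Fin 0 => i.elim0 : Fin 0 → Fin n × Fin n) ∈ AdmS R 0 := by
        simp only [AdmS, mem_filter, mem_univ, true_and]
        exact ⟨fun i => i.elim0, fun a => absurd a.2 (by omega)⟩
      have h1 := card_pos.mpr ⟨_, this⟩
      simpa using h1
    | succ t ih =>
      intro ht
      have h1 := ih (by omega)
      have h2 : (AdmS R t).card * K ≤ (AdmS R (t + 1)).card := by
        refine step hR hs ?_
        by_cases hK : K = 0
        · right; exact hK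
        · left
          have h3 : 4 * t * s ≤ 4 * T * s := Nat.mul_le_mul_right _ (by omega)
          omega
      calc K ^ (t + 1) = K ^ t * K := pow_succ _ _
        _ ≤ (AdmS R t).card * K := Nat.mul_le_mul_right _ h1
        _ ≤ _ := h2
  exact key T le_rfl

end Pool.Agent.THL
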