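import Pool.Agent.THL.Defs

set_option autoImplicit false

/-!
# Few vertices of large degree
-/

open Finset

namespace Pool.Agent.THL

namespace DEG_

open Classical in
/-- the pairs which contain `v` -/
noncomputable def Ev {n : ℕ} (v : Fin n) : Finset (Sym2 (Fin n)) := univ.filter fun e => v ∈ e

theorem card_Ev {n : ℕ} (v : Fin n) : (Ev v).card = n := by
  classical
  have h : Ev v = univ.image (fun w : Fin n => s(v, w)) := by
    ext e
    simp only [Ev, mem_filter, mem_univ, true_and, mem_image]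
    rw [Sym2.mem_iff_exists]
    constructor
    · rintro ⟨y, hy⟩
      exact ⟨y, hy.symm⟩
    · rintro ⟨y, hy⟩
      exact ⟨y, hy.symm⟩
  rw [h, card_image_of_injective]
  · simp
  · intro a b hab
    exact Sym2.congr_right.mp hab

theorem dg_eq {n : ℕ} (A : Finset (Sym2 (Fin n))) (v : Fin n) :
    (dg A v : ℝ) = ∑ e ∈ Ev v, CPR.ind {e} A := by
  classical
  unfold dg Ev CPR.ind
  rw [← Finset.sum_filter, Finset.sum_const, nsmul_eq_mul, mul_one, Finset.filter_filter]
  congr 2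
  ext e
  simp only [mem_filter, mem_univ, true_and, singleton_subset_iff]
  tauto

theorem I1_true {P : Prop} (h : P) : I1 P = 1 := by
  unfold I1
  exact if_pos h

theorem I1_false {P : Prop} (h : ¬ P) : I1 P = 0 := by
  unfold I1
  exact if_neg h

theorem ex_ind2 {n : ℕ} (p : ℝ) (e f : Sym2 (Fin n)) :
    CPR.ex (fun _ => p) (fun A => CPR.ind {e} A * CPR.ind {f} A) =
      if e = f then p else p ^ 2 := by
  classical
  have h : (fun A => CPR.ind {e} A * CPR.ind {f} A) = CPR.ind ({e} ∪ {f}) := by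
    funext A
    exact CPR.ind_mul_ind _ _ _
  rw [h, CPR.ex_ind]
  by_cases hef : e = f
  · rw [if_pos hef, hef]
    simp
  · rw [if_neg hef, Finset.prod_const]
    congr 1
    rw [← Finset.insert_eq]
    exact card_pair hef

theorem ex1 {n : ℕ} (p : ℝ) (v : Fin n) :
    CPR.ex (fun _ => p) (fun A => (dg A v : ℝ)) = n * p := by
  have h : (fun A : Finset (Sym2 (Fin n)) => (dg A v : ℝ)) =
      fun A => ∑ e ∈ Ev v, CPR.ind {e} A := by
    funext A
    exact dg_eq A v
  rw [h, CPR.ex_sum]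
  have h2 : ∀ e ∈ Ev v, CPR.ex (fun _ => p) (CPR.ind {e}) = p := by
    intro e _
    rw [CPR.ex_ind]
    simp
  rw [sum_congr rfl h2, sum_const, card_Ev, nsmul_eq_mul]

theorem ex2 {n : ℕ} (p : ℝ) (v : Fin n) :
    CPR.ex (fun _ => p) (fun A => (dg A v : ℝ) * (dg A v : ℝ)) =
      n * p + (n * n - n) * p ^ 2 := by
  classical
  have h : (fun A : Finset (Sym2 (Fin n)) => (dg A v : ℝ) * (dg A v : ℝ)) =
      fun A => ∑ e ∈ Ev v, ∑ f ∈ Ev v, CPR.ind {e} A * CPR.ind {f} A := by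
    funext A
    rw [dg_eq A v, sum_mul_sum]
  rw [h, CPR.ex_sum]
  have h2 : ∀ e ∈ Ev v, CPR.ex (fun _ => p)
      (fun A => ∑ f ∈ Ev v, CPR.ind {e} A * CPR.ind {f} A) = p + (n - 1) * p ^ 2 := by
    intro e he
    rw [CPR.ex_sum]
    rw [sum_congr rfl (fun f _ => ex_ind2 p e f)]
    rw [← add_sum_erase _ _ he, if_pos rfl]
    have h3 : ∀ f ∈ (Ev v).erase e, (if e = f then p else p ^ 2) = p ^ 2 := by
      intro f hf
      exact if_neg (fun hh => (mem_erase.mp hf).1 hh.symm)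
    rw [sum_congr rfl h3, sum_const, card_erase_of_mem he, card_Ev, nsmul_eq_mul]
    have hn : 1 ≤ n := by
      have := card_pos.mpr ⟨e, he⟩
      rwa [card_Ev] at this
    rw [Nat.cast_sub hn, Nat.cast_one]
  rw [sum_congr rfl h2, sum_const, card_Ev, nsmul_eq_mul]
  ring

theorem cheb {n : ℕ} (p δ : ℝ) (hn : 1 ≤ n) (hp : 0 < p) (hp1 : p ≤ 1) (hδ : 0 < δ)
    (v : Fin n) :
    CPR.ex (fun _ => p) (fun A => I1 ((1 + δ) * (n * p) < dg A v)) ≤ 1 / (δ ^ 2 * (n * p)) := by
  have hn0 : (0 : ℝ) < n := by exact_mod_cast hn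
  have hm : 0 < (n : ℝ) * p := mul_pos hn0 hp
  set m : ℝ := n * p with hmd
  have hpt : ∀ A : Finset (Sym2 (Fin n)), I1 ((1 + δ) * m < dg A v) ≤
      1 / (δ * m) ^ 2 * ((dg A v : ℝ) * dg A v - 2 * m * dg A v + m ^ 2) := by
    intro A
    have hsq : (dg A v : ℝ) * dg A v - 2 * m * dg A v + m ^ 2 = ((dg A v : ℝ) - m) ^ 2 := by
      ring
    rw [hsq]
    by_cases h : (1 + δ) * m < dg A v
    · rw [I1_true h, one_div, ← div_eq_inv_mul, le_div_iff₀ (by positivity), one_mul]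
      have h1 : δ * m ≤ (dg A v : ℝ) - m := by nlinarith
      exact pow_le_pow_left₀ (by positivity) h1 2
    · rw [I1_false h]
      positivity
  have hmono := CPR.ex_mono (π := fun _ : Sym2 (Fin n) => p) (fun _ => hp.le) (fun _ => hp1) hpt
  refine hmono.trans ?_
  rw [CPR.ex_mul_left, CPR.ex_add, CPR.ex_sub, CPR.ex_mul_left, CPR.ex_const, ex1, ex2]
  have hval : (n : ℝ) * p + (n * n - n) * p ^ 2 - 2 * m * (n * p) + m ^ 2 ≤ m := by
    rw [hmd]
    nlinarith [mul_pos hn0 (mul_pos hp hp)]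
  calc 1 / (δ * m) ^ 2 * ((n : ℝ) * p + (n * n - n) * p ^ 2 - 2 * m * (n * p) + m ^ 2)
      ≤ 1 / (δ * m) ^ 2 * m := mul_le_mul_of_nonneg_left hval (by positivity)
    _ = 1 / (δ ^ 2 * m) := by
        field_simp

theorem badv_eq {n : ℕ} (A : Finset (Sym2 (Fin n))) (δ d : ℝ) :
    (badv A δ d : ℝ) = ∑ v : Fin n, I1 ((1 + δ) * d < dg A v) := by
  classical
  unfold badv I1
  rw [← Finset.sum_filter, Finset.sum_const, nsmul_eq_mul, mul_one]

end DEG_

open DEG_ in
theorem p_DEG : T_DEG := by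
  intro n p δ hn hp hp1 hδ
  have hn0 : (0 : ℝ) < n := by exact_mod_cast hn
  have hm : 0 < (n : ℝ) * p := mul_pos hn0 hp
  have hpt : ∀ A : Finset (Sym2 (Fin n)), I1 (δ * n < badv A δ (n * p)) ≤
      1 / (δ * n) * ∑ v : Fin n, I1 ((1 + δ) * (n * p) < dg A v) := by
    intro A
    rw [← badv_eq]
    by_cases h : δ * n < badv A δ (n * p)
    · rw [I1_true h, one_div, ← div_eq_inv_mul, le_div_iff₀ (by positivity), one_mul]
      exact h.le
    · rw [I1_false h]
      positivity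
  have hmono := CPR.ex_mono (π := fun _ : Sym2 (Fin n) => p) (fun _ => hp.le) (fun _ => hp1) hpt
  unfold EE
  refine hmono.trans ?_
  rw [CPR.ex_mul_left, CPR.ex_sum]
  calc 1 / (δ * n) * ∑ v : Fin n,
        CPR.ex (fun _ => p) (fun A => I1 ((1 + δ) * (n * p) < dg A v))
      ≤ 1 / (δ * n) * ∑ v : Fin n, 1 / (δ ^ 2 * (n * p)) :=
        mul_le_mul_of_nonneg_left (sum_le_sum fun v _ => cheb p δ hn hp hp1 hδ v)
          (by positivity)
    _ = 1 / (δ ^ 3 * (n * p)) := by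
        rw [sum_const, card_univ, Fintype.card_fin, nsmul_eq_mul]
        field_simp

end Pool.Agent.THL
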