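import Pool.Agent.THL.Defs

set_option autoImplicit false

/-!
# Lower bounds for nonrepetitive colourings: the constant `1` for all blow-ups (part 2)
-/

open Finset

namespace Pool.Agent.THL

/-- the sets of `x` and `y` meet -/
def Meet {n m : ℕ} (S : Fin n → Finset (Fin m)) (x y : Fin n) : Prop := (S x ∩ S y).Nonempty

/-- ONE2: a fixed symmetric relation. -/
def T_ONE2 : Prop := ∀ (n t s : ℕ) (R : Fin n → Fin n → Prop) (p : ℝ), 1 ≤ t → 0 < p → p ≤ 1 →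
    (∀ x y, R x y → R y x) → (∀ x, dR R x ≤ s) → p * s ≤ 1 → 1 ≤ p ^ 2 * np R →
    1 ≤ (p ^ 2 * np R) ^ t * (p * s) ^ 2 →
    (2 * t + 1) ^ (2 * t) * p ≤ (p * s) ^ 2 →
    4 * (t : ℝ) * (n + 4 * t * s) ≤ np R →
    EE n p (fun A => I1 (∀ z ∈ AdmS R t, ¬ edg z ⊆ A)) ≤
      Real.exp (-(1 / (264 * t ^ 3 * p * (p * s) ^ 2)))

/-- ENG2: the random graph, for families of sets with at most `r` elements. -/
def T_ENG2 : Prop := ∀ (δ : ℝ) (r : ℕ), 0 < δ → δ ≤ 1 → 1 ≤ r → ∃ d₀ : ℕ, ∀ d : ℕ, d₀ ≤ d →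
    ∃ (n : ℕ) (A : Finset (Sym2 (Fin n))), d ^ 3 ≤ n ∧ (badv A δ d : ℝ) ≤ δ * n ∧
      ¬ HasInd A δ ∧ ∀ S : Fin n → Finset (Fin (r * n)), (∀ v, (S v).card ≤ r) →
        (∀ a, (d : ℝ) ^ 2 * (univ.filter fun v => a ∈ S v).card ≤ 9 * n) →
        (1 + δ) * n ^ 2 ≤ (d : ℝ) ^ 2 * np (Meet S) →
        ∃ (t : ℕ) (z : Fin t → Fin n × Fin n), 1 ≤ t ∧ Adm (Meet S) z ∧ edg z ⊆ A

/-- SELR: cutting the classes of a family of `r`-sets into pieces of size at most `s`. -/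
def T_SELR : Prop := ∀ (n r r' M s : ℕ) (W : Finset (Fin n)) (S : Fin n → Finset (Fin M))
    (Q : Finset (Fin M)) (C : ℝ), 0 < C → 1 ≤ M → 1 ≤ r → r ≤ r' → (∀ v ∈ W, (S v).card = r) →
    (∀ v ∈ W, S v ⊆ Q) → (Q.card : ℝ) ≤ C * r → 4 * (W.card : ℝ) ≤ C * s →
    ∃ S' : Fin n → Finset (Fin (r' * n)), (∀ v, (S' v).card ≤ r) ∧ (∀ v, v ∉ W → S' v = ∅) ∧
      (∀ b, ∃ a, ∀ v, b ∈ S' v → a ∈ S v) ∧
      (∀ b, (univ.filter fun v => b ∈ S' v).card ≤ s) ∧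
      (W.card : ℝ) ^ 2 ≤ C * np (Meet S')

/-- PAL: a sub-palette, which reduces `k`-sets to `r`-sets. -/
def T_PAL : Prop := ∀ ε : ℝ, 0 < ε → ε ≤ 1 / 2 → ∃ r : ℕ, 1 ≤ r ∧
    ∀ (n k M : ℕ) (W : Finset (Fin n)) (S : Fin n → Finset (Fin M)), 2 * r ≤ k →
      (∀ v ∈ W, (S v).card = k) →
      ∃ (W' : Finset (Fin n)) (S' : Fin n → Finset (Fin M)) (Q : Finset (Fin M)), W' ⊆ W ∧
        (1 - ε) * W.card ≤ W'.card ∧ (∀ v, S' v ⊆ S v) ∧ (∀ v, S' v ⊆ Q) ∧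
        (∀ v ∈ W', (S' v).card = r) ∧ (Q.card : ℝ) * k ≤ (1 + ε) * M * r

/-- the final statement of part 2 -/
def T_FIN2 : Prop := ∀ δ : ℝ, 0 < δ → ∃ Δ₀ : ℕ, ∀ Δ : ℕ, Δ₀ ≤ Δ →
    ∃ (n : ℕ) (G : SimpleGraph (Fin n)), (∀ v, (G.neighborSet v).ncard ≤ Δ) ∧
      (∀ (k M : ℕ) (c : Fin n × Fin k → Fin M), Nonrep (EB G k) c →
        (1 - δ) * k * Δ ^ 2 ≤ M) ∧
      (∀ (k M : ℕ) (c : Fin n × Fin k → Fin M), Nonrep (KB G k) c →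
        (1 - δ) * k * Δ ^ 2 ≤ M)

end Pool.Agent.THL
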