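import Pool.Agent.THL.Defs

set_option autoImplicit false

/-!
# THL: the random graph (block ENG)
-/

open Finset

namespace Pool.Agent.THL

namespace ENG_

theorem EE_mono {n : ℕ} {p : ℝ} (h0 : 0 ≤ p) (h1 : p ≤ 1) {φ ψ : Finset (Sym2 (Fin n)) → ℝ}
    (h : ∀ A, φ A ≤ ψ A) : EE n p φ ≤ EE n p ψ :=
  CPR.ex_mono (fun _ => h0) (fun _ => h1) h

theorem EE_const (n : ℕ) (p c : ℝ) : EE n p (fun _ => c) = c := CPR.ex_const _ _

theorem EE_add (n : ℕ) (p : ℝ) (f g : Finset (Sym2 (Fin n)) → ℝ) :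
    EE n p (fun A => f A + g A) = EE n p f + EE n p g := CPR.ex_add _ _ _

theorem EE_sum {ι : Type} (n : ℕ) (p : ℝ) (I : Finset ι) (f : ι → Finset (Sym2 (Fin n)) → ℝ) :
    EE n p (fun A => ∑ i ∈ I, f i A) = ∑ i ∈ I, EE n p (f i) := CPR.ex_sum _ _ _

theorem I1_nonneg (P : Prop) : 0 ≤ I1 P := by
  unfold I1
  split_ifs <;> norm_num

theorem I1_of {P : Prop} (h : P) : I1 P = 1 := by
  unfold I1
  rw [if_pos h]

/-- the union bound -/
theorem union {ι : Type} {n : ℕ} {p : ℝ} (h0 : 0 ≤ p) (h1 : p ≤ 1) (I : Finset ι)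
    (f g : Finset (Sym2 (Fin n)) → ℝ) (h : ι → Finset (Sym2 (Fin n)) → ℝ)
    (hA : ∀ A, 1 ≤ f A + g A + ∑ i ∈ I, h i A) :
    1 ≤ EE n p f + EE n p g + ∑ i ∈ I, EE n p (h i) := by
  have h2 := EE_mono h0 h1 hA
  rw [EE_const, EE_add, EE_add, EE_sum] at h2
  exact h2

/-- the number of rounds -/
noncomputable def tt (δ : ℝ) (d : ℕ) : ℕ := ⌈2 * Real.log d / Real.log (1 + δ)⌉₊

/-- the choice of the size of `d` -/
theorem large (δ : ℝ) (hδ : 0 < δ) : ∃ d₀ : ℕ, ∀ d : ℕ, d₀ ≤ d →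
    9 ≤ d ∧ 8 ≤ δ ^ 3 * d ∧ 48 ≤ δ ^ 2 * d ∧ 1 ≤ tt δ d ∧ (d : ℝ) ^ 2 ≤ (1 + δ) ^ tt δ d ∧
    21384 * (tt δ d : ℝ) ^ 3 *
      (2 * tt δ d * Real.log (2 * tt δ d + 1) + 3 * Real.log d + 4) ≤ d := by
  have hc0 : 0 < Real.log (1 + δ) := Real.log_pos (by linarith)
  obtain ⟨C, hC⟩ : ∃ C : ℝ, C = 2 / Real.log (1 + δ) + 1 := ⟨_, rfl⟩
  have hC0 : 0 < C := by rw [hC]; positivity
  obtain ⟨K, hK⟩ : ∃ K : ℝ, K = 21384 * C ^ 3 * (4 * C ^ 2 + 7) := ⟨_, rfl⟩
  have hK0 : 0 < K := by rw [hK]; positivity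
  have hlit : ∀ᶠ d : ℕ in Filter.atTop, K * Real.log d ^ 5 ≤ d := by
    have h1 := (Real.isLittleO_pow_log_id_atTop (n := 5)).def (show (0 : ℝ) < 1 / K by positivity)
    have h2 := tendsto_natCast_atTop_atTop (R := ℝ) |>.eventually h1
    filter_upwards [h2, Filter.eventually_ge_atTop 1] with d hd hd1
    have hd1' : (1 : ℝ) ≤ d := by exact_mod_cast hd1
    have hlog : 0 ≤ Real.log d := Real.log_nonneg hd1'
    rw [Real.norm_of_nonneg (by positivity), id, Real.norm_of_nonneg (by positivity)] at hd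
    calc K * Real.log d ^ 5 ≤ K * (1 / K * d) := mul_le_mul_of_nonneg_left hd hK0.le
      _ = d := by field_simp
  have hev : ∀ᶠ d : ℕ in Filter.atTop, 9 ≤ d ∧ 8 ≤ δ ^ 3 * d ∧ 48 ≤ δ ^ 2 * d := by
    have h3 : ∀ᶠ d : ℕ in Filter.atTop, 8 / δ ^ 3 ≤ (d : ℝ) :=
      tendsto_natCast_atTop_atTop.eventually_ge_atTop _
    have h4 : ∀ᶠ d : ℕ in Filter.atTop, 48 / δ ^ 2 ≤ (d : ℝ) :=
      tendsto_natCast_atTop_atTop.eventually_ge_atTop _
    filter_upwards [h3, h4, Filter.eventually_ge_atTop 9] with d h3 h4 h5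
    refine ⟨h5, ?_, ?_⟩
    · rw [div_le_iff₀ (by positivity)] at h3
      linarith
    · rw [div_le_iff₀ (by positivity)] at h4
      linarith
  obtain ⟨d₀, hd₀⟩ := Filter.eventually_atTop.mp (hlit.and hev)
  refine ⟨d₀, fun d hd => ?_⟩
  obtain ⟨hlit, h9, h8, h48⟩ := hd₀ d hd
  have h9' : (9 : ℝ) ≤ d := by exact_mod_cast h9
  have hL1 : 1 ≤ Real.log d := by
    rw [Real.le_log_iff_exp_le (by linarith)]
    have := Real.exp_one_lt_d9
    linarith
  have hpos : 0 < 2 * Real.log d / Real.log (1 + δ) := by positivity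
  have ht1 : 1 ≤ tt δ d := by
    unfold tt
    exact Nat.one_le_iff_ne_zero.mpr (Nat.ceil_pos.mpr hpos).ne'
  have ht1' : (1 : ℝ) ≤ tt δ d := by exact_mod_cast ht1
  have hlow : 2 * Real.log d / Real.log (1 + δ) ≤ tt δ d := Nat.le_ceil _
  have hup : (tt δ d : ℝ) ≤ C * Real.log d := by
    have h1 : (tt δ d : ℝ) < 2 * Real.log d / Real.log (1 + δ) + 1 := Nat.ceil_lt_add_one hpos.le
    have h2 : C * Real.log d = 2 * Real.log d / Real.log (1 + δ) + Real.log d := by
      rw [hC]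
      ring
    linarith
  refine ⟨h9, h8, h48, ht1, ?_, ?_⟩
  · have h1 : 2 * Real.log d ≤ tt δ d * Real.log (1 + δ) := by
      rwa [div_le_iff₀ hc0] at hlow
    have h2 : (d : ℝ) ^ 2 = Real.exp (2 * Real.log d) := by
      rw [show (2 : ℝ) * Real.log d = ((2 : ℕ) : ℝ) * Real.log d by norm_num, ← Real.log_pow,
        Real.exp_log (by positivity)]
    have h3 : (1 + δ) ^ tt δ d = Real.exp (tt δ d * Real.log (1 + δ)) := by
      rw [← Real.log_pow, Real.exp_log (by positivity)]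
    rw [h2, h3]
    exact Real.exp_le_exp.mpr h1
  · obtain ⟨T, hT⟩ : ∃ T : ℝ, T = tt δ d := ⟨_, rfl⟩
    obtain ⟨L, hL⟩ : ∃ L : ℝ, L = Real.log d := ⟨_, rfl⟩
    rw [← hT, ← hL] at hup
    rw [← hT] at ht1'
    rw [← hL] at hL1 hlit
    rw [← hT, ← hL]
    have h1 : Real.log (2 * T + 1) ≤ 2 * T := by
      have := Real.log_le_sub_one_of_pos (x := 2 * T + 1) (by linarith)
      linarith
    have h2 : 2 * T * Real.log (2 * T + 1) ≤ 4 * (C * L) ^ 2 := by
      have h3 : 2 * T * Real.log (2 * T + 1) ≤ 2 * T * (2 * T) :=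
        mul_le_mul_of_nonneg_left h1 (by linarith)
      have h4 : T ^ 2 ≤ (C * L) ^ 2 := pow_le_pow_left₀ (by linarith) hup 2
      linarith [sq T]
    have h5 : 2 * T * Real.log (2 * T + 1) + 3 * L + 4 ≤ (4 * C ^ 2 + 7) * L ^ 2 := by
      nlinarith
    have h6 : T ^ 3 ≤ (C * L) ^ 3 := pow_le_pow_left₀ (by linarith) hup 3
    calc 21384 * T ^ 3 * (2 * T * Real.log (2 * T + 1) + 3 * L + 4)
        ≤ 21384 * T ^ 3 * ((4 * C ^ 2 + 7) * L ^ 2) :=
          mul_le_mul_of_nonneg_left h5 (by positivity)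
      _ ≤ 21384 * (C * L) ^ 3 * ((4 * C ^ 2 + 7) * L ^ 2) := by
          refine mul_le_mul_of_nonneg_right ?_ (by positivity)
          linarith
      _ = K * L ^ 5 := by
          rw [hK]
          ring
      _ ≤ d := hlit

/-- the classes of `Same g` -/
theorem dR_same {n : ℕ} (g : Fin n → Option (Fin n)) (s : ℕ) (h : ∀ a, cl g a ≤ s) (x : Fin n) :
    dR (Same g) x ≤ s := by
  classical
  unfold dR
  rcases hx : g x with _ | a
  · have h1 : (univ.filter fun y => Same g x y) = (∅ : Finset (Fin n)) := by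
      ext y
      simp [Same, hx]
    rw [h1]
    simp
  · refine le_trans (card_le_card ?_) (h a)
    intro y hy
    rw [mem_filter] at hy ⊢
    refine ⟨mem_univ _, ?_⟩
    have := hy.2.1
    rw [hx] at this
    exact this.symm

end ENG_

open ENG_ in
theorem p_ENG : T_ONE → T_DEG → T_IND → T_ENG := by
  intro hO hD hI δ hδ0 hδ1
  obtain ⟨d₀, hd₀⟩ := large δ hδ0
  refine ⟨d₀, fun d hd => ?_⟩
  obtain ⟨h9, h8, h48, ht1, hpow, hbig⟩ := hd₀ d hd
  obtain ⟨t, ht⟩ : ∃ t : ℕ, t = tt δ d := ⟨_, rfl⟩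
  rw [← ht] at ht1 hpow hbig
  obtain ⟨n, hn⟩ : ∃ n : ℕ, n = (2 * t + 1) ^ (2 * t) * d ^ 3 := ⟨_, rfl⟩
  have hdr : (9 : ℝ) ≤ d := by exact_mod_cast h9
  have hd0 : (0 : ℝ) < d := by linarith
  have htr : (1 : ℝ) ≤ t := by exact_mod_cast ht1
  obtain ⟨Q, hQ⟩ : ∃ Q : ℝ, Q = (2 * (t : ℝ) + 1) ^ (2 * t) := ⟨_, rfl⟩
  have hQ2 : (2 * (t : ℝ) + 1) ^ 2 ≤ Q := by
    rw [hQ]
    exact pow_le_pow_right₀ (by linarith) (by omega)
  have hQ1 : 9 ≤ Q := by nlinarith
  have hnr : (n : ℝ) = Q * d ^ 3 := by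
    rw [hn, hQ]
    push_cast
    ring
  have hnd3 : d ^ 3 ≤ n := by
    rw [hn]
    exact Nat.le_mul_of_pos_left _ (by positivity)
  have hn0 : (0 : ℝ) < n := by
    rw [hnr]
    positivity
  have hn1 : 1 ≤ n := by
    have : 0 < n := by exact_mod_cast hn0
    omega
  have hn1' : (1 : ℝ) ≤ n := by exact_mod_cast hn1
  have hnd : (d : ℝ) ≤ n := by
    rw [hnr]
    have h1 : (1 : ℝ) ≤ Q * d ^ 2 := by nlinarith
    nlinarith
  obtain ⟨p, hp⟩ : ∃ p : ℝ, p = d / n := ⟨_, rfl⟩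
  have hp0 : 0 < p := by
    rw [hp]
    positivity
  have hp1 : p ≤ 1 := by
    rw [hp, div_le_one hn0]
    exact hnd
  have hnp : (n : ℝ) * p = d := by
    rw [hp]
    field_simp
  obtain ⟨s, hs⟩ : ∃ s : ℕ, s = ⌊9 * (n : ℝ) / d ^ 2⌋₊ := ⟨_, rfl⟩
  have hs_up : (s : ℝ) ≤ 9 * (n : ℝ) / d ^ 2 := by
    rw [hs]
    exact Nat.floor_le (by positivity)
  have hs_low : 9 * (n : ℝ) / d ^ 2 < s + 1 := by
    rw [hs]
    exact Nat.lt_floor_add_one _
  have hσ_up : p * s ≤ 9 / d := by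
    calc p * s ≤ p * (9 * (n : ℝ) / d ^ 2) := mul_le_mul_of_nonneg_left hs_up hp0.le
      _ = 9 / d := by
          rw [hp]
          field_simp
  have hσ_low : 8 / d ≤ p * s := by
    have h1 : p * (9 * (n : ℝ) / d ^ 2) ≤ p * (s + 1) :=
      mul_le_mul_of_nonneg_left hs_low.le hp0.le
    have h2 : p * (9 * (n : ℝ) / d ^ 2) = 9 / d := by
      rw [hp]
      field_simp
    have h3 : p ≤ 1 / d := by
      rw [hp, div_le_div_iff₀ hn0 hd0]
      rw [hnr]
      nlinarith [mul_pos hd0 hd0, mul_pos (mul_pos hd0 hd0) hd0]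
    have h4 : 9 / (d : ℝ) = 8 / d + 1 / d := by
      ring
    rw [h2, mul_add, mul_one] at h1
    linarith
  have hσ0 : 0 < p * s := lt_of_lt_of_le (by positivity) hσ_low
  by_contra hcon
  push Not at hcon
  classical
  obtain ⟨I, hI'⟩ : ∃ I : Finset (Fin n → Option (Fin n)), I = univ.filter (fun g =>
      (∀ a, (d : ℝ) ^ 2 * cl g a ≤ 9 * n) ∧ (1 + δ) * n ^ 2 ≤ (d : ℝ) ^ 2 * np (Same g)) :=
    ⟨_, rfl⟩
  have hall : ∀ A : Finset (Sym2 (Fin n)), 1 ≤ I1 (δ * n < badv A δ (n * p)) +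
      I1 (HasInd A δ) + ∑ g ∈ I, I1 (∀ z ∈ AdmS (Same g) t, ¬ edg z ⊆ A) := by
    intro A
    have hsum : 0 ≤ ∑ g ∈ I, I1 (∀ z ∈ AdmS (Same g) t, ¬ edg z ⊆ A) :=
      sum_nonneg fun g _ => I1_nonneg _
    have ha := I1_nonneg (δ * n < badv A δ (n * p))
    have hb := I1_nonneg (HasInd A δ)
    by_cases h1 : δ * n < badv A δ (n * p)
    · rw [I1_of h1]
      linarith
    · by_cases h2 : HasInd A δ
      · rw [I1_of h2]
        linarith
      · rw [hnp, not_lt] at h1
        obtain ⟨g, hg1, hg2, hg3⟩ := hcon n A hnd3 h1 h2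
        have hgI : g ∈ I := by
          rw [hI', mem_filter]
          exact ⟨mem_univ _, hg1, hg2⟩
        have h3 : ∀ z ∈ AdmS (Same g) t, ¬ edg z ⊆ A := by
          intro z hz
          unfold AdmS at hz
          rw [mem_filter] at hz
          exact hg3 t z ht1 hz.2
        have h4 : I1 (∀ z ∈ AdmS (Same g) t, ¬ edg z ⊆ A) ≤
            ∑ g ∈ I, I1 (∀ z ∈ AdmS (Same g) t, ¬ edg z ⊆ A) :=
          single_le_sum (f := fun g => I1 (∀ z ∈ AdmS (Same g) t, ¬ edg z ⊆ A))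
            (fun g _ => I1_nonneg _) hgI
        rw [I1_of h3] at h4
        linarith
  have hun := union hp0.le hp1 I (fun A => I1 (δ * n < badv A δ (n * p)))
    (fun A => I1 (HasInd A δ)) (fun g A => I1 (∀ z ∈ AdmS (Same g) t, ¬ edg z ⊆ A)) hall
  have hl2 : Real.log 2 < 0.6931471808 := Real.log_two_lt_d9
  -- DEG
  have hdeg : EE n p (fun A => I1 (δ * n < badv A δ (n * p))) ≤ 1 / 8 := by
    refine (hD n p δ hn1 hp0 hp1 hδ0).trans ?_
    rw [hnp]
    exact one_div_le_one_div_of_le (by norm_num) h8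
  -- IND
  have hind : EE n p (fun A => I1 (HasInd A δ)) ≤ 1 / 8 := by
    refine (hI n p δ hn1 hp0 hp1 hδ0).trans ?_
    have h1 : (2 : ℝ) ^ n = Real.exp (n * Real.log 2) := by
      rw [← Real.log_pow, Real.exp_log (by positivity)]
    have h2 : (1 : ℝ) / 8 = Real.exp (-(3 * Real.log 2)) := by
      rw [Real.exp_neg, show (3 : ℝ) * Real.log 2 = ((3 : ℕ) : ℝ) * Real.log 2 by norm_num,
        ← Real.log_pow, Real.exp_log (by positivity)]
      norm_num
    rw [h1, h2, ← Real.exp_add]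
    apply Real.exp_le_exp.mpr
    have h3 : p * (δ * n) = δ * d := by
      rw [← hnp]
      ring
    rw [h3]
    have h4 : 48 ≤ δ * d := by
      have : δ ^ 2 * d ≤ δ * d := by
        have : δ ^ 2 ≤ δ := by nlinarith
        exact mul_le_mul_of_nonneg_right this hd0.le
      linarith
    have h5 : 2 ≤ δ * n := by
      have : δ * d ≤ δ * n := mul_le_mul_of_nonneg_left hnd hδ0.le
      linarith
    have h6 : δ * d * (δ * n / 2) ≤ δ * d * (δ * n - 1) :=
      mul_le_mul_of_nonneg_left (by linarith) (by linarith)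
    have h7 : 48 * (n : ℝ) ≤ δ * d * (δ * n) := by
      have : 48 * (n : ℝ) ≤ (δ ^ 2 * d) * n := mul_le_mul_of_nonneg_right h48 hn0.le
      nlinarith
    have h8' : (n : ℝ) * Real.log 2 ≤ n * 0.6931471808 :=
      mul_le_mul_of_nonneg_left hl2.le hn0.le
    linarith
  -- ONE
  have hone : ∑ g ∈ I, EE n p (fun A => I1 (∀ z ∈ AdmS (Same g) t, ¬ edg z ⊆ A)) ≤ 1 / 8 := by
    have hb : ∀ g ∈ I, EE n p (fun A => I1 (∀ z ∈ AdmS (Same g) t, ¬ edg z ⊆ A)) ≤
        Real.exp (-(n * d / (21384 * (t : ℝ) ^ 3))) := by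
      intro g hg
      rw [hI', mem_filter] at hg
      obtain ⟨-, hg1, hg2⟩ := hg
      have hcl : ∀ a, cl g a ≤ s := by
        intro a
        rw [hs]
        apply Nat.le_floor
        rw [le_div_iff₀ (by positivity)]
        have := hg1 a
        linarith
      have hρ : 1 + δ ≤ p ^ 2 * np (Same g) := by
        have h1 : p ^ 2 * np (Same g) = (d : ℝ) ^ 2 * np (Same g) / n ^ 2 := by
          rw [hp]
          field_simp
        rw [h1, le_div_iff₀ (by positivity)]
        exact hg2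
      have hσ2 : 64 / (d : ℝ) ^ 2 ≤ (p * s) ^ 2 := by
        have := pow_le_pow_left₀ (by positivity) hσ_low 2
        calc 64 / (d : ℝ) ^ 2 = (8 / d) ^ 2 := by
              rw [div_pow]
              norm_num
          _ ≤ _ := this
      have hρt : (d : ℝ) ^ 2 ≤ (p ^ 2 * np (Same g)) ^ t :=
        hpow.trans (pow_le_pow_left₀ (by linarith) hρ t)
      have h := hO n t s g p ht1 hp0 hp1 (dR_same g s hcl) (by
          refine hσ_up.trans ?_
          rw [div_le_one hd0]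
          exact hdr) (by linarith) (by
          calc (1 : ℝ) ≤ d ^ 2 * (64 / d ^ 2) := by
                rw [mul_div_cancel₀ _ (by positivity)]
                norm_num
            _ ≤ (p ^ 2 * np (Same g)) ^ t * (p * s) ^ 2 := by
                exact mul_le_mul hρt hσ2 (by positivity) (by positivity)) (by
          refine le_trans (le_of_eq ?_) ((show 1 / (d : ℝ) ^ 2 ≤ 64 / d ^ 2 by
            gcongr
            norm_num).trans hσ2)
          rw [← hQ, hp, hnr]
          have : Q ≠ 0 := by linarith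
          field_simp) (by
          have h1 : (n : ℝ) ^ 2 ≤ d ^ 2 * np (Same g) := by
            refine le_trans ?_ hg2
            nlinarith [sq_nonneg (n : ℝ)]
          have h2 : (n : ℝ) ^ 2 / d ^ 2 ≤ np (Same g) := by
            rw [div_le_iff₀ (by positivity)]
            linarith
          refine le_trans ?_ h2
          have h3 : 4 * (t : ℝ) * (n + 4 * t * s) ≤ 4 * t * (n + 4 * t * (9 * n / d ^ 2)) := by
            gcongr
          refine h3.trans ?_
          have h4 : 4 * (t : ℝ) * (n + 4 * t * (9 * n / d ^ 2)) =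
              n * (4 * t + 144 * t ^ 2 / d ^ 2) := by
            ring
          have h5 : (n : ℝ) ^ 2 / d ^ 2 = n * (Q * d) := by
            rw [sq (n : ℝ)]
            nth_rewrite 2 [hnr]
            field_simp
          rw [h4, h5]
          refine mul_le_mul_of_nonneg_left ?_ hn0.le
          have h6 : 144 * (t : ℝ) ^ 2 / d ^ 2 ≤ 2 * t ^ 2 := by
            rw [div_le_iff₀ (by positivity)]
            have h8 : (81 : ℝ) ≤ (d : ℝ) ^ 2 := by nlinarith
            have h9' : 2 * (t : ℝ) ^ 2 * 81 ≤ 2 * (t : ℝ) ^ 2 * (d : ℝ) ^ 2 :=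
              mul_le_mul_of_nonneg_left h8 (by positivity)
            linarith [sq_nonneg (t : ℝ)]
          have h7 : (2 * (t : ℝ) + 1) ^ 2 * 9 ≤ Q * d :=
            mul_le_mul hQ2 hdr (by norm_num) (by linarith)
          nlinarith)
      refine h.trans ?_
      apply Real.exp_le_exp.mpr
      apply neg_le_neg
      have h1 : 264 * (t : ℝ) ^ 3 * p * (p * s) ^ 2 ≤ 21384 * (t : ℝ) ^ 3 / (n * d) := by
        calc 264 * (t : ℝ) ^ 3 * p * (p * s) ^ 2 ≤ 264 * (t : ℝ) ^ 3 * p * (9 / d) ^ 2 := by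
              gcongr
          _ = 21384 * (t : ℝ) ^ 3 / (n * d) := by
              rw [hp]
              field_simp
              ring
      have h2 : n * d / (21384 * (t : ℝ) ^ 3) = 1 / (21384 * (t : ℝ) ^ 3 / (n * d)) := by
        rw [one_div_div]
      rw [h2]
      exact one_div_le_one_div_of_le (by positivity) h1
    refine (sum_le_card_nsmul I _ _ hb).trans ?_
    rw [nsmul_eq_mul]
    have hcard : (I.card : ℝ) ≤ ((n : ℝ) + 1) ^ n := by
      have h1 : I.card ≤ Fintype.card (Fin n → Option (Fin n)) := card_le_univ I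
      have h2 : Fintype.card (Fin n → Option (Fin n)) = (n + 1) ^ n := by
        simp
      rw [h2] at h1
      exact_mod_cast h1
    have hlogn : Real.log ((n : ℝ) + 1) ≤
        Real.log 2 + (2 * t * Real.log (2 * t + 1) + 3 * Real.log d) := by
      have h1 : Real.log ((n : ℝ) + 1) ≤ Real.log (2 * n) :=
        Real.log_le_log (by positivity) (by linarith)
      have h2 : Real.log (2 * (n : ℝ)) =
          Real.log 2 + (2 * t * Real.log (2 * t + 1) + 3 * Real.log d) := by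
        rw [Real.log_mul (by norm_num) hn0.ne', hnr, hQ,
          Real.log_mul (by positivity) (by positivity), Real.log_pow, Real.log_pow]
        push_cast
        ring
      linarith
    have h1 : ((n : ℝ) + 1) ^ n = Real.exp (n * Real.log (n + 1)) := by
      rw [← Real.log_pow, Real.exp_log (by positivity)]
    have h2 : (1 : ℝ) / 8 = Real.exp (-(3 * Real.log 2)) := by
      rw [Real.exp_neg, show (3 : ℝ) * Real.log 2 = ((3 : ℕ) : ℝ) * Real.log 2 by norm_num,
        ← Real.log_pow, Real.exp_log (by positivity)]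
      norm_num
    calc (I.card : ℝ) * Real.exp (-(n * d / (21384 * (t : ℝ) ^ 3)))
        ≤ ((n : ℝ) + 1) ^ n * Real.exp (-(n * d / (21384 * (t : ℝ) ^ 3))) :=
          mul_le_mul_of_nonneg_right hcard (Real.exp_pos _).le
      _ = Real.exp (n * Real.log (n + 1) + -(n * d / (21384 * (t : ℝ) ^ 3))) := by
          rw [h1, ← Real.exp_add]
      _ ≤ Real.exp (-(3 * Real.log 2)) := by
          apply Real.exp_le_exp.mpr
          have h3 : Real.log 2 + (2 * t * Real.log (2 * t + 1) + 3 * Real.log d) +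
              3 * Real.log 2 ≤ d / (21384 * (t : ℝ) ^ 3) := by
            rw [le_div_iff₀ (by positivity)]
            refine le_trans ?_ hbig
            have h4 : Real.log 2 + (2 * t * Real.log (2 * t + 1) + 3 * Real.log d) +
                3 * Real.log 2 ≤ 2 * t * Real.log (2 * t + 1) + 3 * Real.log d + 4 := by
              linarith
            rw [mul_comm]
            exact mul_le_mul_of_nonneg_left h4 (by positivity)
          have h5 : (n : ℝ) * (Real.log (n + 1) + 3 * Real.log 2) ≤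
              n * (d / (21384 * (t : ℝ) ^ 3)) :=
            mul_le_mul_of_nonneg_left (by linarith) hn0.le
          have h6 : (n : ℝ) * (d / (21384 * (t : ℝ) ^ 3)) = n * d / (21384 * (t : ℝ) ^ 3) := by
            ring
          have h7 : (3 * Real.log 2) * 1 ≤ (3 * Real.log 2) * (n : ℝ) :=
            mul_le_mul_of_nonneg_left hn1' (by positivity)
          rw [h6] at h5
          linarith
      _ = 1 / 8 := h2.symm
  linarith

end Pool.Agent.THL
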