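import Pool.Agent.THL.Defs2

set_option autoImplicit false

/-!
# ENG2: the random graph for families of sets with at most `r` elements
-/

open Finset

namespace Pool.Agent.THL

namespace ENG2_

theorem card_small (m r : ℕ) :
    ((univ : Finset (Finset (Fin m))).filter (fun T => T.card ≤ r)).card ≤ (m + 1) ^ r := by
  have h1 : (univ : Finset (Finset (Fin m))).filter (fun T => T.card ≤ r) ⊆
      (range (r + 1)).biUnion (fun i => powersetCard i (univ : Finset (Fin m))) := by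
    intro T hT
    rw [mem_filter] at hT
    rw [mem_biUnion]
    refine ⟨T.card, mem_range.mpr (by omega), ?_⟩
    rw [mem_powersetCard]
    exact ⟨subset_univ _, rfl⟩
  refine (card_le_card h1).trans (card_biUnion_le.trans ?_)
  rw [add_pow]
  refine sum_le_sum fun i hi => ?_
  rw [card_powersetCard, card_univ, Fintype.card_fin, one_pow, mul_one]
  have h2 : 0 < r.choose i := Nat.choose_pos (by have := mem_range.mp hi; omega)
  calc m.choose i ≤ m ^ i := Nat.choose_le_pow m i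
    _ ≤ m ^ i * r.choose i := Nat.le_mul_of_pos_right _ h2

theorem card_fam {n m r : ℕ} (F : Finset (Fin n → Finset (Fin m)))
    (h : ∀ S ∈ F, ∀ v, (S v).card ≤ r) : F.card ≤ ((m + 1) ^ r) ^ n := by
  have h1 : F ⊆ Fintype.piFinset
      (fun _ : Fin n => (univ : Finset (Finset (Fin m))).filter (fun T => T.card ≤ r)) := by
    intro S hS
    rw [Fintype.mem_piFinset]
    intro v
    rw [mem_filter]
    exact ⟨mem_univ _, h S hS v⟩
  refine (card_le_card h1).trans ?_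
  rw [Fintype.card_piFinset, prod_const, card_univ, Fintype.card_fin]
  exact Nat.pow_le_pow_left (card_small m r) n

theorem meet_symm {n m : ℕ} (S : Fin n → Finset (Fin m)) (x y : Fin n) (h : Meet S x y) :
    Meet S y x := by
  unfold Meet at *
  rwa [inter_comm]

theorem dR_meet {n m : ℕ} (S : Fin n → Finset (Fin m)) (r k : ℕ) (h1 : ∀ v, (S v).card ≤ r)
    (h2 : ∀ a, (univ.filter fun v => a ∈ S v).card ≤ k) (x : Fin n) :
    dR (Meet S) x ≤ r * k := by
  classical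
  unfold dR
  have h3 : (univ.filter fun y => Meet S x y) ⊆
      (S x).biUnion (fun a => univ.filter fun v => a ∈ S v) := by
    intro y hy
    rw [mem_filter] at hy
    obtain ⟨a, ha⟩ := hy.2
    rw [mem_inter] at ha
    rw [mem_biUnion]
    exact ⟨a, ha.1, by rw [mem_filter]; exact ⟨mem_univ _, ha.2⟩⟩
  have h4 : ((S x).biUnion (fun a => univ.filter fun v => a ∈ S v)).card ≤ r * k := by
    refine card_biUnion_le.trans ?_
    calc ∑ a ∈ S x, (univ.filter fun v => a ∈ S v).card ≤ ∑ a ∈ S x, k :=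
          sum_le_sum fun a _ => h2 a
      _ = (S x).card * k := by rw [sum_const, smul_eq_mul]
      _ ≤ r * k := Nat.mul_le_mul_right k (h1 x)
  refine le_trans (le_of_eq ?_) ((card_le_card h3).trans h4)
  congr

theorem params (δ : ℝ) (r : ℕ) (h0 : 0 < δ) (h1 : δ ≤ 1) : ∃ d₀ : ℕ, ∀ d : ℕ, d₀ ≤ d →
    ∃ t : ℕ, 1 ≤ t ∧ (d : ℝ) ^ 2 ≤ (1 + δ) ^ t ∧
      21384 * (r : ℝ) ^ 3 * (9 + 2 * r) * t ^ 5 ≤ d ∧ 64 ≤ δ ^ 3 * d ∧
      2 * Real.log d ≤ t ∧ 1 ≤ d := by
  set L := Real.log (1 + δ) with hL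
  have hL0 : 0 < L := Real.log_pos (by linarith)
  have hL1 : L ≤ 1 := by
    have := Real.log_le_sub_one_of_pos (show (0 : ℝ) < 1 + δ by linarith)
    linarith
  set C := 2 / L + 1 with hC
  have hC0 : 0 < C := by positivity
  set K := 21384 * (r : ℝ) ^ 3 * (9 + 2 * r) with hK
  have hK0 : 0 ≤ K := by positivity
  have e1 : ∀ᶠ x : ℝ in Filter.atTop, Real.log x ^ 5 ≤ (1 / (K * C ^ 5 + 1)) * x := by
    have h := (Real.isLittleO_pow_log_id_atTop (n := 5)).def
      (show (0 : ℝ) < 1 / (K * C ^ 5 + 1) by positivity)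
    filter_upwards [h, Filter.eventually_ge_atTop (0 : ℝ)] with x hx hx0
    have h2 := le_trans (le_abs_self _) hx
    rwa [id, Real.norm_eq_abs, abs_of_nonneg hx0] at h2
  have e2 : ∀ᶠ x : ℝ in Filter.atTop, 1 ≤ Real.log x :=
    Real.tendsto_log_atTop.eventually_ge_atTop 1
  have e3 : ∀ᶠ x : ℝ in Filter.atTop, 64 / δ ^ 3 ≤ x := Filter.eventually_ge_atTop _
  have e4 : ∀ᶠ x : ℝ in Filter.atTop, 1 ≤ x := Filter.eventually_ge_atTop _
  have e5 := (tendsto_natCast_atTop_atTop (R := ℝ)).eventually (e1.and (e2.and (e3.and e4)))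
  obtain ⟨d₀, hd₀⟩ := Filter.eventually_atTop.mp e5
  refine ⟨d₀, fun d hd => ?_⟩
  obtain ⟨f1, f2, f3, f4⟩ := hd₀ d hd
  have hd0 : (0 : ℝ) < d := by linarith
  refine ⟨⌈2 * Real.log d / L⌉₊, ?_, ?_, ?_, ?_, ?_, ?_⟩
  · exact Nat.one_le_ceil_iff.mpr (by positivity)
  · have h2 : 2 * Real.log d / L ≤ (⌈2 * Real.log d / L⌉₊ : ℝ) := Nat.le_ceil _
    have h3 : 2 * Real.log d ≤ (⌈2 * Real.log d / L⌉₊ : ℝ) * L := by
      rwa [div_le_iff₀ hL0] at h2
    have h4 : Real.log ((d : ℝ) ^ 2) ≤ Real.log ((1 + δ) ^ ⌈2 * Real.log d / L⌉₊) := by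
      rw [Real.log_pow, Real.log_pow]
      push_cast
      exact h3
    exact (Real.log_le_log_iff (by positivity) (by positivity)).mp h4
  · have h2 : (⌈2 * Real.log d / L⌉₊ : ℝ) < 2 * Real.log d / L + 1 :=
      Nat.ceil_lt_add_one (by positivity)
    have h3 : (⌈2 * Real.log d / L⌉₊ : ℝ) ≤ C * Real.log d := by
      have : 2 * Real.log d / L + 1 ≤ C * Real.log d := by
        rw [hC, add_mul, one_mul, div_mul_eq_mul_div]
        linarith
      linarith
    have h4 : (⌈2 * Real.log d / L⌉₊ : ℝ) ^ 5 ≤ (C * Real.log d) ^ 5 :=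
      pow_le_pow_left₀ (by positivity) h3 5
    have h5 : K * C ^ 5 * Real.log d ^ 5 ≤ K * C ^ 5 * ((1 / (K * C ^ 5 + 1)) * d) :=
      mul_le_mul_of_nonneg_left f1 (by positivity)
    have h6 : K * C ^ 5 * ((1 / (K * C ^ 5 + 1)) * d) ≤ d := by
      have h7 : K * C ^ 5 * (1 / (K * C ^ 5 + 1)) ≤ 1 := by
        rw [mul_one_div, div_le_one (by positivity)]
        linarith
      calc K * C ^ 5 * ((1 / (K * C ^ 5 + 1)) * (d : ℝ)) =
            K * C ^ 5 * (1 / (K * C ^ 5 + 1)) * (d : ℝ) := by ring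
        _ ≤ 1 * (d : ℝ) := mul_le_mul_of_nonneg_right h7 hd0.le
        _ = (d : ℝ) := one_mul _
    calc K * (⌈2 * Real.log d / L⌉₊ : ℝ) ^ 5 ≤ K * (C * Real.log d) ^ 5 :=
          mul_le_mul_of_nonneg_left h4 hK0
      _ = K * C ^ 5 * Real.log d ^ 5 := by ring
      _ ≤ d := h5.trans h6
  · rw [div_le_iff₀ (by positivity)] at f3
    linarith
  · have h2 : 2 * Real.log d / L ≤ (⌈2 * Real.log d / L⌉₊ : ℝ) := Nat.le_ceil _
    have h3 : 2 * Real.log d ≤ 2 * Real.log d / L := by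
      rw [le_div_iff₀ hL0]
      nlinarith
    linarith
  · exact_mod_cast f4

/-- the union bound -/
theorem union_num (n d t r : ℕ) (hd : 1 ≤ d) (ht : 1 ≤ t) (hr : 1 ≤ r)
    (hn : n = (2 * t + 1) ^ (2 * t) * d ^ 3)
    (hK : 21384 * (r : ℝ) ^ 3 * (9 + 2 * r) * t ^ 5 ≤ d) (hlog : 2 * Real.log d ≤ t) :
    ((((r : ℝ) * n + 1) ^ r) ^ n) * Real.exp (-(n * d / (21384 * t ^ 3 * r ^ 2))) ≤ 1 / 8 := by
  have hd1 : (1 : ℝ) ≤ d := by exact_mod_cast hd
  have ht1 : (1 : ℝ) ≤ t := by exact_mod_cast ht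
  have hr1 : (1 : ℝ) ≤ r := by exact_mod_cast hr
  have hn1 : 1 ≤ n := by
    rw [hn]
    exact Nat.one_le_iff_ne_zero.mpr (by positivity)
  have hn1' : (1 : ℝ) ≤ n := by exact_mod_cast hn1
  have hnR : (n : ℝ) = (2 * t + 1) ^ (2 * t) * d ^ 3 := by
    rw [hn]
    push_cast
    ring
  have h1 : Real.log (r * n + 1) ≤ (2 * r + 6) * t ^ 2 := by
    have h2 : Real.log (r * n + 1) ≤ Real.log (2 * r * n) := by
      apply Real.log_le_log (by positivity)
      nlinarith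
    have h3 : Real.log (2 * r * n) = Real.log (2 * r) + (2 * t * Real.log (2 * t + 1) +
        3 * Real.log d) := by
      rw [Real.log_mul (x := 2 * (r : ℝ)) (by positivity) (by positivity), hnR,
        Real.log_mul (x := ((2 : ℝ) * t + 1) ^ (2 * t)) (by positivity) (by positivity),
        Real.log_pow, Real.log_pow]
      push_cast
      ring
    have h4 : Real.log (2 * r) ≤ 2 * r - 1 := Real.log_le_sub_one_of_pos (by positivity)
    have h5 : Real.log (2 * t + 1) ≤ 2 * t + 1 - 1 := Real.log_le_sub_one_of_pos (by positivity)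
    have h6 : 2 * t * Real.log (2 * t + 1) ≤ 2 * t * (2 * t) :=
      mul_le_mul_of_nonneg_left (by linarith) (by positivity)
    have h7 : (t : ℝ) ≤ t ^ 2 := by nlinarith
    have h8 : (1 : ℝ) ≤ t ^ 2 := by nlinarith
    have h9 : 2 * (r : ℝ) ≤ 2 * r * t ^ 2 := by nlinarith
    nlinarith
  have h2 : Real.log 8 ≤ 3 := by
    have h3 : Real.log 8 = 3 * Real.log 2 := by
      rw [show (8 : ℝ) = 2 ^ 3 by norm_num, Real.log_pow]
      norm_num
    have h4 := Real.log_two_lt_d9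
    rw [h3]
    linarith
  have h3 : (1 / 8 : ℝ) = Real.exp (-Real.log 8) := by
    rw [Real.exp_neg, Real.exp_log (by norm_num)]
    norm_num
  have h4 : (((r : ℝ) * n + 1) ^ r) ^ n = Real.exp (n * (r * Real.log (r * n + 1))) := by
    rw [Real.exp_nat_mul, Real.exp_nat_mul, Real.exp_log (by positivity)]
  rw [h3, h4, ← Real.exp_add]
  apply Real.exp_le_exp.mpr
  have h5 : (n : ℝ) * (r * (2 * r + 9) * t ^ 2) ≤ n * d / (21384 * t ^ 3 * r ^ 2) := by
    rw [le_div_iff₀ (by positivity)]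
    have : (n : ℝ) * (21384 * (r : ℝ) ^ 3 * (9 + 2 * r) * t ^ 5) ≤ n * d :=
      mul_le_mul_of_nonneg_left hK (by positivity)
    nlinarith
  have h6 : (n : ℝ) * (r * Real.log (r * n + 1)) ≤ n * (r * ((2 * r + 6) * t ^ 2)) := by
    apply mul_le_mul_of_nonneg_left _ (by positivity)
    exact mul_le_mul_of_nonneg_left h1 (by positivity)
  have h7 : (1 : ℝ) ≤ n * r * t ^ 2 := by
    have h8 : (1 : ℝ) ≤ t ^ 2 := by nlinarith
    have h9 : (1 : ℝ) ≤ n * r := by nlinarith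
    nlinarith
  nlinarith

/-- the bound for the independent sets -/
theorem ind_num (n d : ℕ) (δ : ℝ) (h0 : 0 < δ) (h1 : δ ≤ 1) (hd : 1 ≤ d) (hn : d ≤ n)
    (h64 : 64 ≤ δ ^ 3 * d) :
    2 ^ n * Real.exp (-((d : ℝ) / n * (δ * n) * (δ * n - 1) / 8)) ≤ 1 / 8 := by
  have hd1 : (1 : ℝ) ≤ d := by exact_mod_cast hd
  have hn1 : (d : ℝ) ≤ n := by exact_mod_cast hn
  have hn0 : (0 : ℝ) < n := by linarith
  have h3 : (1 / 8 : ℝ) = Real.exp (-Real.log 8) := by
    rw [Real.exp_neg, Real.exp_log (by norm_num)]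
    norm_num
  have h2 : Real.log 8 ≤ 3 := by
    have h3 : Real.log 8 = 3 * Real.log 2 := by
      rw [show (8 : ℝ) = 2 ^ 3 by norm_num, Real.log_pow]
      norm_num
    have h4 := Real.log_two_lt_d9
    rw [h3]
    linarith
  have h4 : (2 : ℝ) ^ n = Real.exp (n * Real.log 2) := by
    rw [Real.exp_nat_mul, Real.exp_log (by norm_num)]
  rw [h3, h4, ← Real.exp_add]
  apply Real.exp_le_exp.mpr
  have h5 : (d : ℝ) / n * (δ * n) * (δ * n - 1) / 8 = d * δ * (δ * n - 1) / 8 := by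
    field_simp
  rw [h5]
  have h6 : δ ^ 3 ≤ δ ^ 2 := by nlinarith [sq_nonneg δ, mul_pos h0 h0]
  have h7 : δ ^ 2 ≤ δ := by nlinarith
  have h8 : 64 ≤ δ ^ 2 * d := by nlinarith
  have h9 : 64 ≤ δ * d := by nlinarith
  have h10 : 2 ≤ δ * n := by nlinarith
  have h11 : δ * n / 2 ≤ δ * n - 1 := by linarith
  have h12 : d * δ * (δ * n / 2) ≤ d * δ * (δ * n - 1) :=
    mul_le_mul_of_nonneg_left h11 (by positivity)
  have h13 : 64 * (n : ℝ) ≤ δ ^ 2 * d * n := mul_le_mul_of_nonneg_right h8 hn0.le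
  have h14 : Real.log 2 ≤ 1 := by linarith [Real.log_two_lt_d9]
  have h15 : (n : ℝ) * Real.log 2 ≤ n * 1 := mul_le_mul_of_nonneg_left h14 hn0.le
  nlinarith

theorem num4 (B t r d : ℝ) (hd : 1 ≤ d) (ht : 1 ≤ t) (hB : 8 * t ≤ B)
    (hK : 36 * r * t ≤ d) :
    4 * t * (B * d ^ 3 + 4 * t * (r * (9 * (B * d)))) ≤ B * d ^ 3 * (B * d) := by
  have hB1 : 1 ≤ B := by linarith
  have h10 : 36 * r * t ≤ d ^ 2 := by nlinarith
  have h11 : 4 * t * (d ^ 2 + 36 * r * t) ≤ 8 * t * d ^ 2 := by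
    have : 4 * t * (36 * r * t) ≤ 4 * t * d ^ 2 := mul_le_mul_of_nonneg_left h10 (by linarith)
    linarith
  have h12 : 8 * t * d ^ 2 ≤ B * d ^ 2 := mul_le_mul_of_nonneg_right hB (by positivity)
  have h13 : B * d ^ 2 ≤ B * d ^ 3 := by
    apply mul_le_mul_of_nonneg_left _ (by linarith)
    exact pow_le_pow_right₀ hd (by norm_num)
  have h14 : B * d * (4 * t * (d ^ 2 + 36 * r * t)) ≤ B * d * (B * d ^ 3) :=
    mul_le_mul_of_nonneg_left (h11.trans (h12.trans h13)) (by positivity)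
  have h16 : 4 * t * (B * d ^ 3 + 4 * t * (r * (9 * (B * d)))) =
      B * d * (4 * t * (d ^ 2 + 36 * r * t)) := by ring
  rw [h16]
  refine h14.trans (le_of_eq ?_)
  ring

theorem I1_of {P : Prop} (h : P) : I1 P = 1 := by
  unfold I1
  rw [if_pos h]

theorem I1_nonneg (P : Prop) : 0 ≤ I1 P := by
  unfold I1
  split_ifs
  · exact zero_le_one
  · exact le_rfl

end ENG2_

open ENG2_ in
theorem p_ENG2 : T_ONE2 → T_DEG → T_IND → T_ENG2 := by
  classical
  intro hONE hDEG hIND δ r hδ0 hδ1 hr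
  obtain ⟨d₀, hd₀⟩ := params δ r hδ0 hδ1
  refine ⟨d₀, fun d hd => ?_⟩
  obtain ⟨t, ht1, htd, hK, h64, hlog, hd1⟩ := hd₀ d hd
  set B : ℕ := (2 * t + 1) ^ (2 * t) with hB
  have hB9 : 8 * t ≤ B := by
    rw [hB]
    calc 8 * t ≤ (2 * t + 1) ^ 2 := by nlinarith [sq_nonneg ((2 : ℤ) * t - 1)]
      _ ≤ (2 * t + 1) ^ (2 * t) := Nat.pow_le_pow_right (by omega) (by omega)
  have hB1 : 1 ≤ B := by omega
  set n : ℕ := B * d ^ 3 with hn
  have hd0R : (0 : ℝ) < d := by exact_mod_cast hd1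
  have hd1R : (1 : ℝ) ≤ d := by exact_mod_cast hd1
  have ht1R : (1 : ℝ) ≤ t := by exact_mod_cast ht1
  have hr1R : (1 : ℝ) ≤ r := by exact_mod_cast hr
  have hB1R : (1 : ℝ) ≤ B := by exact_mod_cast hB1
  have hB8R : 8 * (t : ℝ) ≤ B := by exact_mod_cast hB9
  have hnR : (n : ℝ) = B * d ^ 3 := by rw [hn]; push_cast; ring
  have hd3n : d ^ 3 ≤ n := Nat.le_mul_of_pos_left _ hB1
  have hdn : d ≤ n := (Nat.le_self_pow (by norm_num) d).trans hd3n
  have hn1 : 1 ≤ n := hd1.trans hdn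
  have hn0R : (0 : ℝ) < n := by exact_mod_cast hn1
  have hdnR : (d : ℝ) ≤ n := by exact_mod_cast hdn
  set p : ℝ := (d : ℝ) / n with hp
  have hp0 : 0 < p := by positivity
  have hp1 : p ≤ 1 := by
    rw [hp, div_le_one hn0R]
    exact hdnR
  have hnp : (n : ℝ) * p = d := by
    rw [hp]
    field_simp
  set s : ℕ := r * (9 * (B * d)) with hs
  have hps : p * s = 9 * r / d := by
    rw [hp, hs, hnR]
    push_cast
    field_simp
  -- consequences of hK
  have hK1 : 36 * (r : ℝ) * t ≤ d := by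
    have h1 : (t : ℝ) ≤ t ^ 5 := le_self_pow₀ ht1R (by norm_num)
    have h2 : (r : ℝ) ≤ (r : ℝ) ^ 3 := le_self_pow₀ hr1R (by norm_num)
    calc 36 * (r : ℝ) * t ≤ 21384 * (r : ℝ) ^ 3 * (9 + 2 * r) * t ^ 5 := by
          have h3 : (36 : ℝ) ≤ 21384 * (9 + 2 * r) := by nlinarith
          calc 36 * (r : ℝ) * t ≤ 21384 * (9 + 2 * r) * (r : ℝ) ^ 3 * t ^ 5 := by gcongr
            _ = 21384 * (r : ℝ) ^ 3 * (9 + 2 * r) * t ^ 5 := by ring
      _ ≤ d := hK
  have hK2 : 9 * (r : ℝ) ≤ d := by nlinarith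
  -- suppose that no graph has the properties
  by_contra hcon
  push Not at hcon
  set Fam : Finset (Fin n → Finset (Fin (r * n))) := univ.filter fun S =>
    (∀ v, (S v).card ≤ r) ∧ (∀ a, (d : ℝ) ^ 2 * (univ.filter fun v => a ∈ S v).card ≤ 9 * n) ∧
      (1 + δ) * n ^ 2 ≤ (d : ℝ) ^ 2 * np (Meet S) with hFam
  have key : ∀ A : Finset (Sym2 (Fin n)), 1 ≤ I1 (δ * n < badv A δ (n * p)) + (I1 (HasInd A δ) +
      ∑ S ∈ Fam, I1 (∀ z ∈ AdmS (Meet S) t, ¬ edg z ⊆ A)) := by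
    intro A
    have hpos3 : 0 ≤ ∑ S ∈ Fam, I1 (∀ z ∈ AdmS (Meet S) t, ¬ edg z ⊆ A) :=
      sum_nonneg fun S _ => I1_nonneg _
    by_cases hb : δ * n < badv A δ (n * p)
    · rw [I1_of hb]
      linarith [I1_nonneg (HasInd A δ)]
    by_cases hi : HasInd A δ
    · rw [I1_of hi]
      linarith [I1_nonneg (δ * n < badv A δ (n * p))]
    rw [hnp, not_lt] at hb
    obtain ⟨S, hS1, hS2, hS3, hS4⟩ := hcon n A hd3n hb hi
    have hmem : S ∈ Fam := by
      rw [hFam, mem_filter]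
      exact ⟨mem_univ _, hS1, hS2, hS3⟩
    have h1 : I1 (∀ z ∈ AdmS (Meet S) t, ¬ edg z ⊆ A) = 1 := by
      apply I1_of
      intro z hz
      unfold AdmS at hz
      rw [mem_filter] at hz
      exact hS4 t z ht1 hz.2
    have h2 : I1 (∀ z ∈ AdmS (Meet S) t, ¬ edg z ⊆ A) ≤
        ∑ S ∈ Fam, I1 (∀ z ∈ AdmS (Meet S) t, ¬ edg z ⊆ A) :=
      single_le_sum (f := fun S => I1 (∀ z ∈ AdmS (Meet S) t, ¬ edg z ⊆ A))
        (fun S _ => I1_nonneg _) hmem
    linarith [I1_nonneg (HasInd A δ), I1_nonneg (δ * n < badv A δ (n * p))]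
  have hE : (1 : ℝ) ≤ EE n p (fun A => I1 (δ * n < badv A δ (n * p))) +
      (EE n p (fun A => I1 (HasInd A δ)) +
        ∑ S ∈ Fam, EE n p (fun A => I1 (∀ z ∈ AdmS (Meet S) t, ¬ edg z ⊆ A))) := by
    have h1 := CPR.ex_mono (π := fun _ : Sym2 (Fin n) => p) (fun _ => hp0.le) (fun _ => hp1) key
    rw [CPR.ex_const, CPR.ex_add, CPR.ex_add, CPR.ex_sum] at h1
    exact h1
  have hD := hDEG n p δ hn1 hp0 hp1 hδ0
  have hI := hIND n p δ hn1 hp0 hp1 hδ0
  have hD8 : 1 / (δ ^ 3 * (n * p)) ≤ 1 / 8 := by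
    rw [hnp]
    apply one_div_le_one_div_of_le (by norm_num)
    linarith
  have hI8 := ind_num n d δ hδ0 hδ1 hd1 hdn h64
  have hS8 : ∑ S ∈ Fam, EE n p (fun A => I1 (∀ z ∈ AdmS (Meet S) t, ¬ edg z ⊆ A)) ≤ 1 / 8 := by
    have h1 : ∀ S ∈ Fam, EE n p (fun A => I1 (∀ z ∈ AdmS (Meet S) t, ¬ edg z ⊆ A)) ≤
        Real.exp (-(n * d / (21384 * t ^ 3 * r ^ 2))) := by
      intro S hS
      rw [hFam, mem_filter] at hS
      obtain ⟨-, hS1, hS2, hS3⟩ := hS
      have hρ : 1 + δ ≤ p ^ 2 * np (Meet S) := by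
        rw [hp, div_pow, div_mul_eq_mul_div, le_div_iff₀ (by positivity)]
        exact hS3
      have hdR : ∀ x, dR (Meet S) x ≤ s := by
        rw [hs]
        refine dR_meet S r (9 * (B * d)) hS1 fun a => ?_
        have h2 := hS2 a
        rw [hnR] at h2
        have h3 : (d : ℝ) ^ 2 * ((univ.filter fun v => a ∈ S v).card : ℝ) ≤
            d ^ 2 * (9 * (B * d)) := by
          calc (d : ℝ) ^ 2 * ((univ.filter fun v => a ∈ S v).card : ℝ) ≤ 9 * (B * d ^ 3) := h2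
            _ = d ^ 2 * (9 * (B * d)) := by ring
        have h4 := le_of_mul_le_mul_left h3 (by positivity)
        exact_mod_cast h4
      have hone := hONE n t s (Meet S) p ht1 hp0 hp1 (meet_symm S) hdR
        (by rw [hps, div_le_one hd0R]; exact hK2) (by linarith)
        (by
          rw [hps]
          have h5 : (d : ℝ) ^ 2 ≤ (p ^ 2 * np (Meet S)) ^ t :=
            htd.trans (pow_le_pow_left₀ (by linarith) hρ t)
          calc (1 : ℝ) ≤ (9 * r) ^ 2 := one_le_pow₀ (by linarith)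
            _ = d ^ 2 * (9 * r / d) ^ 2 := by field_simp
            _ ≤ (p ^ 2 * np (Meet S)) ^ t * (9 * r / d) ^ 2 :=
                mul_le_mul_of_nonneg_right h5 (by positivity))
        (by
          rw [hps]
          have h6 : ((2 * t + 1) ^ (2 * t) : ℝ) = B := by rw [hB]; push_cast; ring
          rw [h6, hp, hnR]
          have h7 : (B : ℝ) * (d / (B * d ^ 3)) = 1 / d ^ 2 := by
            field_simp
          rw [h7, div_pow]
          apply div_le_div_of_nonneg_right _ (by positivity)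
          exact one_le_pow₀ (by linarith))
        (by
          have h8 : (n : ℝ) * (B * d) ≤ np (Meet S) := by
            have h9 : (d : ℝ) ^ 2 * (n * (B * d)) ≤ d ^ 2 * np (Meet S) := by
              calc (d : ℝ) ^ 2 * ((n : ℝ) * ((B : ℝ) * d)) = (n : ℝ) * ((B : ℝ) * (d : ℝ) ^ 3) := by
                    ring
                _ = (n : ℝ) ^ 2 := by rw [← hnR]; ring
                _ ≤ (1 + δ) * (n : ℝ) ^ 2 := by nlinarith [sq_nonneg (n : ℝ)]
                _ ≤ _ := hS3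
            exact le_of_mul_le_mul_left h9 (by positivity)
          refine le_trans ?_ h8
          rw [hs]
          push_cast
          rw [hnR]
          exact num4 B t r d hd1R ht1R hB8R hK1)
      refine hone.trans (le_of_eq ?_)
      congr 2
      rw [hps, hp]
      field_simp
      ring
    calc ∑ S ∈ Fam, EE n p (fun A => I1 (∀ z ∈ AdmS (Meet S) t, ¬ edg z ⊆ A))
        ≤ ∑ S ∈ Fam, Real.exp (-(n * d / (21384 * t ^ 3 * r ^ 2))) := sum_le_sum h1
      _ = Fam.card * Real.exp (-(n * d / (21384 * t ^ 3 * r ^ 2))) := by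
          rw [sum_const, nsmul_eq_mul]
      _ ≤ ((((r : ℝ) * n + 1) ^ r) ^ n) * Real.exp (-(n * d / (21384 * t ^ 3 * r ^ 2))) := by
          apply mul_le_mul_of_nonneg_right _ (Real.exp_pos _).le
          have h2 := card_fam (r := r) Fam (fun S hS v => by
            rw [hFam, mem_filter] at hS
            exact hS.2.1 v)
          calc (Fam.card : ℝ) ≤ ((((r * n + 1) ^ r) ^ n : ℕ) : ℝ) := by exact_mod_cast h2
            _ = _ := by push_cast; ring
      _ ≤ 1 / 8 := union_num n d t r hd1 ht1 hr hn hK hlog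
  have hI' : EE n p (fun A => I1 (HasInd A δ)) ≤ 1 / 8 := hI.trans hI8
  have hD' := hD.trans hD8
  linarith

end Pool.Agent.THL
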