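import Pool.Agent.THL.Defs

set_option autoImplicit false

/-!
# Lower bounds for nonrepetitive colourings: assembly
-/

open Finset

namespace Pool.Agent.THL

namespace FIN_

lemma rep (hL : T_LIFT) {n t : ℕ} {V' α : Type} (H : SimpleGraph V') (c : V' → α)
    (hc : Nonrep H c) (ht : 1 ≤ t) (z : Fin t → Fin n × Fin n) (f : Fin n → V')
    (hf : ∀ b b' : Fin (2 * t), f (vx z b) = f (vx z b') → b = b')
    (hadj : ∀ b : Fin (2 * t - 1),
      H.Adj (f (vx z ⟨b.1, by omega⟩)) (f (vx z ⟨b.1 + 1, by omega⟩)))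
    (hcol : ∀ i, c (f (z i).1) = c (f (z i).2)) : False := by
  have h0 : 0 < 2 * t := by omega
  obtain ⟨u, hu⟩ : ∃ u : ℕ → V', ∀ i (h : i < 2 * t), u i = f (vx z ⟨i, h⟩) :=
    ⟨fun i => if h : i < 2 * t then f (vx z ⟨i, h⟩) else f (vx z ⟨0, h0⟩),
      fun i h => dif_pos h⟩
  refine hL V' α H c hc t u ht (fun i j hi hj hij => ?_) (fun i hi => ?_) (fun i hi => ?_)
  · rw [hu i hi, hu j hj] at hij
    have := hf _ _ hij
    simpa using this
  · rw [hu i (by omega), hu (i + 1) hi]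
    exact hadj ⟨i, by omega⟩
  · rw [hu i (by omega), hu (i + t) (by omega)]
    have e1 : vx z ⟨i, by omega⟩ = (z ⟨i, hi⟩).1 := by simp [vx, hi]
    have e2 : vx z ⟨i + t, by omega⟩ = (z ⟨i, hi⟩).2 := by simp [vx]
    rw [e1, e2]
    exact hcol _

open Classical in
/-- the vertices of small degree -/
noncomputable def good {n : ℕ} (A : Finset (Sym2 (Fin n))) (e d : ℝ) : Finset (Fin n) :=
  univ.filter fun v : Fin n => ¬ ((1 + e) * d < dg A v)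

/-- the graph -/
def GG {n : ℕ} (A : Finset (Sym2 (Fin n))) (e d : ℝ) : SimpleGraph (Fin n) where
  Adj u v := u ≠ v ∧ s(u, v) ∈ A ∧ u ∈ good A e d ∧ v ∈ good A e d
  symm := ⟨fun u v h => ⟨h.1.symm, by rw [Sym2.eq_swap]; exact h.2.1, h.2.2.2, h.2.2.1⟩⟩
  loopless := ⟨fun u h => h.1 rfl⟩

lemma GG_adj {n : ℕ} (A : Finset (Sym2 (Fin n))) (e d : ℝ) (u v : Fin n) :
    (GG A e d).Adj u v ↔ u ≠ v ∧ s(u, v) ∈ A ∧ u ∈ good A e d ∧ v ∈ good A e d := Iff.rfl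

lemma good_card {n : ℕ} (A : Finset (Sym2 (Fin n))) (e d : ℝ) :
    (badv A e d : ℝ) + (good A e d).card = n := by
  classical
  have h : badv A e d + (good A e d).card = n := by
    unfold badv good
    have := Finset.card_filter_add_card_filter_not (s := (univ : Finset (Fin n)))
      (fun v : Fin n => (1 + e) * d < dg A v)
    rw [Finset.card_univ, Fintype.card_fin] at this
    convert this
  exact_mod_cast h

lemma deg {n : ℕ} (A : Finset (Sym2 (Fin n))) (e d : ℝ) (D : ℕ) (h : (1 + e) * d ≤ D)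
    (v : Fin n) : ((GG A e d).neighborSet v).ncard ≤ D := by
  classical
  by_cases hv : v ∈ good A e d
  · have h1 : ((GG A e d).neighborSet v).ncard ≤ dg A v := by
      unfold dg
      rw [← Set.ncard_coe_finset]
      refine Set.ncard_le_ncard_of_injOn (fun u => s(v, u)) ?_ ?_ (Set.toFinite _)
      · intro u hu
        rw [SimpleGraph.mem_neighborSet, GG_adj] at hu
        have : s(v, u) ∈ A.filter fun e => v ∈ e :=
          mem_filter.mpr ⟨hu.2.1, Sym2.mem_mk_left v u⟩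
        exact_mod_cast this
      · intro u _ u' _ huu'
        exact Sym2.congr_right.mp huu'
    have h2 : ¬ ((1 + e) * d < dg A v) := (mem_filter.mp hv).2
    have h3 : (dg A v : ℝ) ≤ D := (not_lt.mp h2).trans h
    exact h1.trans (by exact_mod_cast h3)
  · have h1 : (GG A e d).neighborSet v = ∅ := by
      ext u
      simp only [SimpleGraph.mem_neighborSet, GG_adj, Set.mem_empty_iff_false, iff_false]
      intro h
      exact hv h.2.2.1
    rw [h1, Set.ncard_empty]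
    exact Nat.zero_le _

lemma num (C N n d e κ W : ℝ) (hC : 0 < C) (h1 : (1 + e) * C ≤ κ ^ 2 * d ^ 2)
    (hn : 0 ≤ n) (hκ : 0 ≤ κ) (hW : κ * n ≤ W) (h2 : W ^ 2 ≤ C * N) :
    (1 + e) * n ^ 2 ≤ d ^ 2 * N := by
  have h3 : (κ * n) ^ 2 ≤ W ^ 2 := pow_le_pow_left₀ (mul_nonneg hκ hn) hW 2
  have h4 : C * ((1 + e) * n ^ 2) ≤ C * (d ^ 2 * N) := by
    calc C * ((1 + e) * n ^ 2) = (1 + e) * C * n ^ 2 := by ring
      _ ≤ κ ^ 2 * d ^ 2 * n ^ 2 := mul_le_mul_of_nonneg_right h1 (sq_nonneg _)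
      _ = d ^ 2 * (κ * n) ^ 2 := by ring
      _ ≤ d ^ 2 * (C * N) := mul_le_mul_of_nonneg_left (h3.trans h2) (sq_nonneg _)
      _ = C * (d ^ 2 * N) := by ring
  exact le_of_mul_le_mul_left h4 hC

lemma poly1 (e : ℝ) (he : 0 < e) : (1 + e) ^ 5 * (1 - 10 * e) ≤ (1 - e) ^ 2 := by
  have : (1 - e) ^ 2 - (1 + e) ^ 5 * (1 - 10 * e) =
      3 * e + 41 * e ^ 2 + 90 * e ^ 3 + 95 * e ^ 4 + 49 * e ^ 5 + 10 * e ^ 6 := by ring
  have h2 : 0 ≤ 3 * e + 41 * e ^ 2 + 90 * e ^ 3 + 95 * e ^ 4 + 49 * e ^ 5 + 10 * e ^ 6 := by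
    positivity
  linarith

lemma poly2 (e : ℝ) (he : 0 < e) : (1 + e) ^ 5 * (1 - 20 * e) ≤ (1 - 2 * e) ^ 2 := by
  have : (1 - 2 * e) ^ 2 - (1 + e) ^ 5 * (1 - 20 * e) =
      11 * e + 94 * e ^ 2 + 190 * e ^ 3 + 195 * e ^ 4 + 99 * e ^ 5 + 20 * e ^ 6 := by ring
  have h2 : 0 ≤ 11 * e + 94 * e ^ 2 + 190 * e ^ 3 + 195 * e ^ 4 + 99 * e ^ 5 +
      20 * e ^ 6 := by positivity
  linarith

lemma cs (C κ n d : ℝ) (hd : 0 < d) (hn : 0 ≤ n) (h1 : κ * d ^ 2 ≤ C) (h0 : 0 ≤ C)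
    (h2 : C ≤ n) : (9 * κ - 1) * n ≤ C * (⌊9 * n / d ^ 2⌋₊ : ℝ) := by
  have h3 : 9 * n / d ^ 2 - 1 ≤ (⌊9 * n / d ^ 2⌋₊ : ℝ) := by
    have := Nat.lt_floor_add_one (9 * n / d ^ 2)
    linarith
  have h4 : C * (9 * n / d ^ 2 - 1) ≤ C * (⌊9 * n / d ^ 2⌋₊ : ℝ) :=
    mul_le_mul_of_nonneg_left h3 h0
  have h5 : κ * (9 * n) ≤ C * (9 * n / d ^ 2) := by
    calc κ * (9 * n) = κ * d ^ 2 * (9 * n / d ^ 2) := by field_simp
      _ ≤ C * (9 * n / d ^ 2) := mul_le_mul_of_nonneg_right h1 (by positivity)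
  have h6 : C * (9 * n / d ^ 2 - 1) = C * (9 * n / d ^ 2) - C := by ring
  linarith

/-- the facts about the random graph -/
structure Ctx (e : ℝ) (d n D : ℕ) (A : Finset (Sym2 (Fin n))) : Prop where
  e0 : 0 < e
  e1 : e ≤ 1 / 40
  hd : 1 ≤ e * d
  hn : d ^ 3 ≤ n
  hbad : (badv A e d : ℝ) ≤ e * n
  hind : ¬ HasInd A e
  heng : ∀ g : Fin n → Option (Fin n),
        (∀ a, (d : ℝ) ^ 2 * cl g a ≤ 9 * n) → (1 + e) * n ^ 2 ≤ (d : ℝ) ^ 2 * np (Same g) →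
        ∃ (t : ℕ) (z : Fin t → Fin n × Fin n), 1 ≤ t ∧ Adm (Same g) z ∧ edg z ⊆ A
  hD1 : (1 + e) * d ≤ D
  hD2 : (D : ℝ) ≤ (1 + e) ^ 2 * d

lemma Ctx.facts {e : ℝ} {d n D : ℕ} {A : Finset (Sym2 (Fin n))} (X : Ctx e d n D A) :
    (40 : ℝ) ≤ d ∧ (d : ℝ) ^ 2 ≤ (D : ℝ) ^ 2 ∧ (D : ℝ) ^ 2 ≤ (1 + e) ^ 4 * (d : ℝ) ^ 2 ∧
      (D : ℝ) ^ 2 ≤ n := by
  have h0 := X.e0
  have h1 := X.e1
  have h2 := X.hd
  have hd0 : (0 : ℝ) ≤ d := Nat.cast_nonneg d
  have h40 : (40 : ℝ) ≤ d := by nlinarith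
  have hdD : (d : ℝ) ≤ D := by
    refine le_trans ?_ X.hD1
    nlinarith
  have a2 : (D : ℝ) ^ 2 ≤ (1 + e) ^ 4 * (d : ℝ) ^ 2 := by
    calc (D : ℝ) ^ 2 ≤ ((1 + e) ^ 2 * d) ^ 2 := pow_le_pow_left₀ (Nat.cast_nonneg D) X.hD2 2
      _ = (1 + e) ^ 4 * (d : ℝ) ^ 2 := by ring
  refine ⟨h40, pow_le_pow_left₀ hd0 hdD 2, a2, a2.trans ?_⟩
  have h3 : (1 + e) ^ 4 ≤ 2 := by
    calc (1 + e) ^ 4 ≤ (1 + 1 / 40) ^ 4 := pow_le_pow_left₀ (by linarith) (by linarith) 4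
      _ ≤ 2 := by norm_num
  have h4 : (d : ℝ) ^ 3 ≤ n := by exact_mod_cast X.hn
  calc (1 + e) ^ 4 * (d : ℝ) ^ 2 ≤ d * (d : ℝ) ^ 2 :=
        mul_le_mul_of_nonneg_right (by linarith) (sq_nonneg _)
    _ = (d : ℝ) ^ 3 := by ring
    _ ≤ n := h4

lemma clb {n : ℕ} (g : Fin n → Option (Fin n)) (d : ℝ) (hd : 0 < d)
    (h : ∀ a, cl g a ≤ ⌊9 * (n : ℝ) / d ^ 2⌋₊) (a : Fin n) : d ^ 2 * cl g a ≤ 9 * n := by
  have h1 : (cl g a : ℝ) ≤ 9 * (n : ℝ) / d ^ 2 := by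
    have h2 : ((cl g a : ℕ) : ℝ) ≤ (⌊9 * (n : ℝ) / d ^ 2⌋₊ : ℝ) := by exact_mod_cast h a
    exact h2.trans (Nat.floor_le (by positivity))
  rw [le_div_iff₀ (by positivity)] at h1
  linarith

lemma vx_mem {n t : ℕ} (z : Fin t → Fin n × Fin n) (W : Finset (Fin n))
    (g : Fin n → Option (Fin n)) (hg : ∀ v, g v ≠ none → v ∈ W)
    (hz : ∀ i, Same g (z i).1 (z i).2) (b : Fin (2 * t)) : vx z b ∈ W := by
  unfold vx
  split_ifs with h
  · exact hg _ (hz ⟨b.1, h⟩).2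
  · have := hz ⟨b.1 - t, by omega⟩
    exact hg _ (this.1 ▸ this.2)

lemma adj_of {n t : ℕ} {e : ℝ} {d : ℝ} {A : Finset (Sym2 (Fin n))}
    (z : Fin t → Fin n × Fin n) (hinj : Function.Injective (vx z)) (hA : edg z ⊆ A)
    (hW : ∀ b, vx z b ∈ good A e d) (b : Fin (2 * t - 1)) :
    (GG A e d).Adj (vx z ⟨b.1, by omega⟩) (vx z ⟨b.1 + 1, by omega⟩) := by
  rw [GG_adj]
  refine ⟨fun h => ?_, hA ?_, hW _, hW _⟩
  · have := hinj h
    simp at this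
  · exact mem_image_of_mem _ (mem_univ b)

lemma partA (hS : T_SEL1) (hL : T_LIFT) {e : ℝ} {d n D : ℕ} {A : Finset (Sym2 (Fin n))}
    (X : Ctx e d n D A) (M : ℕ) (c : Fin n → Fin M) (hc : Nonrep (GG A e d) c) :
    (1 - 10 * e) * (D : ℝ) ^ 2 ≤ M := by
  by_contra hM
  rw [not_le] at hM
  obtain ⟨h40, hdD, hDd, hDn⟩ := X.facts
  have h0 := X.e0
  have h1 := X.e1
  have hd0 : (0 : ℝ) < d := by linarith
  have hn0 : (0 : ℝ) ≤ n := Nat.cast_nonneg n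
  have hd2 : (0 : ℝ) < (d : ℝ) ^ 2 := by positivity
  have hC0 : 0 < (1 - 10 * e) * (D : ℝ) ^ 2 := by
    have : (0 : ℝ) < (D : ℝ) ^ 2 := by linarith
    exact mul_pos (by linarith) this
  have hC1 : 3 / 4 * (d : ℝ) ^ 2 ≤ (1 - 10 * e) * (D : ℝ) ^ 2 :=
    mul_le_mul (by linarith) hdD hd2.le (by linarith)
  have hC2 : (1 - 10 * e) * (D : ℝ) ^ 2 ≤ n := by
    refine le_trans ?_ hDn
    have : 0 ≤ (D : ℝ) ^ 2 := sq_nonneg _
    nlinarith
  have hcs := cs ((1 - 10 * e) * (D : ℝ) ^ 2) (3 / 4) n d hd0 hn0 hC1 hC0.le hC2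
  have hgc := good_card A e d
  have hb0 : (0 : ℝ) ≤ badv A e d := Nat.cast_nonneg _
  have hbad := X.hbad
  obtain ⟨g, hg1, hg2, hg3, hg4⟩ := hS n M ⌊9 * (n : ℝ) / (d : ℝ) ^ 2⌋₊ (good A e d) c
    ((1 - 10 * e) * (D : ℝ) ^ 2) hC0 hM.le (by linarith)
  obtain ⟨t, z, ht, hz, hzA⟩ := X.heng g (clb g d hd0 hg3)
    (num ((1 - 10 * e) * (D : ℝ) ^ 2) (np (Same g)) n d e (1 - e) (good A e d).card hC0
      (by
        have h3 := poly1 e h0
        calc (1 + e) * ((1 - 10 * e) * (D : ℝ) ^ 2)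
            ≤ (1 + e) * ((1 - 10 * e) * ((1 + e) ^ 4 * (d : ℝ) ^ 2)) :=
              mul_le_mul_of_nonneg_left (mul_le_mul_of_nonneg_left hDd (by linarith))
                (by linarith)
          _ = (1 + e) ^ 5 * (1 - 10 * e) * (d : ℝ) ^ 2 := by ring
          _ ≤ (1 - e) ^ 2 * (d : ℝ) ^ 2 := mul_le_mul_of_nonneg_right h3 hd2.le)
      hn0 (by linarith) (by linarith) hg4)
  have hW : ∀ b, vx z b ∈ good A e d := vx_mem z _ g hg1 hz.1
  exact rep hL (GG A e d) c hc ht z id (fun b b' h => hz.2 h)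
    (fun b => adj_of z hz.2 hzA hW b) (fun i => hg2 _ _ (hz.1 i))

lemma partB (hS : T_SELK) (hL : T_LIFT) {e : ℝ} {d n D : ℕ} {A : Finset (Sym2 (Fin n))}
    (X : Ctx e d n D A) (k M : ℕ) (c : Fin n × Fin k → Fin M)
    (H : SimpleGraph (Fin n × Fin k)) (hH : ∀ x y, (GG A e d).Adj x.1 y.1 → H.Adj x y)
    (hc : Nonrep H c) : (1 / 2 - 10 * e) * k * (D : ℝ) ^ 2 ≤ M := by
  classical
  by_contra hM
  rw [not_le] at hM
  have hk : 1 ≤ k := by
    by_contra hk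
    have : k = 0 := by omega
    subst this
    have h3 : (0 : ℝ) ≤ M := Nat.cast_nonneg M
    simp at hM
    linarith
  obtain ⟨h40, hdD, hDd, hDn⟩ := X.facts
  have h0 := X.e0
  have h1 := X.e1
  have hd0 : (0 : ℝ) < d := by linarith
  have hn0 : (0 : ℝ) ≤ n := Nat.cast_nonneg n
  have hd2 : (0 : ℝ) < (d : ℝ) ^ 2 := by positivity
  have hC0 : 0 < (1 / 2 - 10 * e) * (D : ℝ) ^ 2 := by
    have : (0 : ℝ) < (D : ℝ) ^ 2 := by linarith
    exact mul_pos (by linarith) this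
  have hC1 : 1 / 4 * (d : ℝ) ^ 2 ≤ (1 / 2 - 10 * e) * (D : ℝ) ^ 2 :=
    mul_le_mul (by linarith) hdD hd2.le (by linarith)
  have hC2 : (1 / 2 - 10 * e) * (D : ℝ) ^ 2 ≤ n := by
    refine le_trans ?_ hDn
    have : 0 ≤ (D : ℝ) ^ 2 := sq_nonneg _
    nlinarith
  have hcs := cs ((1 / 2 - 10 * e) * (D : ℝ) ^ 2) (1 / 4) n d hd0 hn0 hC1 hC0.le hC2
  have hgc := good_card A e d
  have hb0 : (0 : ℝ) ≤ badv A e d := Nat.cast_nonneg _
  have hbad := X.hbad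
  -- the vertices with a repeated colour
  obtain ⟨NI, hNI⟩ : ∃ NI : Finset (Fin n), NI = (good A e d).filter
    (fun v => ¬ Function.Injective (fun i : Fin k => c (v, i))) := ⟨_, rfl⟩
  have hNIc : (NI.card : ℝ) < e * n := by
    by_contra h3
    rw [not_lt] at h3
    refine X.hind ⟨NI, h3, fun u hu v hv huv hA => ?_⟩
    rw [hNI, mem_filter] at hu hv
    obtain ⟨hu1, hu2⟩ := hu
    obtain ⟨hv1, hv2⟩ := hv
    unfold Function.Injective at hu2 hv2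
    push Not at hu2 hv2
    obtain ⟨i, i', hi, hii⟩ := hu2
    obtain ⟨j, j', hj, hjj⟩ := hv2
    have hadj : (GG A e d).Adj u v := ⟨huv, hA, hu1, hv1⟩
    have hadj' : (GG A e d).Adj v u := hadj.symm
    obtain ⟨w, hw0, hw1, hw2, hw3⟩ : ∃ w : ℕ → Fin n × Fin k, w 0 = (u, i) ∧ w 1 = (v, j) ∧
        w 2 = (u, i') ∧ w 3 = (v, j') :=
      ⟨fun m => if m = 0 then (u, i) else if m = 1 then (v, j) else if m = 2 then (u, i')
        else (v, j'), by simp, by simp, by simp, by simp⟩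
    have hvu : v ≠ u := huv.symm
    refine hL (Fin n × Fin k) (Fin M) H c hc 2 w (by norm_num) (fun a b ha hb hab => ?_)
      (fun a ha => ?_) (fun a ha => ?_)
    · interval_cases a <;> interval_cases b <;>
        simp_all
    · have ha' : a < 3 := by omega
      interval_cases a
      · rw [hw0, hw1]; exact hH _ _ hadj
      · rw [hw1, hw2]; exact hH _ _ hadj'
      · rw [hw2, hw3]; exact hH _ _ hadj
    · interval_cases a
      · show c (w 0) = c (w 2)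
        rw [hw0, hw2]; exact hi
      · show c (w 1) = c (w 3)
        rw [hw1, hw3]; exact hj
  obtain ⟨W, hW⟩ : ∃ W : Finset (Fin n), W = (good A e d).filter
    (fun v => Function.Injective (fun i : Fin k => c (v, i))) := ⟨_, rfl⟩
  have hWc : ((good A e d).card : ℝ) = W.card + NI.card := by
    rw [hW, hNI]
    have := Finset.card_filter_add_card_filter_not (s := good A e d)
      (fun v => Function.Injective (fun i : Fin k => c (v, i)))
    exact_mod_cast this.symm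
  have hNI0 : (0 : ℝ) ≤ NI.card := Nat.cast_nonneg _
  obtain ⟨S, hSd⟩ : ∃ S : Fin n → Finset (Fin M), S = fun v => univ.image
    (fun i : Fin k => c (v, i)) := ⟨_, rfl⟩
  have hScard : ∀ v ∈ W, (S v).card = k := by
    intro v hv
    rw [hW, mem_filter] at hv
    rw [hSd]
    show (univ.image (fun i : Fin k => c (v, i))).card = k
    rw [card_image_of_injective _ hv.2, card_univ, Fintype.card_fin]
  obtain ⟨g, hg1, hg2, hg3, hg4⟩ := hS n k M ⌊9 * (n : ℝ) / (d : ℝ) ^ 2⌋₊ W S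
    ((1 / 2 - 10 * e) * (D : ℝ) ^ 2) hC0 hk hScard
    (by
      calc (M : ℝ) ≤ (1 / 2 - 10 * e) * k * (D : ℝ) ^ 2 := hM.le
        _ = (1 / 2 - 10 * e) * (D : ℝ) ^ 2 * k := by ring)
    (by linarith)
  obtain ⟨t, z, ht, hz, hzA⟩ := X.heng g (clb g d hd0 hg3)
    (num (2 * ((1 / 2 - 10 * e) * (D : ℝ) ^ 2)) (np (Same g)) n d e (1 - 2 * e) W.card
      (by linarith)
      (by
        have h3 := poly2 e h0
        calc (1 + e) * (2 * ((1 / 2 - 10 * e) * (D : ℝ) ^ 2))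
            = (1 + e) * ((1 - 20 * e) * (D : ℝ) ^ 2) := by ring
          _ ≤ (1 + e) * ((1 - 20 * e) * ((1 + e) ^ 4 * (d : ℝ) ^ 2)) :=
              mul_le_mul_of_nonneg_left (mul_le_mul_of_nonneg_left hDd (by linarith))
                (by linarith)
          _ = (1 + e) ^ 5 * (1 - 20 * e) * (d : ℝ) ^ 2 := by ring
          _ ≤ (1 - 2 * e) ^ 2 * (d : ℝ) ^ 2 := mul_le_mul_of_nonneg_right h3 hd2.le)
      hn0 (by linarith) (by linarith) hg4)
  have hWg : W ⊆ good A e d := by rw [hW]; exact filter_subset _ _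
  have hVW : ∀ b, vx z b ∈ good A e d := fun b => hWg (vx_mem z _ g hg1 hz.1 b)
  choose col hcol using hg2
  have hlift : ∀ v, ∃ i : Fin k, ∀ r, g v = some r → c (v, i) = col r := by
    intro v
    rcases hgv : g v with _ | r
    · exact ⟨⟨0, by omega⟩, fun r hr => by simp at hr⟩
    · have h3 := hcol r v hgv
      rw [hSd] at h3
      obtain ⟨i, -, hi⟩ := mem_image.mp h3
      refine ⟨i, fun r' hr' => ?_⟩
      have : r = r' := by simpa using hr'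
      rw [← this]; exact hi
  choose ι hι using hlift
  refine rep hL H c hc ht z (fun v => (v, ι v)) (fun b b' h => hz.2 (congrArg Prod.fst h))
    (fun b => hH _ _ (adj_of z hz.2 hzA hVW b)) (fun i => ?_)
  obtain ⟨h3, h4⟩ := hz.1 i
  obtain ⟨r, hr⟩ := Option.ne_none_iff_exists'.mp h4
  show c ((z i).1, ι (z i).1) = c ((z i).2, ι (z i).2)
  rw [hι _ r hr, hι _ r (h3 ▸ hr)]

end FIN_

open FIN_ in
theorem p_FIN : T_ENG → T_SEL1 → T_SELK → T_LIFT → T_FIN := by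
  intro hE hS1 hSK hL δ hδ
  obtain ⟨e, he⟩ : ∃ e : ℝ, e = min δ (1 / 4) / 10 := ⟨_, rfl⟩
  have hm0 : 0 < min δ (1 / 4) := lt_min hδ (by norm_num)
  have he0 : 0 < e := by rw [he]; positivity
  have he1 : e ≤ 1 / 40 := by
    have : min δ (1 / 4) ≤ 1 / 4 := min_le_right _ _
    rw [he]; linarith
  have heδ : 10 * e ≤ δ := by
    have : min δ (1 / 4) ≤ δ := min_le_left _ _
    rw [he]; linarith
  obtain ⟨d₀, hd₀⟩ := hE e he0 (by linarith)
  refine ⟨⌈(1 + e) * (max d₀ ⌈1 / e⌉₊ : ℕ)⌉₊, fun D hD => ?_⟩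
  obtain ⟨d, hdd⟩ : ∃ d : ℕ, d = ⌊(D : ℝ) / (1 + e)⌋₊ := ⟨_, rfl⟩
  have h1e : (0 : ℝ) < 1 + e := by linarith
  have hD0 : (0 : ℝ) ≤ D := Nat.cast_nonneg D
  have hDr : (1 + e) * ((max d₀ ⌈1 / e⌉₊ : ℕ) : ℝ) ≤ D := Nat.ceil_le.mp hD
  have hmax : max d₀ ⌈1 / e⌉₊ ≤ d := by
    rw [hdd]
    refine Nat.le_floor ?_
    rw [le_div_iff₀ h1e]
    linarith
  have hd1 : d₀ ≤ d := (le_max_left _ _).trans hmax
  have hd2 : 1 ≤ e * d := by
    have h3 : ⌈1 / e⌉₊ ≤ d := (le_max_right _ _).trans hmax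
    have h4 : 1 / e ≤ d := Nat.ceil_le.mp h3
    rw [div_le_iff₀ he0] at h4
    linarith
  have hfl : (d : ℝ) ≤ (D : ℝ) / (1 + e) := by
    rw [hdd]; exact Nat.floor_le (by positivity)
  have hD1 : (1 + e) * (d : ℝ) ≤ D := by
    rw [le_div_iff₀ h1e] at hfl
    linarith
  have hD2 : (D : ℝ) ≤ (1 + e) ^ 2 * d := by
    have h3 : (D : ℝ) / (1 + e) < d + 1 := by rw [hdd]; exact Nat.lt_floor_add_one _
    rw [div_lt_iff₀ h1e] at h3
    have h4 : ((d : ℝ) + 1) * (1 + e) ≤ (d + e * d) * (1 + e) :=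
      mul_le_mul_of_nonneg_right (by linarith) h1e.le
    calc (D : ℝ) ≤ (d + e * d) * (1 + e) := h3.le.trans h4
      _ = (1 + e) ^ 2 * d := by ring
  obtain ⟨n, A, hn, hbad, hind, heng⟩ := hd₀ d hd1
  have X : Ctx e d n D A := ⟨he0, he1, hd2, hn, hbad, hind, heng, hD1, hD2⟩
  have hDD : (0 : ℝ) ≤ (D : ℝ) ^ 2 := sq_nonneg _
  refine ⟨n, GG A e d, deg A e d D hD1, fun M c hc => ?_, fun k M c hc => ?_,
    fun k M c hc => ?_⟩
  · refine le_trans ?_ (partA hS1 hL X M c hc)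
    exact mul_le_mul_of_nonneg_right (by linarith) hDD
  · refine le_trans ?_ (partB hSK hL X k M c (EB (GG A e d) k) (fun x y h => h) hc)
    exact mul_le_mul_of_nonneg_right
      (mul_le_mul_of_nonneg_right (by linarith) (Nat.cast_nonneg k)) hDD
  · refine le_trans ?_ (partB hSK hL X k M c (KB (GG A e d) k) (fun x y h => ?_) hc)
    · exact mul_le_mul_of_nonneg_right
        (mul_le_mul_of_nonneg_right (by linarith) (Nat.cast_nonneg k)) hDD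
    · unfold KB
      rw [SimpleGraph.fromRel_adj]
      exact ⟨fun hxy => h.1 (congrArg Prod.fst hxy), Or.inl (Or.inl h)⟩

end Pool.Agent.THL
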