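import Pool.Agent.THL.Defs2

set_option autoImplicit false

/-!
# Lower bounds for nonrepetitive colourings: assembly of part 2
-/

open Finset

namespace Pool.Agent.THL

namespace FIN2_

lemma rep (hL : T_LIFT) {n t k M : ℕ} (H : SimpleGraph (Fin n × Fin k))
    (c : Fin n × Fin k → Fin M) (hc : Nonrep H c) (ht : 1 ≤ t) (z : Fin t → Fin n × Fin n)
    (hinj : Function.Injective (vx z))
    (hadj : ∀ (b : Fin (2 * t - 1)) (i j : Fin k),
      H.Adj (vx z ⟨b.1, by omega⟩, i) (vx z ⟨b.1 + 1, by omega⟩, j))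
    (hcol : ∀ i, ∃ p q : Fin k, c ((z i).1, p) = c ((z i).2, q)) : False := by
  choose p q hpq using hcol
  have h0 : 0 < 2 * t := by omega
  obtain ⟨κ, hκ1, hκ2⟩ : ∃ κ : ℕ → Fin k, (∀ i (h : i < t), κ i = p ⟨i, h⟩) ∧
      ∀ i (h : i < t), κ (i + t) = q ⟨i, h⟩ := by
    refine ⟨fun i => if h : i < t then p ⟨i, h⟩ else
      if h' : i - t < t then q ⟨i - t, h'⟩ else p ⟨0, ht⟩, fun i h => ?_, fun i h => ?_⟩
    · exact dif_pos h
    · have h1 : ¬ (i + t < t) := by omega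
      have h2 : i + t - t < t := by omega
      simp only [h1, h2, dif_neg, dif_pos, not_false_eq_true]
      congr 1
      ext
      simp
  obtain ⟨u, hu⟩ : ∃ u : ℕ → Fin n × Fin k, ∀ i (h : i < 2 * t), u i = (vx z ⟨i, h⟩, κ i) :=
    ⟨fun i => if h : i < 2 * t then (vx z ⟨i, h⟩, κ i) else (vx z ⟨0, h0⟩, κ 0),
      fun i h => dif_pos h⟩
  refine hL (Fin n × Fin k) (Fin M) H c hc t u ht (fun i j hi hj hij => ?_) (fun i hi => ?_)
    (fun i hi => ?_)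
  · rw [hu i hi, hu j hj] at hij
    have := hinj (congrArg Prod.fst hij)
    simpa using this
  · rw [hu i (by omega), hu (i + 1) hi]
    exact hadj ⟨i, by omega⟩ _ _
  · rw [hu i (by omega), hu (i + t) (by omega), hκ1 i hi, hκ2 i hi]
    have e1 : vx z ⟨i, by omega⟩ = (z ⟨i, hi⟩).1 := by simp [vx, hi]
    have e2 : vx z ⟨i + t, by omega⟩ = (z ⟨i, hi⟩).2 := by simp [vx]
    rw [e1, e2]
    exact hpq _

open Classical in
/-- the vertices of small degree -/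
noncomputable def good {n : ℕ} (A : Finset (Sym2 (Fin n))) (e d : ℝ) : Finset (Fin n) :=
  univ.filter fun v : Fin n => ¬ ((1 + e) * d < dg A v)

/-- the graph -/
def GG {n : ℕ} (A : Finset (Sym2 (Fin n))) (e d : ℝ) : SimpleGraph (Fin n) where
  Adj u v := u ≠ v ∧ s(u, v) ∈ A ∧ u ∈ good A e d ∧ v ∈ good A e d
  symm := ⟨fun u v h => ⟨h.1.symm, by rw [Sym2.eq_swap]; exact h.2.1, h.2.2.2, h.2.2.1⟩⟩
  loopless := ⟨fun u h => h.1 rfl⟩

lemma GG_adj {n : ℕ} (A : Finset (Sym2 (Fin n))) (e d : ℝ) (u v : Fin n) :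
    (GG A e d).Adj u v ↔ u ≠ v ∧ s(u, v) ∈ A ∧ u ∈ good A e d ∧ v ∈ good A e d := Iff.rfl

lemma good_card {n : ℕ} (A : Finset (Sym2 (Fin n))) (e d : ℝ) :
    (badv A e d : ℝ) + (good A e d).card = n := by
  classical
  have h : badv A e d + (good A e d).card = n := by
    unfold badv good
    have := Finset.card_filter_add_card_filter_not (s := (univ : Finset (Fin n)))
      (fun v : Fin n => (1 + e) * d < dg A v)
    rw [Finset.card_univ, Fintype.card_fin] at this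
    convert this
  exact_mod_cast h

lemma deg {n : ℕ} (A : Finset (Sym2 (Fin n))) (e d : ℝ) (D : ℕ) (h : (1 + e) * d ≤ D)
    (v : Fin n) : ((GG A e d).neighborSet v).ncard ≤ D := by
  classical
  by_cases hv : v ∈ good A e d
  · have h1 : ((GG A e d).neighborSet v).ncard ≤ dg A v := by
      unfold dg
      rw [← Set.ncard_coe_finset]
      refine Set.ncard_le_ncard_of_injOn (fun u => s(v, u)) ?_ ?_ (Set.toFinite _)
      · intro u hu
        rw [SimpleGraph.mem_neighborSet, GG_adj] at hu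
        have : s(v, u) ∈ A.filter fun e => v ∈ e :=
          mem_filter.mpr ⟨hu.2.1, Sym2.mem_mk_left v u⟩
        exact_mod_cast this
      · intro u _ u' _ huu'
        exact Sym2.congr_right.mp huu'
    have h2 : ¬ ((1 + e) * d < dg A v) := (mem_filter.mp hv).2
    have h3 : (dg A v : ℝ) ≤ D := (not_lt.mp h2).trans h
    exact h1.trans (by exact_mod_cast h3)
  · have h1 : (GG A e d).neighborSet v = ∅ := by
      ext u
      simp only [SimpleGraph.mem_neighborSet, GG_adj, Set.mem_empty_iff_false, iff_false]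
      intro h
      exact hv h.2.2.1
    rw [h1, Set.ncard_empty]
    exact Nat.zero_le _

lemma num (C N n d e κ W : ℝ) (hC : 0 < C) (h1 : (1 + e) * C ≤ κ ^ 2 * d ^ 2)
    (hn : 0 ≤ n) (hκ : 0 ≤ κ) (hW : κ * n ≤ W) (h2 : W ^ 2 ≤ C * N) :
    (1 + e) * n ^ 2 ≤ d ^ 2 * N := by
  have h3 : (κ * n) ^ 2 ≤ W ^ 2 := pow_le_pow_left₀ (mul_nonneg hκ hn) hW 2
  have h4 : C * ((1 + e) * n ^ 2) ≤ C * (d ^ 2 * N) := by
    calc C * ((1 + e) * n ^ 2) = (1 + e) * C * n ^ 2 := by ring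
      _ ≤ κ ^ 2 * d ^ 2 * n ^ 2 := mul_le_mul_of_nonneg_right h1 (sq_nonneg _)
      _ = d ^ 2 * (κ * n) ^ 2 := by ring
      _ ≤ d ^ 2 * (C * N) := mul_le_mul_of_nonneg_left (h3.trans h2) (sq_nonneg _)
      _ = C * (d ^ 2 * N) := by ring
  exact le_of_mul_le_mul_left h4 hC

lemma poly2 (e : ℝ) (he : 0 < e) : (1 + e) ^ 5 * (1 - 20 * e) ≤ (1 - 2 * e) ^ 2 := by
  have : (1 - 2 * e) ^ 2 - (1 + e) ^ 5 * (1 - 20 * e) =
      11 * e + 94 * e ^ 2 + 190 * e ^ 3 + 195 * e ^ 4 + 99 * e ^ 5 + 20 * e ^ 6 := by ring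
  have h2 : 0 ≤ 11 * e + 94 * e ^ 2 + 190 * e ^ 3 + 195 * e ^ 4 + 99 * e ^ 5 +
      20 * e ^ 6 := by positivity
  linarith

lemma poly3 (e : ℝ) (he : 0 < e) :
    (1 + e) ^ 6 * (1 - 20 * e) ≤ ((1 - e) * (1 - 2 * e)) ^ 2 := by
  have : ((1 - e) * (1 - 2 * e)) ^ 2 - (1 + e) ^ 6 * (1 - 20 * e) =
      8 * e + 118 * e ^ 2 + 268 * e ^ 3 + 389 * e ^ 4 + 294 * e ^ 5 + 119 * e ^ 6 +
        20 * e ^ 7 := by ring
  have h2 : 0 ≤ 8 * e + 118 * e ^ 2 + 268 * e ^ 3 + 389 * e ^ 4 + 294 * e ^ 5 +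
      119 * e ^ 6 + 20 * e ^ 7 := by positivity
  linarith

lemma cs (C κ n d : ℝ) (hd : 0 < d) (hn : 0 ≤ n) (h1 : κ * d ^ 2 ≤ C) (h0 : 0 ≤ C)
    (h2 : C ≤ n) : (9 * κ - 1) * n ≤ C * (⌊9 * n / d ^ 2⌋₊ : ℝ) := by
  have h3 : 9 * n / d ^ 2 - 1 ≤ (⌊9 * n / d ^ 2⌋₊ : ℝ) := by
    have := Nat.lt_floor_add_one (9 * n / d ^ 2)
    linarith
  have h4 : C * (9 * n / d ^ 2 - 1) ≤ C * (⌊9 * n / d ^ 2⌋₊ : ℝ) :=
    mul_le_mul_of_nonneg_left h3 h0
  have h5 : κ * (9 * n) ≤ C * (9 * n / d ^ 2) := by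
    calc κ * (9 * n) = κ * d ^ 2 * (9 * n / d ^ 2) := by field_simp
      _ ≤ C * (9 * n / d ^ 2) := mul_le_mul_of_nonneg_right h1 (by positivity)
  have h6 : C * (9 * n / d ^ 2 - 1) = C * (9 * n / d ^ 2) - C := by ring
  linarith

/-- the facts about the random graph -/
structure Ctx (e : ℝ) (r d n D : ℕ) (A : Finset (Sym2 (Fin n))) : Prop where
  e0 : 0 < e
  e1 : e ≤ 1 / 80
  hd : 1 ≤ e * d
  hn : d ^ 3 ≤ n
  hbad : (badv A e d : ℝ) ≤ e * n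
  hind : ¬ HasInd A e
  heng : ∀ S : Fin n → Finset (Fin (2 * r * n)), (∀ v, (S v).card ≤ 2 * r) →
        (∀ a, (d : ℝ) ^ 2 * (univ.filter fun v => a ∈ S v).card ≤ 9 * n) →
        (1 + e) * n ^ 2 ≤ (d : ℝ) ^ 2 * np (Meet S) →
        ∃ (t : ℕ) (z : Fin t → Fin n × Fin n), 1 ≤ t ∧ Adm (Meet S) z ∧ edg z ⊆ A
  hD1 : (1 + e) * d ≤ D
  hD2 : (D : ℝ) ≤ (1 + e) ^ 2 * d

lemma Ctx.facts {e : ℝ} {r d n D : ℕ} {A : Finset (Sym2 (Fin n))} (X : Ctx e r d n D A) :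
    (40 : ℝ) ≤ d ∧ (d : ℝ) ^ 2 ≤ (D : ℝ) ^ 2 ∧ (D : ℝ) ^ 2 ≤ (1 + e) ^ 4 * (d : ℝ) ^ 2 ∧
      (D : ℝ) ^ 2 ≤ n := by
  have h0 := X.e0
  have h1 := X.e1
  have h2 := X.hd
  have hd0 : (0 : ℝ) ≤ d := Nat.cast_nonneg d
  have h40 : (40 : ℝ) ≤ d := by nlinarith
  have hdD : (d : ℝ) ≤ D := by
    refine le_trans ?_ X.hD1
    nlinarith
  have a2 : (D : ℝ) ^ 2 ≤ (1 + e) ^ 4 * (d : ℝ) ^ 2 := by
    calc (D : ℝ) ^ 2 ≤ ((1 + e) ^ 2 * d) ^ 2 := pow_le_pow_left₀ (Nat.cast_nonneg D) X.hD2 2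
      _ = (1 + e) ^ 4 * (d : ℝ) ^ 2 := by ring
  refine ⟨h40, pow_le_pow_left₀ hd0 hdD 2, a2, a2.trans ?_⟩
  have h3 : (1 + e) ^ 4 ≤ 2 := by
    calc (1 + e) ^ 4 ≤ (1 + 1 / 80) ^ 4 := pow_le_pow_left₀ (by linarith) (by linarith) 4
      _ ≤ 2 := by norm_num
  have h4 : (d : ℝ) ^ 3 ≤ n := by exact_mod_cast X.hn
  calc (1 + e) ^ 4 * (d : ℝ) ^ 2 ≤ d * (d : ℝ) ^ 2 :=
        mul_le_mul_of_nonneg_right (by linarith) (sq_nonneg _)
    _ = (d : ℝ) ^ 3 := by ring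
    _ ≤ n := h4

lemma adj_of {n t : ℕ} {e : ℝ} {d : ℝ} {A : Finset (Sym2 (Fin n))}
    (z : Fin t → Fin n × Fin n) (hinj : Function.Injective (vx z)) (hA : edg z ⊆ A)
    (hW : ∀ b, vx z b ∈ good A e d) (b : Fin (2 * t - 1)) :
    (GG A e d).Adj (vx z ⟨b.1, by omega⟩) (vx z ⟨b.1 + 1, by omega⟩) := by
  rw [GG_adj]
  refine ⟨fun h => ?_, hA ?_, hW _, hW _⟩
  · have := hinj h
    simp at this
  · exact mem_image_of_mem _ (mem_univ b)

/-- the last step, common to the two cases -/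
lemma fin_step (hS : T_SELR) (hL : T_LIFT) {e : ℝ} {r d n D : ℕ} {A : Finset (Sym2 (Fin n))}
    (X : Ctx e r d n D A) (k M : ℕ) (c : Fin n × Fin k → Fin M)
    (H : SimpleGraph (Fin n × Fin k)) (hH : ∀ x y, (GG A e d).Adj x.1 y.1 → H.Adj x y)
    (hc : Nonrep H c) (hM1 : 1 ≤ M) (ρ : ℕ) (hρ1 : 1 ≤ ρ) (hρ2 : ρ ≤ 2 * r)
    (W : Finset (Fin n)) (hWg : W ⊆ good A e d) (S : Fin n → Finset (Fin M))
    (hSc : ∀ v, ∀ a ∈ S v, ∃ i : Fin k, c (v, i) = a) (Q : Finset (Fin M)) (C κ : ℝ)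
    (hC1 : 3 / 4 * (d : ℝ) ^ 2 ≤ C) (hC2 : C ≤ n) (hScard : ∀ v ∈ W, (S v).card = ρ)
    (hSQ : ∀ v ∈ W, S v ⊆ Q) (hQ : (Q.card : ℝ) ≤ C * ρ) (hκ0 : 0 ≤ κ)
    (hκ1 : κ * n ≤ W.card) (hκ2 : (1 + e) * C ≤ κ ^ 2 * (d : ℝ) ^ 2) : False := by
  classical
  obtain ⟨h40, hdD, hDd, hDn⟩ := X.facts
  have h0 := X.e0
  have h1 := X.e1
  have hd0 : (0 : ℝ) < d := by linarith
  have hn0 : (0 : ℝ) ≤ n := Nat.cast_nonneg n
  have hd2 : (0 : ℝ) < (d : ℝ) ^ 2 := by positivity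
  have hC0 : 0 < C := by linarith
  have hcs := cs C (3 / 4) n d hd0 hn0 hC1 hC0.le hC2
  have hWn : (W.card : ℝ) ≤ n := by
    have h3 : W.card ≤ n := by
      have := card_le_univ W
      rwa [Fintype.card_fin] at this
    exact_mod_cast h3
  obtain ⟨S', hS1, hS2, hS3, hS4, hS5⟩ := hS n ρ (2 * r) M ⌊9 * (n : ℝ) / (d : ℝ) ^ 2⌋₊ W S Q C
    hC0 hM1 hρ1 hρ2 hScard hSQ hQ (by linarith)
  obtain ⟨t, z, ht, hz, hzA⟩ := X.heng S' (fun v => (hS1 v).trans hρ2)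
    (fun a => by
      have h3 : ((univ.filter fun v => a ∈ S' v).card : ℝ) ≤
          (⌊9 * (n : ℝ) / (d : ℝ) ^ 2⌋₊ : ℝ) := by exact_mod_cast hS4 a
      have h4 := h3.trans (Nat.floor_le (by positivity))
      rw [le_div_iff₀ (by positivity)] at h4
      linarith)
    (num C (np (Meet S')) n d e κ W.card hC0 hκ2 hn0 hκ0 hκ1 hS5)
  have hmemW : ∀ v, (S' v).Nonempty → v ∈ good A e d := by
    intro v hv
    by_contra hvW
    rw [hS2 v (fun h => hvW (hWg h))] at hv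
    simp at hv
  have hVW : ∀ b, vx z b ∈ good A e d := by
    intro b
    unfold vx
    split_ifs with h
    · exact hmemW _ ((hz.1 ⟨b.1, h⟩).mono inter_subset_left)
    · exact hmemW _ ((hz.1 ⟨b.1 - t, by omega⟩).mono inter_subset_right)
  refine rep hL H c hc ht z hz.2 (fun b i j => hH _ _ (adj_of z hz.2 hzA hVW b)) (fun i => ?_)
  obtain ⟨b, hb⟩ := hz.1 i
  rw [mem_inter] at hb
  obtain ⟨a, ha⟩ := hS3 b
  obtain ⟨p, hp⟩ := hSc _ a (ha _ hb.1)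
  obtain ⟨q, hq⟩ := hSc _ a (ha _ hb.2)
  exact ⟨p, q, hp.trans hq.symm⟩

lemma partB (hS : T_SELR) (hL : T_LIFT) {e : ℝ} {r d n D : ℕ} {A : Finset (Sym2 (Fin n))}
    (hr : 1 ≤ r)
    (hP : ∀ (n k M : ℕ) (W : Finset (Fin n)) (S : Fin n → Finset (Fin M)), 2 * r ≤ k →
      (∀ v ∈ W, (S v).card = k) →
      ∃ (W' : Finset (Fin n)) (S' : Fin n → Finset (Fin M)) (Q : Finset (Fin M)), W' ⊆ W ∧
        (1 - e) * W.card ≤ W'.card ∧ (∀ v, S' v ⊆ S v) ∧ (∀ v, S' v ⊆ Q) ∧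
        (∀ v ∈ W', (S' v).card = r) ∧ (Q.card : ℝ) * k ≤ (1 + e) * M * r)
    (X : Ctx e r d n D A) (k M : ℕ) (c : Fin n × Fin k → Fin M)
    (H : SimpleGraph (Fin n × Fin k)) (hH : ∀ x y, (GG A e d).Adj x.1 y.1 → H.Adj x y)
    (hc : Nonrep H c) : (1 - 20 * e) * k * (D : ℝ) ^ 2 ≤ M := by
  classical
  by_contra hM
  rw [not_le] at hM
  have hk : 1 ≤ k := by
    by_contra hk
    have : k = 0 := by omega
    subst this
    have h3 : (0 : ℝ) ≤ M := Nat.cast_nonneg M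
    simp at hM
    linarith
  obtain ⟨h40, hdD, hDd, hDn⟩ := X.facts
  have h0 := X.e0
  have h1 := X.e1
  have hd0 : (0 : ℝ) < d := by linarith
  have hn0 : (0 : ℝ) ≤ n := Nat.cast_nonneg n
  have hd2 : (0 : ℝ) < (d : ℝ) ^ 2 := by positivity
  have hD0 : (0 : ℝ) < (D : ℝ) ^ 2 := by linarith
  have hk0 : (0 : ℝ) < k := by exact_mod_cast hk
  have hn1 : 1 ≤ n := by
    have h3 : (1 : ℝ) ≤ n := by nlinarith
    exact_mod_cast h3
  have hM1 : 1 ≤ M := by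
    have := (c (⟨0, hn1⟩, ⟨0, hk⟩)).2
    omega
  have hgc := good_card A e d
  have hb0 : (0 : ℝ) ≤ badv A e d := Nat.cast_nonneg _
  have hbad := X.hbad
  -- the vertices with a repeated colour
  obtain ⟨NI, hNI⟩ : ∃ NI : Finset (Fin n), NI = (good A e d).filter
    (fun v => ¬ Function.Injective (fun i : Fin k => c (v, i))) := ⟨_, rfl⟩
  have hNIc : (NI.card : ℝ) < e * n := by
    by_contra h3
    rw [not_lt] at h3
    refine X.hind ⟨NI, h3, fun u hu v hv huv hA => ?_⟩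
    rw [hNI, mem_filter] at hu hv
    obtain ⟨hu1, hu2⟩ := hu
    obtain ⟨hv1, hv2⟩ := hv
    unfold Function.Injective at hu2 hv2
    push Not at hu2 hv2
    obtain ⟨i, i', hi, hii⟩ := hu2
    obtain ⟨j, j', hj, hjj⟩ := hv2
    have hadj : (GG A e d).Adj u v := ⟨huv, hA, hu1, hv1⟩
    have hadj' : (GG A e d).Adj v u := hadj.symm
    obtain ⟨w, hw0, hw1, hw2, hw3⟩ : ∃ w : ℕ → Fin n × Fin k, w 0 = (u, i) ∧ w 1 = (v, j) ∧
        w 2 = (u, i') ∧ w 3 = (v, j') :=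
      ⟨fun m => if m = 0 then (u, i) else if m = 1 then (v, j) else if m = 2 then (u, i')
        else (v, j'), by simp, by simp, by simp, by simp⟩
    have hvu : v ≠ u := huv.symm
    refine hL (Fin n × Fin k) (Fin M) H c hc 2 w (by norm_num) (fun a b ha hb hab => ?_)
      (fun a ha => ?_) (fun a ha => ?_)
    · interval_cases a <;> interval_cases b <;>
        simp_all
    · have ha' : a < 3 := by omega
      interval_cases a
      · rw [hw0, hw1]; exact hH _ _ hadj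
      · rw [hw1, hw2]; exact hH _ _ hadj'
      · rw [hw2, hw3]; exact hH _ _ hadj
    · interval_cases a
      · show c (w 0) = c (w 2)
        rw [hw0, hw2]; exact hi
      · show c (w 1) = c (w 3)
        rw [hw1, hw3]; exact hj
  obtain ⟨W, hW⟩ : ∃ W : Finset (Fin n), W = (good A e d).filter
    (fun v => Function.Injective (fun i : Fin k => c (v, i))) := ⟨_, rfl⟩
  have hWc : ((good A e d).card : ℝ) = W.card + NI.card := by
    rw [hW, hNI]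
    have := Finset.card_filter_add_card_filter_not (s := good A e d)
      (fun v => Function.Injective (fun i : Fin k => c (v, i)))
    exact_mod_cast this.symm
  have hNI0 : (0 : ℝ) ≤ NI.card := Nat.cast_nonneg _
  have hWn : (1 - 2 * e) * n ≤ W.card := by linarith
  have hWg : W ⊆ good A e d := by rw [hW]; exact filter_subset _ _
  obtain ⟨S, hSd⟩ : ∃ S : Fin n → Finset (Fin M), S = fun v => univ.image
    (fun i : Fin k => c (v, i)) := ⟨_, rfl⟩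
  have hScard : ∀ v ∈ W, (S v).card = k := by
    intro v hv
    rw [hW, mem_filter] at hv
    rw [hSd]
    show (univ.image (fun i : Fin k => c (v, i))).card = k
    rw [card_image_of_injective _ hv.2, card_univ, Fintype.card_fin]
  have hSc : ∀ v, ∀ a ∈ S v, ∃ i : Fin k, c (v, i) = a := by
    intro v a ha
    rw [hSd] at ha
    obtain ⟨i, -, hi⟩ := mem_image.mp ha
    exact ⟨i, hi⟩
  have hpos : 3 / 4 ≤ 1 - 20 * e := by linarith
  have hC1 : 3 / 4 * (d : ℝ) ^ 2 ≤ (1 - 20 * e) * (D : ℝ) ^ 2 :=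
    mul_le_mul hpos hdD hd2.le (by linarith)
  rcases lt_or_ge k (2 * r) with hkr | hkr
  · refine fin_step hS hL X k M c H hH hc hM1 k hk hkr.le W hWg S hSc univ
      ((1 - 20 * e) * (D : ℝ) ^ 2) (1 - 2 * e) hC1 ?_ hScard (fun v _ => subset_univ _) ?_
      (by linarith) hWn ?_
    · refine le_trans ?_ hDn
      nlinarith
    · rw [card_univ, Fintype.card_fin]
      calc (M : ℝ) ≤ (1 - 20 * e) * k * (D : ℝ) ^ 2 := hM.le
        _ = (1 - 20 * e) * (D : ℝ) ^ 2 * k := by ring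
    · have h3 := poly2 e h0
      calc (1 + e) * ((1 - 20 * e) * (D : ℝ) ^ 2)
          ≤ (1 + e) * ((1 - 20 * e) * ((1 + e) ^ 4 * (d : ℝ) ^ 2)) :=
            mul_le_mul_of_nonneg_left (mul_le_mul_of_nonneg_left hDd (by linarith))
              (by linarith)
        _ = (1 + e) ^ 5 * (1 - 20 * e) * (d : ℝ) ^ 2 := by ring
        _ ≤ (1 - 2 * e) ^ 2 * (d : ℝ) ^ 2 := mul_le_mul_of_nonneg_right h3 hd2.le
  · obtain ⟨W', S', Q, hP1, hP2, hP3, hP4, hP5, hP6⟩ := hP n k M W S hkr hScard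
    refine fin_step hS hL X k M c H hH hc hM1 r hr (by omega) W' (hP1.trans hWg) S'
      (fun v a ha => hSc v a (hP3 v ha)) Q
      ((1 + e) * ((1 - 20 * e) * (D : ℝ) ^ 2)) ((1 - e) * (1 - 2 * e)) ?_ ?_ hP5
      (fun v _ => hP4 v) ?_ (mul_nonneg (by linarith) (by linarith)) ?_ ?_
    · nlinarith
    · refine le_trans ?_ hDn
      have h3 : (1 + e) * (1 - 20 * e) ≤ 1 := by nlinarith
      calc (1 + e) * ((1 - 20 * e) * (D : ℝ) ^ 2) = (1 + e) * (1 - 20 * e) * (D : ℝ) ^ 2 := by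
            ring
        _ ≤ 1 * (D : ℝ) ^ 2 := mul_le_mul_of_nonneg_right h3 hD0.le
        _ = (D : ℝ) ^ 2 := one_mul _
    · have hr0 : (0 : ℝ) < r := by exact_mod_cast hr
      have h3 : (Q.card : ℝ) * k ≤ (1 + e) * ((1 - 20 * e) * (D : ℝ) ^ 2) * r * k := by
        calc (Q.card : ℝ) * k ≤ (1 + e) * M * r := hP6
          _ ≤ (1 + e) * ((1 - 20 * e) * k * (D : ℝ) ^ 2) * r :=
            mul_le_mul_of_nonneg_right (mul_le_mul_of_nonneg_left hM.le (by linarith)) hr0.le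
          _ = (1 + e) * ((1 - 20 * e) * (D : ℝ) ^ 2) * r * k := by ring
      exact le_of_mul_le_mul_right h3 hk0
    · calc (1 - e) * (1 - 2 * e) * n = (1 - e) * ((1 - 2 * e) * n) := by ring
        _ ≤ (1 - e) * W.card := mul_le_mul_of_nonneg_left hWn (by linarith)
        _ ≤ W'.card := hP2
    · have h3 := poly3 e h0
      calc (1 + e) * ((1 + e) * ((1 - 20 * e) * (D : ℝ) ^ 2))
          ≤ (1 + e) * ((1 + e) * ((1 - 20 * e) * ((1 + e) ^ 4 * (d : ℝ) ^ 2))) :=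
            mul_le_mul_of_nonneg_left (mul_le_mul_of_nonneg_left
              (mul_le_mul_of_nonneg_left hDd (by linarith)) (by linarith)) (by linarith)
        _ = (1 + e) ^ 6 * (1 - 20 * e) * (d : ℝ) ^ 2 := by ring
        _ ≤ ((1 - e) * (1 - 2 * e)) ^ 2 * (d : ℝ) ^ 2 :=
            mul_le_mul_of_nonneg_right h3 hd2.le

end FIN2_

open FIN2_ in
theorem p_FIN2 : T_ENG2 → T_SELR → T_PAL → T_LIFT → T_FIN2 := by
  intro hE hS hP hL δ hδ
  obtain ⟨e, he⟩ : ∃ e : ℝ, e = min δ (1 / 4) / 20 := ⟨_, rfl⟩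
  have hm0 : 0 < min δ (1 / 4) := lt_min hδ (by norm_num)
  have he0 : 0 < e := by rw [he]; positivity
  have he1 : e ≤ 1 / 80 := by
    have : min δ (1 / 4) ≤ 1 / 4 := min_le_right _ _
    rw [he]; linarith
  have heδ : 20 * e ≤ δ := by
    have : min δ (1 / 4) ≤ δ := min_le_left _ _
    rw [he]; linarith
  obtain ⟨r, hr, hP'⟩ := hP e he0 (by linarith)
  obtain ⟨d₀, hd₀⟩ := hE e (2 * r) he0 (by linarith) (by omega)
  refine ⟨⌈(1 + e) * (max d₀ ⌈1 / e⌉₊ : ℕ)⌉₊, fun D hD => ?_⟩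
  obtain ⟨d, hdd⟩ : ∃ d : ℕ, d = ⌊(D : ℝ) / (1 + e)⌋₊ := ⟨_, rfl⟩
  have h1e : (0 : ℝ) < 1 + e := by linarith
  have hD0 : (0 : ℝ) ≤ D := Nat.cast_nonneg D
  have hDr : (1 + e) * ((max d₀ ⌈1 / e⌉₊ : ℕ) : ℝ) ≤ D := Nat.ceil_le.mp hD
  have hmax : max d₀ ⌈1 / e⌉₊ ≤ d := by
    rw [hdd]
    refine Nat.le_floor ?_
    rw [le_div_iff₀ h1e]
    linarith
  have hd1 : d₀ ≤ d := (le_max_left _ _).trans hmax
  have hd2 : 1 ≤ e * d := by
    have h3 : ⌈1 / e⌉₊ ≤ d := (le_max_right _ _).trans hmax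
    have h4 : 1 / e ≤ d := Nat.ceil_le.mp h3
    rw [div_le_iff₀ he0] at h4
    linarith
  have hfl : (d : ℝ) ≤ (D : ℝ) / (1 + e) := by
    rw [hdd]; exact Nat.floor_le (by positivity)
  have hD1 : (1 + e) * (d : ℝ) ≤ D := by
    rw [le_div_iff₀ h1e] at hfl
    linarith
  have hD2 : (D : ℝ) ≤ (1 + e) ^ 2 * d := by
    have h3 : (D : ℝ) / (1 + e) < d + 1 := by rw [hdd]; exact Nat.lt_floor_add_one _
    rw [div_lt_iff₀ h1e] at h3
    have h4 : ((d : ℝ) + 1) * (1 + e) ≤ (d + e * d) * (1 + e) :=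
      mul_le_mul_of_nonneg_right (by linarith) h1e.le
    calc (D : ℝ) ≤ (d + e * d) * (1 + e) := h3.le.trans h4
      _ = (1 + e) ^ 2 * d := by ring
  obtain ⟨n, A, hn, hbad, hind, heng⟩ := hd₀ d hd1
  have X : Ctx e r d n D A := ⟨he0, he1, hd2, hn, hbad, hind, heng, hD1, hD2⟩
  have hDD : (0 : ℝ) ≤ (D : ℝ) ^ 2 := sq_nonneg _
  refine ⟨n, GG A e d, deg A e d D hD1, fun k M c hc => ?_, fun k M c hc => ?_⟩
  · refine le_trans ?_ (partB hS hL hr hP' X k M c (EB (GG A e d) k) (fun x y h => h) hc)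
    exact mul_le_mul_of_nonneg_right
      (mul_le_mul_of_nonneg_right (by linarith) (Nat.cast_nonneg k)) hDD
  · refine le_trans ?_ (partB hS hL hr hP' X k M c (KB (GG A e d) k) (fun x y h => ?_) hc)
    · exact mul_le_mul_of_nonneg_right
        (mul_le_mul_of_nonneg_right (by linarith) (Nat.cast_nonneg k)) hDD
    · unfold KB
      rw [SimpleGraph.fromRel_adj]
      exact ⟨fun hxy => h.1 (congrArg Prod.fst hxy), Or.inl (Or.inl h)⟩

end Pool.Agent.THL
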