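import Pool.Agent.THL.Defs

set_option autoImplicit false

open Finset

namespace Pool.Agent.THL

namespace INDX_

open Classical in
theorem one (n : ℕ) (hJ : T_JAN) (p : ℝ) (h0 : 0 < p) (h1 : p ≤ 1) (I : Finset (Fin n)) :
    EE n p (fun A => I1 (∀ u ∈ I, ∀ v ∈ I, u ≠ v → s(u, v) ∉ A)) ≤
      Real.exp (-((I.card : ℝ) * (I.card - 1) * p / 8)) := by
  let E : Finset (Sym2 (Fin n)) := I.offDiag.image Sym2.mk.uncurry
  have hE : 2 * E.card = I.card * (I.card - 1) := by
    have := Sym2.two_mul_card_image_offDiag I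
    rw [Finset.offDiag_card] at this
    have h3 : E = I.offDiag.image Sym2.mk.uncurry := rfl
    rw [h3]
    rw [Nat.mul_sub, mul_one]
    convert this
  have h := hJ n (Sym2 (Fin n)) (fun e => {e}) E 1 p 1 h0.le h1 le_rfl (fun e _ => card_singleton e)
    (by
      intro e he
      have : E.filter (fun j => ¬ Disjoint ({e} : Finset (Sym2 (Fin n))) {j}) ⊆ {e} := by
        intro j hj
        rw [mem_filter, disjoint_singleton, not_not] at hj
        rw [mem_singleton]
        exact hj.2.symm
      refine (sum_le_sum_of_subset_of_nonneg this fun j _ _ => by positivity).trans ?_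
      simp)
  refine (le_of_eq ?_).trans (h.trans (le_of_eq ?_))
  · unfold EE
    congr 1
    funext A
    unfold I1
    congr 1
    apply propext
    constructor
    · intro hA e he
      simp only [E, mem_image, mem_offDiag] at he
      obtain ⟨q, ⟨hq1, hq2, hq3⟩, rfl⟩ := he
      rw [singleton_subset_iff]
      exact hA _ hq1 _ hq2 hq3
    · intro hA u hu v hv huv huvA
      refine hA s(u, v) ?_ (singleton_subset_iff.2 huvA)
      simp only [E, mem_image, mem_offDiag]
      exact ⟨(u, v), ⟨hu, hv, huv⟩, rfl⟩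
  · congr 1
    have h4 : (2 : ℝ) * E.card = I.card * (I.card - 1) := by
      rcases Nat.eq_zero_or_pos I.card with h5 | h5
      · rw [h5] at hE ⊢
        have : E.card = 0 := by omega
        rw [this]; simp
      · have : ((2 * E.card : ℕ) : ℝ) = ((I.card * (I.card - 1) : ℕ) : ℝ) := by exact_mod_cast hE
        push_cast [Nat.cast_sub (show 1 ≤ I.card from h5)] at this
        linarith
    have : (E.card : ℝ) = I.card * (I.card - 1) / 2 := by linarith
    rw [this]
    ring

end INDX_

open Classical in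
theorem p_IND : T_JAN → T_IND := by
  intro hJ n p δ hn h0 h1 hδ
  have key : ∀ A : Finset (Sym2 (Fin n)), I1 (HasInd A δ) ≤
      ∑ I ∈ (univ : Finset (Finset (Fin n))).filter (fun I => δ * n ≤ I.card),
        I1 (∀ u ∈ I, ∀ v ∈ I, u ≠ v → s(u, v) ∉ A) := by
    intro A
    have hnn : ∀ I ∈ (univ : Finset (Finset (Fin n))).filter (fun I => δ * n ≤ I.card),
        (0 : ℝ) ≤ I1 (∀ u ∈ I, ∀ v ∈ I, u ≠ v → s(u, v) ∉ A) := by
      intro I _
      unfold I1
      split_ifs <;> norm_num
    by_cases h : HasInd A δ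
    · obtain ⟨I, hI1, hI2⟩ := id h
      refine le_trans ?_ (single_le_sum hnn (mem_filter.2 ⟨mem_univ I, hI1⟩))
      unfold I1
      rw [if_pos h, if_pos hI2]
    · have : I1 (HasInd A δ) = 0 := by
        unfold I1
        rw [if_neg h]
      rw [this]
      exact sum_nonneg hnn
  have h2 : EE n p (fun A => I1 (HasInd A δ)) ≤
      ∑ I ∈ (univ : Finset (Finset (Fin n))).filter (fun I => δ * n ≤ I.card),
        EE n p (fun A => I1 (∀ u ∈ I, ∀ v ∈ I, u ≠ v → s(u, v) ∉ A)) := by
    have h3 : EE n p (fun A => ∑ I ∈ (univ : Finset (Finset (Fin n))).filter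
        (fun I => δ * n ≤ I.card), I1 (∀ u ∈ I, ∀ v ∈ I, u ≠ v → s(u, v) ∉ A)) =
        ∑ I ∈ (univ : Finset (Finset (Fin n))).filter (fun I => δ * n ≤ I.card),
        EE n p (fun A => I1 (∀ u ∈ I, ∀ v ∈ I, u ≠ v → s(u, v) ∉ A)) := by
      unfold EE
      rw [CPR.ex_sum]
    rw [← h3]
    unfold EE
    exact CPR.ex_mono (fun _ => h0.le) (fun _ => h1) key
  refine h2.trans ?_
  have h4 : ∀ I ∈ (univ : Finset (Finset (Fin n))).filter (fun I => δ * n ≤ I.card),
      EE n p (fun A => I1 (∀ u ∈ I, ∀ v ∈ I, u ≠ v → s(u, v) ∉ A)) ≤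
        Real.exp (-(p * (δ * n) * (δ * n - 1) / 8)) := by
    intro I hI
    have hI' : δ * n ≤ I.card := (mem_filter.1 hI).2
    refine (INDX_.one n hJ p h0 h1 I).trans (Real.exp_le_exp.2 ?_)
    have hn' : (1 : ℝ) ≤ n := by exact_mod_cast hn
    have hpos : 0 < δ * n := by positivity
    have h5 : (δ * n) * (δ * n - 1) ≤ (I.card : ℝ) * (I.card - 1) := by
      rcases le_or_gt 1 (δ * n) with h6 | h6
      · nlinarith
      · have h7 : (0 : ℝ) ≤ (I.card : ℝ) * (I.card - 1) := by
          rcases Nat.eq_zero_or_pos I.card with h8 | h8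
          · rw [h8]; simp
          · have : (1 : ℝ) ≤ I.card := by exact_mod_cast h8
            nlinarith
        nlinarith
    nlinarith [mul_le_mul_of_nonneg_left h5 h0.le]
  refine (sum_le_card_nsmul _ _ _ h4).trans ?_
  rw [nsmul_eq_mul]
  refine mul_le_mul_of_nonneg_right ?_ (Real.exp_pos _).le
  have h5 : ((univ : Finset (Finset (Fin n))).filter (fun I => δ * n ≤ I.card)).card ≤ 2 ^ n := by
    refine (card_filter_le _ _).trans ?_
    rw [card_univ, Fintype.card_finset, Fintype.card_fin]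
  exact_mod_cast h5

end Pool.Agent.THL
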