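import Pool.Agent.THL.Defs

set_option autoImplicit false

/-!
# Sets of edges of a path with few end points are intervals
-/

open Finset

namespace Pool.Agent.THL

namespace INT_

/-- a nonempty finite set of naturals whose union with its shift has at most one more element is
an interval -/
theorem interval (S : Finset ℕ) (hS : S.Nonempty)
    (h : (S ∪ S.image (· + 1)).card ≤ S.card + 1) :
    ∃ b : ℕ, S = Finset.Ico b (b + S.card) := by
  set m := S.min' hS with hm
  set M := S.max' hS with hM
  have hmS : m ∈ S := S.min'_mem hS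
  have hMS : M ∈ S := S.max'_mem hS
  have hM1 : M + 1 ∉ S := by
    intro h1
    have := S.le_max' _ h1
    omega
  have key : ∀ b ∈ S, b < M → b + 1 ∈ S := by
    intro b hb hbM
    by_contra hb1
    have hsub : insert (b + 1) (insert (M + 1) S) ⊆ S ∪ S.image (· + 1) := by
      intro x hx
      rw [mem_insert, mem_insert] at hx
      rw [mem_union, mem_image]
      rcases hx with rfl | rfl | hx
      · exact Or.inr ⟨b, hb, rfl⟩
      · exact Or.inr ⟨M, hMS, rfl⟩
      · exact Or.inl hx
    have hc : (insert (b + 1) (insert (M + 1) S)).card = S.card + 2 := by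
      rw [card_insert_of_notMem, card_insert_of_notMem hM1]
      rw [mem_insert]
      rintro (h1 | h1)
      · omega
      · exact hb1 h1
    have := card_le_card hsub
    omega
  have all : ∀ k : ℕ, m + k ≤ M → m + k ∈ S := by
    intro k
    induction k with
    | zero => intro _; exact hmS
    | succ k ih =>
      intro hk
      exact key (m + k) (ih (by omega)) (by omega)
  have hmM : m ≤ M := S.min'_le _ hMS
  have hE : S = Finset.Ico m (M + 1) := by
    ext x
    rw [Finset.mem_Ico]
    constructor
    · intro hx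
      exact ⟨S.min'_le _ hx, Nat.lt_succ_of_le (S.le_max' _ hx)⟩
    · rintro ⟨h1, h2⟩
      have := all (x - m) (by omega)
      rwa [Nat.add_sub_cancel' h1] at this
  refine ⟨m, ?_⟩
  have hc : S.card = M + 1 - m := by
    conv_lhs => rw [hE]
    exact Nat.card_Ico _ _
  rw [hc, hE]
  congr 1
  omega

end INT_

theorem p_INT : T_INT := by
  intro t B hB hc
  obtain ⟨S, hS⟩ : ∃ S : Finset ℕ, S = B.image Fin.val := ⟨_, rfl⟩
  have hSc : S.card = B.card := by rw [hS]; exact card_image_of_injective _ Fin.val_injective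
  have hSn : S.Nonempty := by rw [hS]; exact hB.image _
  have hSB : ∀ f : Fin (2 * t - 1), f ∈ B ↔ f.1 ∈ S := by
    intro f
    rw [hS, mem_image]
    constructor
    · intro hf
      exact ⟨f, hf, rfl⟩
    · rintro ⟨g, hg, hgf⟩
      rwa [Fin.val_injective hgf] at hg
  have hlt : ∀ x ∈ S, x + 1 < 2 * t := by
    intro x hx
    rw [hS, mem_image] at hx
    obtain ⟨g, -, rfl⟩ := hx
    have := g.2
    omega
  have hFm : ∀ f : Fin (2 * t), f ∈ FF B ↔ f.1 ∈ S ∪ S.image (· + 1) := by
    intro f
    rw [FF, mem_filter, mem_union, mem_image]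
    constructor
    · rintro ⟨-, b, hb, h1 | h1⟩
      · left
        rw [h1]
        exact (hSB b).1 hb
      · right
        exact ⟨b.1, (hSB b).1 hb, h1.symm⟩
    · rintro (h1 | ⟨x, hx, h1⟩)
      · refine ⟨mem_univ _, ⟨f.1, by have := hlt _ h1; omega⟩, (hSB _).2 h1, Or.inl rfl⟩
      · refine ⟨mem_univ _, ⟨x, by have := hlt _ hx; omega⟩, (hSB _).2 hx, Or.inr h1.symm⟩
  have hFi : (FF B).image Fin.val = S ∪ S.image (· + 1) := by
    ext x
    rw [mem_image]
    constructor
    · rintro ⟨f, hf, rfl⟩
      exact (hFm f).1 hf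
    · intro hx
      have hx2 : x < 2 * t := by
        rw [mem_union, mem_image] at hx
        rcases hx with h1 | ⟨y, hy, rfl⟩
        · have := hlt _ h1; omega
        · exact hlt _ hy
      exact ⟨⟨x, hx2⟩, (hFm ⟨x, hx2⟩).2 hx, rfl⟩
  have hFc : (FF B).card = (S ∪ S.image (· + 1)).card := by
    rw [← hFi, card_image_of_injective _ Fin.val_injective]
  obtain ⟨b, hb⟩ := INT_.interval S hSn (by rw [← hFc, hSc]; exact hc)
  rw [hSc] at hb
  have hpos : 0 < B.card := hB.card_pos
  have hU : S ∪ S.image (· + 1) = Finset.Icc b (b + B.card) := by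
    ext x
    rw [mem_union, mem_image, hb, Finset.mem_Icc]
    simp only [Finset.mem_Ico]
    constructor
    · rintro (h1 | ⟨y, hy, rfl⟩)
      · omega
      · omega
    · intro h1
      by_cases h2 : x < b + B.card
      · exact Or.inl ⟨h1.1, h2⟩
      · exact Or.inr ⟨x - 1, by omega, by omega⟩
  refine ⟨?_, b, ?_, ?_, ?_⟩
  · rw [hFc, hU, Nat.card_Icc]
    omega
  · have h1 : b + B.card - 1 ∈ S := by
      rw [hb, Finset.mem_Ico]
      omega
    have := hlt _ h1
    omega
  · ext f
    rw [hFm, hU, Finset.mem_Icc, mem_filter]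
    simp
  · ext f
    rw [hSB, hb, Finset.mem_Ico, mem_filter]
    simp

end Pool.Agent.THL
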