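import Pool.Agent.THL.Defs

/-!
# The weight of an interval
-/

set_option autoImplicit false

open Finset

namespace Pool.Agent.THL

namespace IWT_

/-- the interval of positions from `b` to `b + l` -/
def J (t b l : ℕ) : Finset (Fin (2 * t)) :=
  univ.filter (fun f : Fin (2 * t) => b ≤ f.1 ∧ f.1 ≤ b + l)

theorem mem_J (t b l : ℕ) (f : Fin (2 * t)) : f ∈ J t b l ↔ b ≤ f.1 ∧ f.1 ≤ b + l := by
  simp [J]

theorem N0_le (t : ℕ) (F : Finset (Fin (2 * t))) : N0 t F ≤ t := by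
  unfold N0
  calc _ ≤ (univ : Finset (Fin t)).card := card_filter_le _ _
    _ = t := by simp

theorem N0_zero (t b l i : ℕ) (hi : i < t) (h1 : b ≤ i) (h2 : i + t ≤ b + l) :
    N0 t (J t b l) = 0 := by
  unfold N0
  rw [card_eq_zero, filter_eq_empty_iff]
  rintro ⟨j, hj⟩ -
  simp only [mem_J]
  omega

theorem N1_two (t b l : ℕ) (hl : 1 ≤ l) (hb : b + l < 2 * t)
    (h : ∀ i : ℕ, i < t → b ≤ i → ¬ i + t ≤ b + l) : 2 ≤ N1 t (J t b l) := by
  unfold N1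
  rw [Nat.succ_le_iff, one_lt_card]
  -- a position of the interval gives an element
  have key : ∀ f : ℕ, b ≤ f → f ≤ b + l → ∃ i : Fin t, (i.1 = f ∨ i.1 + t = f) ∧
      i ∈ univ.filter fun i : Fin t => ¬ ((⟨i.1, by omega⟩ : Fin (2 * t)) ∈ J t b l ↔
        (⟨i.1 + t, by omega⟩ : Fin (2 * t)) ∈ J t b l) := by
    intro f hf1 hf2
    rcases lt_or_ge f t with hft | hft
    · refine ⟨⟨f, hft⟩, Or.inl rfl, ?_⟩
      simp only [mem_filter, mem_univ, true_and, mem_J]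
      have := h f hft hf1
      omega
    · refine ⟨⟨f - t, by omega⟩, Or.inr (by simp; omega), ?_⟩
      simp only [mem_filter, mem_univ, true_and, mem_J]
      have := h (f - t) (by omega)
      omega
  obtain ⟨i, hi1, hi2⟩ := key b le_rfl (by omega)
  obtain ⟨j, hj1, hj2⟩ := key (b + 1) (by omega) (by omega)
  refine ⟨i, hi2, j, hj2, ?_⟩
  rintro rfl
  have := h i.1 i.2
  omega

end IWT_

theorem p_IWT : T_IWT := by
  intro t b l ρ σ hρ hσ0 hσ1 hl hb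
  change ρ ^ N0 t (IWT_.J t b l) * σ ^ N1 t (IWT_.J t b l) ≤ 1 + ρ ^ t * σ ^ 2
  have hρ0 : 0 ≤ ρ := by linarith
  have hnn : 0 ≤ ρ ^ t * σ ^ 2 := by positivity
  by_cases h : ∃ i : ℕ, i < t ∧ b ≤ i ∧ i + t ≤ b + l
  · obtain ⟨i, hi, h1, h2⟩ := h
    rw [IWT_.N0_zero t b l i hi h1 h2, pow_zero, one_mul]
    have := pow_le_one₀ (n := N1 t (IWT_.J t b l)) hσ0 hσ1
    linarith
  · push Not at h
    have h2 : 2 ≤ N1 t (IWT_.J t b l) :=
      IWT_.N1_two t b l hl hb (fun i hi hbi => not_le.mpr (h i hi hbi))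
    have h3 : σ ^ N1 t (IWT_.J t b l) ≤ σ ^ 2 := pow_le_pow_of_le_one hσ0 hσ1 h2
    have h4 : ρ ^ N0 t (IWT_.J t b l) ≤ ρ ^ t := pow_le_pow_right₀ hρ (IWT_.N0_le t _)
    have h5 : ρ ^ N0 t (IWT_.J t b l) * σ ^ N1 t (IWT_.J t b l) ≤ ρ ^ t * σ ^ 2 :=
      mul_le_mul h4 h3 (by positivity) (by positivity)
    linarith

end Pool.Agent.THL
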