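import Pool.Agent.THL.Defs

set_option autoImplicit false

/-!
# JAN: Janson's inequality for families of sets with the same number of elements
-/

open Finset

namespace Pool.Agent.THL

namespace JAN_

theorem dd_le (n : ℕ) (ι : Type) [Fintype ι] [DecidableEq ι]
    (T : ι → Finset (Sym2 (Fin n))) (I : Finset ι) (r : ℕ) (p W : ℝ) (hp0 : 0 ≤ p)
    (hr : ∀ i ∈ I, (T i).card = r)
    (hov : ∀ i ∈ I, ∑ j ∈ I.filter (fun j => ¬ Disjoint (T i) (T j)),
      p ^ (r - (T i ∩ T j).card) ≤ W) :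
    CPR.DD (fun _ => p) T I ≤ I.card * p ^ r * W := by
  unfold CPR.DD
  have h1 : ∀ i ∈ I, ∑ j ∈ I.filter (fun j => ¬ Disjoint (T i) (T j)), ∏ e ∈ T i ∪ T j, p
      ≤ p ^ r * W := by
    intro i hi
    have h2 : ∑ j ∈ I.filter (fun j => ¬ Disjoint (T i) (T j)), ∏ e ∈ T i ∪ T j, p =
        p ^ r * ∑ j ∈ I.filter (fun j => ¬ Disjoint (T i) (T j)),
          p ^ (r - (T i ∩ T j).card) := by
      rw [Finset.mul_sum]
      apply Finset.sum_congr rfl
      intro j hj
      have hj' : j ∈ I := (Finset.mem_filter.mp hj).1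
      rw [Finset.prod_const, ← pow_add]
      congr 1
      have h3 := Finset.card_union_add_card_inter (T i) (T j)
      have h4 : (T i ∩ T j).card ≤ (T i).card := Finset.card_le_card Finset.inter_subset_left
      rw [hr i hi, hr j hj'] at h3
      rw [hr i hi] at h4
      omega
    rw [h2]
    exact mul_le_mul_of_nonneg_left (hov i hi) (pow_nonneg hp0 _)
  calc ∑ i ∈ I, ∑ j ∈ I.filter (fun j => ¬ Disjoint (T i) (T j)), ∏ e ∈ T i ∪ T j, p
      ≤ ∑ i ∈ I, p ^ r * W := Finset.sum_le_sum h1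
    _ = I.card * p ^ r * W := by
      rw [Finset.sum_const, nsmul_eq_mul]
      ring

end JAN_

theorem p_JAN : T_JAN := by
  intro n ι _ _ T I r p W hp0 hp1 hW hr hov
  have hW0 : 0 < W := by linarith
  have hq0 : (0 : ℝ) ≤ 1 / (2 * W) := by positivity
  have hq1 : 1 / (2 * W) ≤ 1 := by
    rw [div_le_one (by positivity)]
    linarith
  have hJ := CPR.janson (T := T) (π := fun _ : Sym2 (Fin n) => p) (fun _ => hp0) (fun _ => hp1)
    hq0 hq1 I
  have hE : EE n p (fun A => I1 (∀ i ∈ I, ¬ T i ⊆ A)) =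
      CPR.ex (fun _ => p) (CPR.avoid T I) := by
    unfold EE
    congr 1
    funext A
    unfold CPR.avoid I1
    split_ifs <;> rfl
  rw [hE]
  refine hJ.trans (Real.exp_le_exp.mpr ?_)
  have h1 : ∑ i ∈ I, ∏ e ∈ T i, (fun _ : Sym2 (Fin n) => p) e = I.card * p ^ r := by
    rw [Finset.sum_congr rfl (fun i hi => by rw [Finset.prod_const, hr i hi]), Finset.sum_const,
      nsmul_eq_mul]
  have h2 := JAN_.dd_le n ι T I r p W hp0 hr hov
  rw [h1]
  have h3 : (1 / (2 * W)) ^ 2 * CPR.DD (fun _ => p) T I ≤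
      (1 / (2 * W)) ^ 2 * (I.card * p ^ r * W) := mul_le_mul_of_nonneg_left h2 (sq_nonneg _)
  have h4 : -(1 / (2 * W)) * (I.card * p ^ r) + (1 / (2 * W)) ^ 2 * (I.card * p ^ r * W) =
      -(I.card * p ^ r / (4 * W)) := by
    field_simp
    ring
  linarith

end Pool.Agent.THL
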