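import Pool.Agent.THL.Defs

set_option autoImplicit false

/-!
# LIFT: a path with equally coloured halves contradicts `Nonrep` (helper83)
-/

namespace Pool.Agent.THL

namespace LIFT_

/-- the walk through `u 0, ..., u m` -/
lemma exists_walk {V : Type} (H : SimpleGraph V) (u : ℕ → V) (m : ℕ)
    (h : ∀ i, i + 1 ≤ m → H.Adj (u i) (u (i + 1))) :
    ∃ p : H.Walk (u 0) (u m), p.support = (List.range (m + 1)).map u := by
  induction m with
  | zero => exact ⟨SimpleGraph.Walk.nil, by simp⟩
  | succ m ih =>
    obtain ⟨p, hp⟩ := ih (fun i hi => h i (by omega))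
    refine ⟨p.concat (h m le_rfl), ?_⟩
    rw [SimpleGraph.Walk.support_concat, hp, List.range_succ (n := m + 1), List.map_append]
    simp

end LIFT_

open LIFT_ in
theorem p_LIFT : T_LIFT := by
  intro V α H c hc t u ht hinj hadj hrep
  obtain ⟨p, hp⟩ := exists_walk H u (2 * t - 1) (fun i hi => hadj i (by omega))
  have h2 : 2 * t - 1 + 1 = 2 * t := by omega
  rw [h2] at hp
  have hpath : p.IsPath := by
    rw [SimpleGraph.Walk.isPath_def, hp]
    apply List.Nodup.map_on _ (List.nodup_range)
    intro i hi j hj hij
    rw [List.mem_range] at hi hj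
    exact hinj i j hi hj hij
  refine hc _ _ p hpath t ht (by rw [hp]; simp) ?_
  rw [hp]
  apply List.ext_getElem
  · simp only [List.length_take, List.length_drop, List.length_map, List.length_range]
    omega
  · intro i h1 h3
    simp only [List.length_take, List.length_map, List.length_range] at h1
    simp only [List.getElem_take, List.getElem_drop, List.getElem_map, List.getElem_range]
    have := hrep i (by omega)
    rw [this, Nat.add_comm]

end Pool.Agent.THL
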