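import Mathlib
import Pool.Agent.THL.Defs

set_option autoImplicit false

/-!
# Block ONE: a fixed colouring
-/

open Finset

namespace Pool.Agent.THL

namespace ONE_

theorem same_symm {n : ℕ} (g : Fin n → Option (Fin n)) (x y : Fin n) (h : Same g x y) :
    Same g y x := ⟨h.1.symm, fun h' => h.2 (h.1.trans h')⟩

theorem WW_ge {t : ℕ} {p ρ σ : ℝ} (ht : 1 ≤ t) (hp : 0 ≤ p) (hρ : 0 ≤ ρ) :
    1 ≤ WW t p ρ σ := by
  unfold WW
  have ht' : (1 : ℝ) ≤ t := by exact_mod_cast ht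
  have h3 : (1 : ℝ) ≤ (t : ℝ) ^ 3 := one_le_pow₀ ht'
  have hρt : 0 ≤ ρ ^ t := pow_nonneg hρ t
  have h1 : 0 ≤ ρ ^ t * σ ^ 2 := mul_nonneg hρt (sq_nonneg σ)
  have h2 : 0 ≤ (2 * (t : ℝ) + 1) ^ (2 * t) * (p * ρ ^ t) := by positivity
  nlinarith [mul_nonneg (by linarith : (0 : ℝ) ≤ (t : ℝ) ^ 3) h1]

theorem WW_le {t : ℕ} {p ρ σ : ℝ} (ht : 1 ≤ t) (hρ : 0 ≤ ρ)
    (h1 : 1 ≤ ρ ^ t * σ ^ 2) (h2 : (2 * (t : ℝ) + 1) ^ (2 * t) * p ≤ σ ^ 2) :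
    WW t p ρ σ ≤ 33 * (t : ℝ) ^ 3 * (ρ ^ t * σ ^ 2) := by
  unfold WW
  have ht' : (1 : ℝ) ≤ t := by exact_mod_cast ht
  have h3 : (1 : ℝ) ≤ (t : ℝ) ^ 3 := one_le_pow₀ ht'
  have hρt : 0 ≤ ρ ^ t := pow_nonneg hρ t
  have h4 : (2 * (t : ℝ) + 1) ^ (2 * t) * (p * ρ ^ t) ≤ ρ ^ t * σ ^ 2 := by
    calc (2 * (t : ℝ) + 1) ^ (2 * t) * (p * ρ ^ t)
        = ((2 * (t : ℝ) + 1) ^ (2 * t) * p) * ρ ^ t := by ring
      _ ≤ σ ^ 2 * ρ ^ t := mul_le_mul_of_nonneg_right h2 hρt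
      _ = ρ ^ t * σ ^ 2 := by ring
  have h5 : ρ ^ t * σ ^ 2 ≤ (t : ℝ) ^ 3 * (ρ ^ t * σ ^ 2) :=
    le_mul_of_one_le_left (by linarith) h3
  have h6 : (t : ℝ) ^ 3 * 1 ≤ (t : ℝ) ^ 3 * (ρ ^ t * σ ^ 2) :=
    mul_le_mul_of_nonneg_left h1 (by linarith)
  nlinarith

theorem card_ge {N n t s c : ℕ} (ht : 1 ≤ t) (hc : (N - n - 4 * t * s) ^ t ≤ c)
    (h : 4 * (t : ℝ) * (n + 4 * t * s) ≤ N) : (N : ℝ) ^ t / 2 ≤ c := by
  have ht' : (1 : ℝ) ≤ t := by exact_mod_cast ht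
  have ht0 : (0 : ℝ) < t := by linarith
  have hc' : (((N - n - 4 * t * s : ℕ) : ℝ)) ^ t ≤ c := by exact_mod_cast hc
  have hsub : (N : ℝ) - (n + 4 * t * s) ≤ ((N - n - 4 * t * s : ℕ) : ℝ) := by
    have : N ≤ (N - n - 4 * t * s) + (n + 4 * t * s) := by omega
    have h' : (N : ℝ) ≤ ((N - n - 4 * t * s : ℕ) : ℝ) + (n + 4 * t * s) := by
      exact_mod_cast this
    linarith
  have hx : (n : ℝ) + 4 * t * s ≤ N / (4 * t) := by
    rw [le_div_iff₀ (by positivity)]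
    linarith
  have hlow : (N : ℝ) * (1 - 1 / (4 * t)) ≤ (N : ℝ) - (n + 4 * t * s) := by
    have : (N : ℝ) * (1 - 1 / (4 * t)) = N - N / (4 * t) := by ring
    rw [this]
    linarith
  have hq : (0 : ℝ) ≤ 1 - 1 / (4 * t) := by
    have : 1 / (4 * (t : ℝ)) ≤ 1 := by
      rw [div_le_one (by positivity)]
      linarith
    linarith
  have hbern : 1 - (1 / 4 : ℝ) ≤ (1 - 1 / (4 * (t : ℝ))) ^ t := by
    have := one_add_mul_le_pow (a := -(1 / (4 * (t : ℝ)))) (by linarith) t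
    have h2 : 1 + (t : ℝ) * -(1 / (4 * (t : ℝ))) = 1 - 1 / 4 := by
      field_simp
      ring
    rw [h2] at this
    calc 1 - (1 / 4 : ℝ) ≤ (1 + -(1 / (4 * (t : ℝ)))) ^ t := this
      _ = _ := by ring
  have hN : (0 : ℝ) ≤ (N : ℝ) ^ t := by positivity
  calc (N : ℝ) ^ t / 2 ≤ (N : ℝ) ^ t * (1 - 1 / 4) := by linarith
    _ ≤ (N : ℝ) ^ t * (1 - 1 / (4 * (t : ℝ))) ^ t := mul_le_mul_of_nonneg_left hbern hN
    _ = ((N : ℝ) * (1 - 1 / (4 * (t : ℝ)))) ^ t := by rw [mul_pow]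
    _ ≤ (((N - n - 4 * t * s : ℕ) : ℝ)) ^ t :=
        pow_le_pow_left₀ (mul_nonneg (Nat.cast_nonneg N) hq) (hlow.trans hsub) t
    _ ≤ c := hc'

theorem fin_ineq {t : ℕ} {p N σ c W : ℝ} (ht : 1 ≤ t) (hp : 0 < p) (hN : 0 ≤ N)
    (hc : N ^ t / 2 ≤ c) (h1 : 1 ≤ (p ^ 2 * N) ^ t * σ ^ 2) (hW0 : 0 < W)
    (hW : W ≤ 33 * (t : ℝ) ^ 3 * ((p ^ 2 * N) ^ t * σ ^ 2)) :
    1 / (264 * (t : ℝ) ^ 3 * p * σ ^ 2) ≤ c * p ^ (2 * t - 1) / (4 * W) := by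
  have ht' : (1 : ℝ) ≤ t := by exact_mod_cast ht
  have ht0 : (0 : ℝ) < t := by linarith
  set P : ℝ := (p ^ 2 * N) ^ t with hP
  have hP0 : 0 ≤ P := by rw [hP]; positivity
  have hσ : 0 < σ ^ 2 := by
    rcases (sq_nonneg σ).eq_or_lt with h | h
    · exfalso
      rw [← h] at h1
      simp at h1
      linarith
    · exact h
  have hPpos : 0 < P := by
    rcases hP0.eq_or_lt with h | h
    · exfalso
      rw [← h] at h1
      simp at h1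
      linarith
    · exact h
  have hpow : p ^ (2 * t - 1) * p = p ^ (2 * t) := by
    rw [← pow_succ]
    congr 1
    omega
  have hPe : P = p ^ (2 * t) * N ^ t := by
    rw [hP, mul_pow, ← pow_mul]
  have hcp : P / (2 * p) ≤ c * p ^ (2 * t - 1) := by
    rw [div_le_iff₀ (by positivity)]
    calc P = 2 * (N ^ t / 2) * p ^ (2 * t) := by rw [hPe]; ring
      _ ≤ 2 * c * p ^ (2 * t) := by
          apply mul_le_mul_of_nonneg_right _ (by positivity)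
          linarith
      _ = c * p ^ (2 * t - 1) * (2 * p) := by rw [← hpow]; ring
  have hc0 : 0 ≤ c * p ^ (2 * t - 1) := le_trans (by positivity) hcp
  calc 1 / (264 * (t : ℝ) ^ 3 * p * σ ^ 2)
      = P / (2 * p) / (4 * (33 * (t : ℝ) ^ 3 * (P * σ ^ 2))) := by
        field_simp
        ring
    _ ≤ c * p ^ (2 * t - 1) / (4 * (33 * (t : ℝ) ^ 3 * (P * σ ^ 2))) :=
        div_le_div_of_nonneg_right hcp (by positivity)
    _ ≤ c * p ^ (2 * t - 1) / (4 * W) := by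
        apply div_le_div_of_nonneg_left hc0 (by positivity)
        linarith

end ONE_

open ONE_

theorem p_ONE : T_JAN → T_CNT → T_BF → T_PAT → T_ONE := by
  intro hJ hC hB hP n t s g p ht hp hp1 hs hps hρ h1 h2 h3
  set R := Same g with hR
  have hsym : ∀ x y, R x y → R y x := same_symm g
  have hcard : ∀ z ∈ AdmS R t, (edg z).card = 2 * t - 1 := by
    intro z hz
    have hz' : Adm R z := by
      unfold AdmS at hz
      simpa using hz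
    exact (hB n t z z hz'.2 hz'.2).1
  have hWge : 1 ≤ WW t p (p ^ 2 * np R) (p * s) := WW_ge ht hp.le (by linarith)
  have hWle : WW t p (p ^ 2 * np R) (p * s) ≤
      33 * (t : ℝ) ^ 3 * ((p ^ 2 * np R) ^ t * (p * s) ^ 2) := WW_le ht (by linarith) h1 h2
  have hJ' := hJ n (Fin t → Fin n × Fin n) edg (AdmS R t) (2 * t - 1) p
    (WW t p (p ^ 2 * np R) (p * s)) hp.le hp1 hWge hcard
    (fun z hz => hP n t s R p ht hp hp1 hsym hs hps hρ z hz)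
  refine hJ'.trans ?_
  apply Real.exp_le_exp.mpr
  apply neg_le_neg
  exact fin_ineq ht hp (Nat.cast_nonneg _) (card_ge ht (hC n t s R hsym hs) h3) h1
    (by linarith) hWle

end Pool.Agent.THL
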