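import Pool.Agent.THL.Defs2
import Pool.Agent.THL.ONE

set_option autoImplicit false

/-!
# Block ONE2: a fixed symmetric relation
-/

open Finset

namespace Pool.Agent.THL

open ONE_

theorem p_ONE2 : T_JAN → T_CNT → T_BF → T_PAT → T_ONE2 := by
  intro hJ hC hB hP n t s R p ht hp hp1 hsym hs hps hρ h1 h2 h3
  have hcard : ∀ z ∈ AdmS R t, (edg z).card = 2 * t - 1 := by
    intro z hz
    have hz' : Adm R z := by
      unfold AdmS at hz
      simpa using hz
    exact (hB n t z z hz'.2 hz'.2).1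
  have hWge : 1 ≤ WW t p (p ^ 2 * np R) (p * s) := WW_ge ht hp.le (by linarith)
  have hWle : WW t p (p ^ 2 * np R) (p * s) ≤
      33 * (t : ℝ) ^ 3 * ((p ^ 2 * np R) ^ t * (p * s) ^ 2) := WW_le ht (by linarith) h1 h2
  have hJ' := hJ n (Fin t → Fin n × Fin n) edg (AdmS R t) (2 * t - 1) p
    (WW t p (p ^ 2 * np R) (p * s)) hp.le hp1 hWge hcard
    (fun z hz => hP n t s R p ht hp hp1 hsym hs hps hρ z hz)
  refine hJ'.trans ?_
  apply Real.exp_le_exp.mpr
  apply neg_le_neg
  exact fin_ineq ht hp (Nat.cast_nonneg _) (card_ge ht (hC n t s R hsym hs) h3) h1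
    (by linarith) hWle

end Pool.Agent.THL
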