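import Pool.Agent.THL.Defs2

set_option autoImplicit false

/-!
# PAL: a random sub-palette, which reduces `k`-sets to `r`-sets (project THL)
-/

open Finset

namespace Pool.Agent.THL

namespace PAL_

open Pool.Agent.CPR

/-- intersections with a set, counted by indicators -/
theorem card_inter {M : ℕ} (S A : Finset (Fin M)) :
    ((S ∩ A).card : ℝ) = ∑ a ∈ S, ind {a} A := by
  have h : ∀ a ∈ S, ind {a} A = if a ∈ A then (1 : ℝ) else 0 := by
    intro a _
    unfold ind
    simp
  rw [Finset.sum_congr rfl h, Finset.sum_ite_mem]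
  simp

/-- the mean -/
theorem ex_card {M : ℕ} (S : Finset (Fin M)) (q : ℝ) :
    ex (fun _ => q) (fun A : Finset (Fin M) => ((S ∩ A).card : ℝ)) = S.card * q := by
  have h : (fun A : Finset (Fin M) => ((S ∩ A).card : ℝ)) =
      fun A => ∑ a ∈ S, ind {a} A := by
    funext A
    exact card_inter S A
  rw [h, ex_sum]
  have h2 : ∀ a ∈ S, ex (fun _ => q) (ind {a}) = q := by
    intro a _
    rw [ex_ind]
    simp
  rw [Finset.sum_congr rfl h2, Finset.sum_const, nsmul_eq_mul]

/-- the second moment -/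
theorem ex_sq {M : ℕ} (S : Finset (Fin M)) (q : ℝ) :
    ex (fun _ => q) (fun A : Finset (Fin M) => ((S ∩ A).card : ℝ) ^ 2) =
      S.card * (q + (S.card - 1) * q ^ 2) := by
  have h : (fun A : Finset (Fin M) => ((S ∩ A).card : ℝ) ^ 2) =
      fun A => ∑ a ∈ S, ∑ b ∈ S, ind ({a} ∪ {b}) A := by
    funext A
    rw [card_inter S A, sq, Finset.sum_mul_sum]
    refine Finset.sum_congr rfl fun a _ => Finset.sum_congr rfl fun b _ => ?_
    rw [ind_mul_ind]
  rw [h, ex_sum]
  have h2 : ∀ a ∈ S, ex (fun _ => q) (fun A : Finset (Fin M) => ∑ b ∈ S, ind ({a} ∪ {b}) A) =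
      q + (S.card - 1) * q ^ 2 := by
    intro a ha
    rw [ex_sum]
    have h3 : ∀ b ∈ S, ex (fun _ => q) (ind ({a} ∪ {b} : Finset (Fin M))) =
        q ^ 2 + if a = b then q - q ^ 2 else 0 := by
      intro b _
      rw [ex_ind]
      by_cases hab : a = b
      · subst hab
        simp
      · have : ({a} ∪ {b} : Finset (Fin M)) = {a, b} := rfl
        rw [this, Finset.prod_const, Finset.card_pair hab, if_neg hab, add_zero]
    rw [Finset.sum_congr rfl h3, Finset.sum_add_distrib, Finset.sum_const, nsmul_eq_mul,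
      Finset.sum_ite_eq, if_pos ha]
    ring
  rw [Finset.sum_congr rfl h2, Finset.sum_const, nsmul_eq_mul]

/-- the variance -/
theorem ex_var {M : ℕ} (S : Finset (Fin M)) (q : ℝ) :
    ex (fun _ => q) (fun A : Finset (Fin M) => (((S ∩ A).card : ℝ) - S.card * q) ^ 2) ≤
      S.card * q := by
  have h : (fun A : Finset (Fin M) => (((S ∩ A).card : ℝ) - S.card * q) ^ 2) =
      fun A => ((((S ∩ A).card : ℝ) ^ 2 + (S.card * q) ^ 2) -
        (2 * (S.card * q)) * ((S ∩ A).card : ℝ)) := by
    funext A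
    ring
  rw [h, ex_sub, ex_add, ex_mul_left, ex_const, ex_sq, ex_card]
  have h1 : (0 : ℝ) ≤ S.card * q ^ 2 := by positivity
  nlinarith

/-- there is a good sub-palette -/
theorem exists_good {M n : ℕ} (W : Finset (Fin n)) (S : Fin n → Finset (Fin M)) (ε : ℝ)
    (r k : ℕ) (hε : 0 < ε) (hε2 : ε ≤ 1 / 2) (hr : 36 / ε ^ 4 < r) (hk : 2 * r ≤ k)
    (hS : ∀ v ∈ W, (S v).card = k) (hW : W.Nonempty) :
    ∃ A : Finset (Fin M), ((W.filter fun v => (S v ∩ A).card < r).card : ℝ) ≤ ε * W.card ∧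
      (A.card : ℝ) * k ≤ (1 + ε) * M * r := by
  by_contra hcon
  push Not at hcon
  have hr0 : (0 : ℝ) < r := lt_of_le_of_lt (by positivity) hr
  have hk0 : (0 : ℝ) < k := by
    have : (2 * r : ℝ) ≤ k := by exact_mod_cast hk
    linarith
  have hk2 : (2 * r : ℝ) ≤ k := by exact_mod_cast hk
  have hW0 : (0 : ℝ) < W.card := by exact_mod_cast hW.card_pos
  have hM0 : (0 : ℝ) < M := by
    obtain ⟨v, hv⟩ := hW
    have h1 : (S v).card ≤ M := by
      have := Finset.card_le_univ (S v)
      simpa using this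
    rw [hS v hv] at h1
    have : (k : ℝ) ≤ M := by exact_mod_cast h1
    linarith
  set q : ℝ := (1 + ε / 4) * r / k with hq
  have hq0 : 0 ≤ q := by positivity
  have hq1 : q ≤ 1 := by
    rw [hq, div_le_one hk0]
    nlinarith
  have hkq : (k : ℝ) * q = (1 + ε / 4) * r := by
    rw [hq]
    field_simp
  -- the pointwise inequality
  have hpt : ∀ A : Finset (Fin M), (1 : ℝ) ≤
      16 / (ε ^ 3 * r ^ 2 * W.card) * (∑ v ∈ W, (((S v ∩ A).card : ℝ) - (S v).card * q) ^ 2) +
        k / ((1 + ε) * M * r) * (((univ : Finset (Fin M)) ∩ A).card : ℝ) := by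
    intro A
    have hs0 : 0 ≤ 16 / (ε ^ 3 * r ^ 2 * W.card) *
        (∑ v ∈ W, (((S v ∩ A).card : ℝ) - (S v).card * q) ^ 2) := by positivity
    have hs1 : 0 ≤ k / ((1 + ε) * M * r) * (((univ : Finset (Fin M)) ∩ A).card : ℝ) := by
      positivity
    rw [Finset.univ_inter] at hs1 ⊢
    rcases le_or_gt ((W.filter fun v => (S v ∩ A).card < r).card : ℝ) (ε * W.card) with h | h
    · have h2 := hcon A h
      have h3 : 1 ≤ k / ((1 + ε) * M * r) * (A.card : ℝ) := by
        rw [div_mul_eq_mul_div, one_le_div (by positivity)]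
        linarith
      linarith
    · have h4 : (ε * r / 4) ^ 2 * ((W.filter fun v => (S v ∩ A).card < r).card : ℝ) ≤
          ∑ v ∈ W, (((S v ∩ A).card : ℝ) - (S v).card * q) ^ 2 := by
        calc (ε * r / 4) ^ 2 * ((W.filter fun v => (S v ∩ A).card < r).card : ℝ)
            = ∑ v ∈ W.filter (fun v => (S v ∩ A).card < r), (ε * r / 4) ^ 2 := by
              rw [Finset.sum_const, nsmul_eq_mul]
              ring
          _ ≤ ∑ v ∈ W.filter (fun v => (S v ∩ A).card < r),
              (((S v ∩ A).card : ℝ) - (S v).card * q) ^ 2 := by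
              refine Finset.sum_le_sum fun v hv => ?_
              rw [Finset.mem_filter] at hv
              have h5 : ((S v ∩ A).card : ℝ) < r := by exact_mod_cast hv.2
              rw [hS v hv.1, hkq]
              have h6 : (0 : ℝ) ≤ ε * r / 4 := by positivity
              nlinarith
          _ ≤ _ := Finset.sum_le_sum_of_subset_of_nonneg (Finset.filter_subset _ _)
              fun _ _ _ => sq_nonneg _
      have h7 : (1 : ℝ) ≤ 16 / (ε ^ 3 * r ^ 2 * W.card) *
          (∑ v ∈ W, (((S v ∩ A).card : ℝ) - (S v).card * q) ^ 2) := by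
        rw [div_mul_eq_mul_div, one_le_div (by positivity)]
        have h8 : (ε * r / 4) ^ 2 * (ε * W.card) ≤
            (ε * r / 4) ^ 2 * ((W.filter fun v => (S v ∩ A).card < r).card : ℝ) :=
          mul_le_mul_of_nonneg_left h.le (by positivity)
        have h9 : ε ^ 3 * r ^ 2 * W.card = 16 * ((ε * r / 4) ^ 2 * (ε * W.card)) := by ring
        rw [h9]
        linarith
      linarith
  have hex := ex_mono (π := fun _ : Fin M => q) (fun _ => hq0) (fun _ => hq1) hpt
  rw [ex_const, ex_add, ex_mul_left, ex_mul_left, ex_sum, ex_card] at hex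
  have hv : ∑ v ∈ W, ex (fun _ : Fin M => q)
      (fun A => (((S v ∩ A).card : ℝ) - (S v).card * q) ^ 2) ≤
      W.card * ((1 + ε / 4) * r) := by
    have hle : ∀ v ∈ W, ex (fun _ : Fin M => q)
        (fun A => (((S v ∩ A).card : ℝ) - (S v).card * q) ^ 2) ≤ (1 + ε / 4) * r := by
      intro v hv
      have h := ex_var (S v) q
      rw [hS v hv, hkq] at h
      rw [hS v hv, hkq]
      exact h
    refine (Finset.sum_le_sum hle).trans ?_
    rw [Finset.sum_const, nsmul_eq_mul]
  have h1 : 16 / (ε ^ 3 * r ^ 2 * W.card) * (∑ v ∈ W, ex (fun _ : Fin M => q)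
      (fun A => (((S v ∩ A).card : ℝ) - (S v).card * q) ^ 2)) ≤
      16 * (1 + ε / 4) / (ε ^ 3 * r) := by
    calc _ ≤ 16 / (ε ^ 3 * r ^ 2 * W.card) * (W.card * ((1 + ε / 4) * r)) :=
          mul_le_mul_of_nonneg_left hv (by positivity)
      _ = 16 * (1 + ε / 4) / (ε ^ 3 * r) := by
          field_simp
  have h2 : 16 * (1 + ε / 4) / (ε ^ 3 * r) < ε / 2 := by
    rw [div_lt_iff₀ (by positivity)]
    rw [div_lt_iff₀ (by positivity)] at hr
    nlinarith
  have h3 : k / ((1 + ε) * M * r) * (((univ : Finset (Fin M)).card : ℝ) * q) =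
      (1 + ε / 4) / (1 + ε) := by
    rw [Finset.card_univ, Fintype.card_fin, hq]
    field_simp
  have h4 : (1 + ε / 4) / (1 + ε) ≤ 1 - ε / 2 := by
    rw [div_le_iff₀ (by positivity)]
    nlinarith
  rw [h3] at hex
  linarith

end PAL_

theorem p_PAL : T_PAL := by
  intro ε hε hε2
  have hc : 36 / ε ^ 4 < (⌈41 / ε ^ 4⌉₊ : ℝ) := by
    refine lt_of_lt_of_le ?_ (Nat.le_ceil _)
    apply div_lt_div_of_pos_right (by norm_num) (by positivity)
  have hr1 : 1 ≤ ⌈41 / ε ^ 4⌉₊ := by
    rw [Nat.one_le_iff_ne_zero]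
    intro h0
    rw [h0] at hc
    have : 0 < 36 / ε ^ 4 := by positivity
    simp at hc
    linarith
  refine ⟨⌈41 / ε ^ 4⌉₊, hr1, ?_⟩
  generalize ⌈41 / ε ^ 4⌉₊ = r at hc hr1
  intro n k M W S hk hS
  rcases W.eq_empty_or_nonempty with hW | hW
  · refine ⟨∅, fun _ => ∅, ∅, by simp, by simp [hW], by simp, by simp, by simp, ?_⟩
    simp only [Finset.card_empty, Nat.cast_zero, zero_mul]
    positivity
  · obtain ⟨A, hA1, hA2⟩ := PAL_.exists_good W S ε r k hε hε2 hc hk hS hW
    have hex : ∀ v : Fin n, ∃ T : Finset (Fin M), T ⊆ S v ∩ A ∧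
        (r ≤ (S v ∩ A).card → T.card = r) := by
      intro v
      by_cases h : r ≤ (S v ∩ A).card
      · obtain ⟨T, hT, hT2⟩ := Finset.exists_subset_card_eq h
        exact ⟨T, hT, fun _ => hT2⟩
      · exact ⟨∅, by simp, fun h2 => absurd h2 h⟩
    choose T hT hT2 using hex
    refine ⟨W.filter fun v => ¬ (S v ∩ A).card < r, T, A, Finset.filter_subset _ _, ?_,
      fun v => (hT v).trans Finset.inter_subset_left,
      fun v => (hT v).trans Finset.inter_subset_right, ?_, hA2⟩
    · have h1 := Finset.card_filter_add_card_filter_not (s := W) (fun v => (S v ∩ A).card < r)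
      have h2 : ((W.filter fun v => (S v ∩ A).card < r).card : ℝ) +
          ((W.filter fun v => ¬ (S v ∩ A).card < r).card : ℝ) = W.card := by
        exact_mod_cast h1
      linarith
    · intro v hv
      rw [Finset.mem_filter] at hv
      exact hT2 v (not_lt.mp hv.2)

end Pool.Agent.THL
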