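import Pool.Agent.THL.Defs

set_option autoImplicit false

/-!
# THL, block PAT: the overlap sum (helper49)
-/

open Finset

namespace Pool.Agent.THL

namespace PAT_

/-- covering a sum by patterns -/
theorem sum_cover {ι κ : Type} (S : Finset ι) (K : Finset κ) (P : κ → ι → Prop)
    [∀ k, DecidablePred (P k)] (f : ι → ℝ)
    (hf : ∀ i ∈ S, 0 ≤ f i) (hc : ∀ i ∈ S, ∃ k ∈ K, P k i) (C : ℝ)
    (hC : ∀ k ∈ K, ∑ i ∈ S.filter (P k), f i ≤ C) : ∑ i ∈ S, f i ≤ K.card * C := by
  calc ∑ i ∈ S, f i ≤ ∑ i ∈ S, ∑ k ∈ K, (if P k i then f i else 0) := by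
        apply Finset.sum_le_sum
        intro i hi
        obtain ⟨k, hk, hP⟩ := hc i hi
        have h1 : (if P k i then f i else 0) ≤ ∑ k ∈ K, (if P k i then f i else 0) :=
          Finset.single_le_sum (f := fun k => if P k i then f i else 0)
            (fun k _ => by
              by_cases h : P k i
              · simp only [h, if_true]; exact hf i hi
              · simp only [h, if_false]; exact le_rfl) hk
        rw [if_pos hP] at h1
        exact h1
    _ = ∑ k ∈ K, ∑ i ∈ S, (if P k i then f i else 0) := Finset.sum_comm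
    _ = ∑ k ∈ K, ∑ i ∈ S.filter (P k), f i := by
        apply Finset.sum_congr rfl
        intro k _
        rw [Finset.sum_filter]
    _ ≤ ∑ _k ∈ K, C := Finset.sum_le_sum hC
    _ = K.card * C := by rw [Finset.sum_const, nsmul_eq_mul]

/-- the interval of positions -/
def FI (t b l : ℕ) : Finset (Fin (2 * t)) :=
  univ.filter (fun f : Fin (2 * t) => b ≤ f.1 ∧ f.1 ≤ b + l)

/-- prescribed vertices for a run -/
def w1 {V : Type} {t : ℕ} (z : Fin t → V × V) (b a : ℕ) (dir : Bool) (f : Fin (2 * t)) : V :=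
  if dir then (if h : a + (f.1 - b) < 2 * t then vx z ⟨a + (f.1 - b), h⟩ else vx z f)
  else (if h : a - (f.1 - b) < 2 * t then vx z ⟨a - (f.1 - b), h⟩ else vx z f)

/-- prescribed vertices for a general pattern -/
def w2 {V : Type} {t : ℕ} (z : Fin t → V × V) (h : Fin (2 * t) → Option (Fin (2 * t)))
    (f : Fin (2 * t)) : V :=
  match h f with
  | some j => vx z j
  | none => vx z f

/-- the positions of a general pattern -/
def F2 {t : ℕ} (h : Fin (2 * t) → Option (Fin (2 * t))) : Finset (Fin (2 * t)) :=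
  univ.filter fun f => (h f).isSome

theorem N0_le (t : ℕ) (F : Finset (Fin (2 * t))) : N0 t F ≤ t := by
  unfold N0
  exact (Finset.card_le_univ _).trans_eq (by simp)

section
variable {n t s : ℕ} {R : Fin n → Fin n → Prop} {p : ℝ}

open Classical in
/-- the sum over the structures with prescribed vertices -/
theorem sum_pat (hCF : T_CF) (hp : 0 < p) (hs : ∀ x y, R x y → R y x) (hd : ∀ x, dR R x ≤ s)
    (F : Finset (Fin (2 * t))) (w : Fin (2 * t) → Fin n) (S : Finset (Fin t → Fin n × Fin n))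
    (hS : ∀ z' ∈ S, z' ∈ AdmS R t ∧ ∀ f ∈ F, vx z' f = w f) :
    (S.card : ℝ) * p ^ (2 * t - F.card) ≤ (p ^ 2 * np R) ^ N0 t F * (p * s) ^ N1 t F := by
  refine le_trans ?_ (hCF n t s R p hp hs hd F w)
  have h1 : S.card ≤ ((AdmS R t).filter fun z => ∀ f ∈ F, vx z f = w f).card := by
    apply Finset.card_le_card
    intro z' hz'
    rw [Finset.mem_filter]
    exact hS z' hz'
  have h2 : (S.card : ℝ) ≤ (((AdmS R t).filter fun z => ∀ f ∈ F, vx z f = w f).card : ℝ) := by
    exact_mod_cast h1
  exact mul_le_mul_of_nonneg_right h2 (by positivity)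

end

end PAT_

open PAT_

theorem p_PAT : T_CF → T_BF → T_INT → T_IWT → T_RUN → T_PAT := by
  classical
  intro hCF hBF hINT hIWT hRUN n t s R p ht hp hp1 hs hd hps hρ z hz
  set ρ : ℝ := p ^ 2 * np R with hρdef
  set σ : ℝ := p * s with hσdef
  have hσ0 : 0 ≤ σ := by positivity
  have hinjz : Function.Injective (vx z) := by
    have := (Finset.mem_filter.1 hz).2
    exact this.2
  set S : Finset (Fin t → Fin n × Fin n) :=
    (AdmS R t).filter (fun z' => ¬ Disjoint (edg z) (edg z')) with hSdef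
  set f : (Fin t → Fin n × Fin n) → ℝ := fun z' => p ^ (2 * t - 1 - (edg z ∩ edg z').card) with hf
  have hf0 : ∀ z', 0 ≤ f z' := fun z' => by positivity
  -- facts on the members of the sum
  have hS : ∀ z' ∈ S, z' ∈ AdmS R t ∧ Function.Injective (vx z') ∧
      (edg z ∩ edg z').card = (BB z z').card ∧ (BB z z').Nonempty ∧
      (∀ g ∈ FF (BB z z'), ∃ j, vx z j = vx z' g) := by
    intro z' hz'
    obtain ⟨h1, h2⟩ := Finset.mem_filter.1 hz'
    have hinj : Function.Injective (vx z') := ((Finset.mem_filter.1 h1).2).2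
    obtain ⟨-, e2, e3, e4⟩ := hBF n t z z' hinjz hinj
    exact ⟨h1, hinj, e2, e3 h2, e4⟩
  -- type 1
  have hT1 : ∑ z' ∈ S.filter (fun z' => (FF (BB z z')).card ≤ (BB z z').card + 1), f z' ≤
      (univ : Finset (Fin (2 * t) × Fin (2 * t) × Fin (2 * t) × Bool)).card *
        (1 + ρ ^ t * σ ^ 2) := by
    apply sum_cover _ _ (fun (k : Fin (2 * t) × Fin (2 * t) × Fin (2 * t) × Bool) z' =>
      1 ≤ k.2.1.1 ∧ k.1.1 + k.2.1.1 < 2 * t ∧
      (∀ g ∈ FI t k.1.1 k.2.1.1, vx z' g = w1 z k.1.1 k.2.2.1.1 k.2.2.2 g) ∧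
      2 * t - 1 - (edg z ∩ edg z').card = 2 * t - (FI t k.1.1 k.2.1.1).card)
    · intro z' _
      exact hf0 z'
    · intro z' hz'
      obtain ⟨hz1, hz2⟩ := Finset.mem_filter.1 hz'
      obtain ⟨-, hinj, e2, e3, e4⟩ := hS z' hz1
      obtain ⟨c1, b, hb, hF, hB⟩ := hINT t (BB z z') e3 hz2
      have hl : 1 ≤ (BB z z').card := e3.card_pos
      obtain ⟨a, ha⟩ := hRUN n t z z' hinjz hinj b (BB z z').card hb hl (by
        intro g hg1 hg2
        rw [hB]
        simp only [Finset.mem_filter, Finset.mem_univ, true_and]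
        exact ⟨hg1, hg2⟩)
      have hbt : b < 2 * t := by omega
      have hlt : (BB z z').card < 2 * t := by omega
      have hbF : (⟨b, hbt⟩ : Fin (2 * t)).1 ≤ b + (BB z z').card := by simp
      have hat : a < 2 * t := by
        rcases ha with ha | ha
        · obtain ⟨h, -⟩ := ha ⟨b, hbt⟩ (by simp) hbF
          simp at h
          omega
        · obtain ⟨h, -⟩ := ha ⟨b, hbt⟩ (by simp) hbF
          exact h
      have hcard : 2 * t - 1 - (edg z ∩ edg z').card = 2 * t - (FI t b (BB z z').card).card := by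
        have : (FI t b (BB z z').card).card = (BB z z').card + 1 := by
          rw [← c1, hF]; rfl
        rw [e2, this]; omega
      rcases ha with ha | ha
      · refine ⟨(⟨b, hbt⟩, ⟨(BB z z').card, hlt⟩, ⟨a, hat⟩, true), Finset.mem_univ _, hl, hb,
          ?_, hcard⟩
        intro g hg
        simp only [FI, Finset.mem_filter, Finset.mem_univ, true_and] at hg
        obtain ⟨h, he⟩ := ha g hg.1 hg.2
        simp only [w1, if_true]
        rw [dif_pos h]
        exact he
      · refine ⟨(⟨b, hbt⟩, ⟨(BB z z').card, hlt⟩, ⟨a, hat⟩, false), Finset.mem_univ _, hl, hb,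
          ?_, hcard⟩
        intro g hg
        simp only [FI, Finset.mem_filter, Finset.mem_univ, true_and] at hg
        obtain ⟨h, h', he⟩ := ha g hg.1 hg.2
        have h3 : a - (g.1 - b) < 2 * t := by omega
        simp only [w1, Bool.false_eq_true, if_false]
        rw [dif_pos h3]
        exact he
    · rintro ⟨b, l, a, dir⟩ -
      by_cases hv : 1 ≤ l.1 ∧ b.1 + l.1 < 2 * t
      · set S' := (S.filter (fun z' => (FF (BB z z')).card ≤ (BB z z').card + 1)).filter
          (fun z' => 1 ≤ l.1 ∧ b.1 + l.1 < 2 * t ∧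
            (∀ g ∈ FI t b.1 l.1, vx z' g = w1 z b.1 a.1 dir g) ∧
            2 * t - 1 - (edg z ∩ edg z').card = 2 * t - (FI t b.1 l.1).card) with hS'
        have h1 : ∑ z' ∈ S', f z' = (S'.card : ℝ) * p ^ (2 * t - (FI t b.1 l.1).card) := by
          rw [← nsmul_eq_mul, ← Finset.sum_const]
          apply Finset.sum_congr rfl
          intro z' hz'
          have := (Finset.mem_filter.1 hz').2.2.2.2
          simp only [hf, this]
        have h2 : (S'.card : ℝ) * p ^ (2 * t - (FI t b.1 l.1).card) ≤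
            ρ ^ N0 t (FI t b.1 l.1) * σ ^ N1 t (FI t b.1 l.1) := by
          apply sum_pat hCF hp hs hd (FI t b.1 l.1) (w1 z b.1 a.1 dir)
          intro z' hz'
          obtain ⟨m1, m2⟩ := Finset.mem_filter.1 hz'
          obtain ⟨m3, -⟩ := Finset.mem_filter.1 m1
          exact ⟨(hS z' m3).1, m2.2.2.1⟩
        have h3 : ρ ^ N0 t (FI t b.1 l.1) * σ ^ N1 t (FI t b.1 l.1) ≤ 1 + ρ ^ t * σ ^ 2 :=
          hIWT t b.1 l.1 ρ σ hρ hσ0 hps hv.1 hv.2
        calc ∑ z' ∈ S', f z' = _ := h1
          _ ≤ _ := h2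
          _ ≤ _ := h3
      · have : (S.filter (fun z' => (FF (BB z z')).card ≤ (BB z z').card + 1)).filter
          (fun z' => 1 ≤ l.1 ∧ b.1 + l.1 < 2 * t ∧
            (∀ g ∈ FI t b.1 l.1, vx z' g = w1 z b.1 a.1 dir g) ∧
            2 * t - 1 - (edg z ∩ edg z').card = 2 * t - (FI t b.1 l.1).card) = ∅ := by
          apply Finset.filter_false_of_mem
          rintro z' - ⟨h1, h2, -⟩
          exact hv ⟨h1, h2⟩
        refine le_of_eq_of_le (Finset.sum_eq_zero (s := _) (f := f) ?_) (by positivity)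
        intro z' hz'
        exfalso
        have h4 := (Finset.mem_filter.1 hz').2
        exact hv ⟨h4.1, h4.2.1⟩
  -- type 2
  have hT2 : ∑ z' ∈ S.filter (fun z' => ¬ (FF (BB z z')).card ≤ (BB z z').card + 1), f z' ≤
      (univ : Finset (Fin (2 * t) → Option (Fin (2 * t)))).card * (p * ρ ^ t) := by
    apply sum_cover _ _ (fun (h : Fin (2 * t) → Option (Fin (2 * t))) z' =>
      (∀ g ∈ F2 h, vx z' g = w2 z h g) ∧
      2 * t + 1 - (F2 h).card ≤ 2 * t - 1 - (edg z ∩ edg z').card)
    · intro z' _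
      exact hf0 z'
    · intro z' hz'
      obtain ⟨hz1, hz2⟩ := Finset.mem_filter.1 hz'
      obtain ⟨-, hinj, e2, e3, e4⟩ := hS z' hz1
      let h : Fin (2 * t) → Option (Fin (2 * t)) := fun g =>
        if hg : g ∈ FF (BB z z') then some (Classical.choose (e4 g hg)) else none
      have hF : F2 h = FF (BB z z') := by
        ext g
        simp only [F2, Finset.mem_filter, Finset.mem_univ, true_and]
        by_cases hg : g ∈ FF (BB z z')
        · simp [h, hg]
        · simp [h, hg]
      refine ⟨h, Finset.mem_univ _, ?_, ?_⟩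
      · intro g hg
        rw [hF] at hg
        have e5 : h g = some (Classical.choose (e4 g hg)) := by simp only [h, dif_pos hg]
        simp only [w2, e5]
        exact (Classical.choose_spec (e4 g hg)).symm
      · rw [hF, e2]
        have := Finset.card_le_univ (FF (BB z z'))
        rw [Fintype.card_fin] at this
        omega
    · intro h _
      set S' := (S.filter (fun z' => ¬ (FF (BB z z')).card ≤ (BB z z').card + 1)).filter
          (fun z' => (∀ g ∈ F2 h, vx z' g = w2 z h g) ∧
            2 * t + 1 - (F2 h).card ≤ 2 * t - 1 - (edg z ∩ edg z').card) with hS'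
      have hFc : (F2 h).card ≤ 2 * t := by
        have := Finset.card_le_univ (F2 h)
        rwa [Fintype.card_fin] at this
      have h1 : ∑ z' ∈ S', f z' ≤ (S'.card : ℝ) * (p * p ^ (2 * t - (F2 h).card)) := by
        rw [← nsmul_eq_mul, ← Finset.sum_const]
        apply Finset.sum_le_sum
        intro z' hz'
        have h5 := (Finset.mem_filter.1 hz').2.2
        have h6 : p * p ^ (2 * t - (F2 h).card) = p ^ (2 * t + 1 - (F2 h).card) := by
          rw [← pow_succ']
          congr 1
          omega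
        rw [h6]
        exact pow_le_pow_of_le_one hp.le hp1 h5
      have h2 : (S'.card : ℝ) * p ^ (2 * t - (F2 h).card) ≤ ρ ^ N0 t (F2 h) * σ ^ N1 t (F2 h) := by
        apply sum_pat hCF hp hs hd (F2 h) (w2 z h)
        intro z' hz'
        obtain ⟨m1, m2⟩ := Finset.mem_filter.1 hz'
        obtain ⟨m3, -⟩ := Finset.mem_filter.1 m1
        exact ⟨(hS z' m3).1, m2.1⟩
      have h3 : ρ ^ N0 t (F2 h) * σ ^ N1 t (F2 h) ≤ ρ ^ t := by
        calc ρ ^ N0 t (F2 h) * σ ^ N1 t (F2 h) ≤ ρ ^ t * 1 := by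
              apply mul_le_mul (pow_le_pow_right₀ hρ (N0_le t _)) (pow_le_one₀ hσ0 hps)
                (pow_nonneg hσ0 _) (pow_nonneg (by linarith) _)
          _ = ρ ^ t := mul_one _
      calc ∑ z' ∈ S', f z' ≤ (S'.card : ℝ) * (p * p ^ (2 * t - (F2 h).card)) := h1
        _ = p * ((S'.card : ℝ) * p ^ (2 * t - (F2 h).card)) := by ring
        _ ≤ p * ρ ^ t := mul_le_mul_of_nonneg_left (h2.trans h3) hp.le
  have hsum := Finset.sum_filter_add_sum_filter_not S
    (fun z' => (FF (BB z z')).card ≤ (BB z z').card + 1) f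
  have hc1 : ((univ : Finset (Fin (2 * t) × Fin (2 * t) × Fin (2 * t) × Bool)).card : ℝ) =
      16 * t ^ 3 := by
    rw [Finset.card_univ]
    simp only [Fintype.card_prod, Fintype.card_fin, Fintype.card_bool]
    push_cast
    ring
  have hc2 : ((univ : Finset (Fin (2 * t) → Option (Fin (2 * t)))).card : ℝ) =
      (2 * t + 1) ^ (2 * t) := by
    rw [Finset.card_univ]
    simp only [Fintype.card_fun, Fintype.card_fin, Fintype.card_option]
    push_cast
    ring
  rw [hc1] at hT1
  rw [hc2] at hT2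
  unfold WW
  calc ∑ z' ∈ S, f z' = _ := hsum.symm
    _ ≤ _ := add_le_add hT1 hT2

end Pool.Agent.THL
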