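import Pool.Agent.THL.Defs

set_option autoImplicit false

/-!
# Along a run the second path follows the first one forwards or backwards
-/

open Finset

namespace Pool.Agent.THL

namespace RUN_

/-- a sequence with steps `+1` or `-1` that never turns back is monotone -/
theorem steps (l : ℕ) (φ : ℕ → ℕ)
    (hstep : ∀ r, r < l → φ (r + 1) = φ r + 1 ∨ φ r = φ (r + 1) + 1)
    (hne : ∀ r, r + 2 ≤ l → φ (r + 2) ≠ φ r) :
    (∀ r, r ≤ l → φ r = φ 0 + r) ∨ (∀ r, r ≤ l → φ 0 = φ r + r) := by
  by_cases hl : l = 0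
  · left
    intro r hr
    have : r = 0 := by omega
    subst this
    rfl
  rcases hstep 0 (by omega) with h | h
  · left
    have key : ∀ r, r + 1 ≤ l → φ r = φ 0 + r ∧ φ (r + 1) = φ 0 + (r + 1) := by
      intro r
      induction r with
      | zero => intro _; exact ⟨rfl, h⟩
      | succ r ih =>
        intro hr
        obtain ⟨h1, h2⟩ := ih (by omega)
        refine ⟨h2, ?_⟩
        have h4 : φ (r + 1 + 1) ≠ φ r := hne r (by omega)
        rcases hstep (r + 1) (by omega) with h3 | h3
        · omega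
        · omega
    intro r hr
    rcases Nat.lt_or_ge r l with h1 | h1
    · exact (key r (by omega)).1
    · have h2 := (key (l - 1) (by omega)).2
      have h3 : l - 1 + 1 = r := by omega
      rw [h3] at h2
      exact h2
  · right
    have key : ∀ r, r + 1 ≤ l → φ 0 = φ r + r ∧ φ 0 = φ (r + 1) + (r + 1) := by
      intro r
      induction r with
      | zero => intro _; exact ⟨rfl, h⟩
      | succ r ih =>
        intro hr
        obtain ⟨h1, h2⟩ := ih (by omega)
        refine ⟨h2, ?_⟩
        have h4 : φ (r + 1 + 1) ≠ φ r := hne r (by omega)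
        rcases hstep (r + 1) (by omega) with h3 | h3
        · omega
        · omega
    intro r hr
    rcases Nat.lt_or_ge r l with h1 | h1
    · exact (key r (by omega)).1
    · have h2 := (key (l - 1) (by omega)).2
      have h3 : l - 1 + 1 = r := by omega
      rw [h3] at h2
      exact h2

/-- an edge in `BB` gives consecutive positions -/
theorem edge_pos {n t : ℕ} (z z' : Fin t → Fin n × Fin n) (f : Fin (2 * t - 1))
    (hf : f ∈ BB z z') : ∃ (i j : ℕ) (hi : i < 2 * t) (hj : j < 2 * t),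
      vx z ⟨i, hi⟩ = vx z' ⟨f.1, by omega⟩ ∧ vx z ⟨j, hj⟩ = vx z' ⟨f.1 + 1, by omega⟩ ∧
      (j = i + 1 ∨ i = j + 1) := by
  rw [BB, mem_filter] at hf
  obtain ⟨q, -, hq⟩ := mem_image.1 hf.2
  simp only [ed, Sym2.eq_iff] at hq
  have hq1 := q.2
  rcases hq with ⟨h1, h2⟩ | ⟨h1, h2⟩
  · exact ⟨q.1, q.1 + 1, by omega, by omega, h1, h2, Or.inl rfl⟩
  · exact ⟨q.1 + 1, q.1, by omega, by omega, h2, h1, Or.inr rfl⟩

end RUN_

theorem p_RUN : T_RUN := by
  intro n t z z' hz hz' b l hb hl hB
  have hex : ∀ r : ℕ, ∃ i : ℕ, r ≤ l → ∃ hi : i < 2 * t, ∀ hr : b + r < 2 * t,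
      vx z ⟨i, hi⟩ = vx z' ⟨b + r, hr⟩ := by
    intro r
    by_cases hr : r ≤ l
    · rcases Nat.lt_or_ge r l with h | h
      · obtain ⟨i, j, hi, hj, h1, h2, h3⟩ := RUN_.edge_pos z z' ⟨b + r, by omega⟩
          (hB ⟨b + r, by omega⟩ (by simp) (by simp; omega))
        exact ⟨i, fun _ => ⟨hi, fun _ => h1⟩⟩
      · have hrl : r = l := by omega
        subst hrl
        obtain ⟨i, j, hi, hj, h1, h2, h3⟩ := RUN_.edge_pos z z' ⟨b + (r - 1), by omega⟩
          (hB ⟨b + (r - 1), by omega⟩ (by simp) (by simp; omega))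
        refine ⟨j, fun _ => ⟨hj, fun hr' => ?_⟩⟩
        rw [h2]
        congr 1
        apply Fin.ext
        simp only
        omega
    · exact ⟨0, fun h => absurd h hr⟩
  choose φ hφ using hex
  have hstep : ∀ r, r < l → φ (r + 1) = φ r + 1 ∨ φ r = φ (r + 1) + 1 := by
    intro r hr
    obtain ⟨i, j, hi, hj, h1, h2, h3⟩ := RUN_.edge_pos z z' ⟨b + r, by omega⟩
      (hB ⟨b + r, by omega⟩ (by simp) (by simp; omega))
    obtain ⟨hi', h4⟩ := hφ r (by omega)
    obtain ⟨hj', h5⟩ := hφ (r + 1) (by omega)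
    have h6 : φ r = i := by
      have := hz ((h4 (by omega)).trans h1.symm)
      simpa using congrArg Fin.val this
    have h7 : φ (r + 1) = j := by
      have := hz ((h5 (by omega)).trans h2.symm)
      simpa using congrArg Fin.val this
    omega
  have hne : ∀ r, r + 2 ≤ l → φ (r + 2) ≠ φ r := by
    intro r hr heq
    obtain ⟨hi', h4⟩ := hφ r (by omega)
    obtain ⟨hj', h5⟩ := hφ (r + 2) (by omega)
    have h6 : vx z' ⟨b + (r + 2), by omega⟩ = vx z' ⟨b + r, by omega⟩ := by
      rw [← h4 (by omega), ← h5 (by omega)]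
      congr 1
      apply Fin.ext
      exact heq
    have h7 := congrArg Fin.val (hz' h6)
    simp only at h7
    omega
  obtain ⟨h0, h00⟩ := hφ 0 (by omega)
  refine ⟨φ 0, ?_⟩
  rcases RUN_.steps l φ hstep hne with h | h
  · left
    intro f hf1 hf2
    obtain ⟨hi, h4⟩ := hφ (f.1 - b) (by omega)
    have h5 := h (f.1 - b) (by omega)
    refine ⟨by omega, ?_⟩
    have h6 := h4 (by omega)
    have h7 : (⟨b + (f.1 - b), by omega⟩ : Fin (2 * t)) = f := by
      apply Fin.ext
      simp only
      omega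
    rw [h7] at h6
    rw [← h6]
    congr 1
    apply Fin.ext
    exact h5
  · right
    intro f hf1 hf2
    obtain ⟨hi, h4⟩ := hφ (f.1 - b) (by omega)
    have h5 := h (f.1 - b) (by omega)
    refine ⟨h0, by omega, ?_⟩
    have h6 := h4 (by omega)
    have h7 : (⟨b + (f.1 - b), by omega⟩ : Fin (2 * t)) = f := by
      apply Fin.ext
      simp only
      omega
    rw [h7] at h6
    rw [← h6]
    congr 1
    apply Fin.ext
    simp only
    omega

end Pool.Agent.THL
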