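import Pool.Agent.THL.Defs

set_option autoImplicit false

/-!
# THL: cutting the classes of a colouring (block SEL1)
-/

open Finset

namespace Pool.Agent.THL

namespace SEL1_

theorem exists_rank {α : Type} [DecidableEq α] (K : Finset α) :
    ∃ ρ : α → ℕ, Set.InjOn ρ K ∧ K.image ρ = range K.card := by
  refine ⟨fun v => if h : v ∈ K then (K.equivFin ⟨v, h⟩).val else 0, ?_, ?_⟩
  · intro u hu v hv h
    have hu' : u ∈ K := hu
    have hv' : v ∈ K := hv
    simp only [dif_pos hu', dif_pos hv'] at h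
    have h2 := K.equivFin.injective (Fin.ext h)
    exact congrArg Subtype.val h2
  · ext i
    rw [mem_image, mem_range]
    constructor
    · rintro ⟨v, hv, rfl⟩
      rw [dif_pos hv]
      exact (K.equivFin ⟨v, hv⟩).2
    · intro hi
      refine ⟨(K.equivFin.symm ⟨i, hi⟩).1, (K.equivFin.symm ⟨i, hi⟩).2, ?_⟩
      rw [dif_pos (K.equivFin.symm ⟨i, hi⟩).2]
      simp

/-- number of pairs in the same block -/
def FB (m s : ℕ) : ℕ := ((range m ×ˢ range m).filter fun q => q.1 / s = q.2 / s).card

theorem FB_small (m s : ℕ) (h : m ≤ s) : FB m s = m * m := by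
  rw [FB, filter_true_of_mem, card_product, card_range]
  rintro ⟨i, j⟩ hq
  rw [mem_product, mem_range, mem_range] at hq
  rw [Nat.div_eq_of_lt (by omega), Nat.div_eq_of_lt (by omega)]

theorem FB_large (m s : ℕ) (hs : 0 < s) : m / s * (s * s) ≤ FB m s := by
  have h1 : m / s * (s * s) = (range (m / s) ×ˢ (range s ×ˢ range s)).card := by
    simp [card_product]
  rw [h1, FB]
  apply card_le_card_of_injOn (fun q => (q.1 * s + q.2.1, q.1 * s + q.2.2))
  · rintro ⟨j, a, b⟩ hq
    simp only [coe_product, coe_range, Set.mem_prod, Set.mem_Iio] at hq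
    obtain ⟨hj, ha, hb⟩ := hq
    have h2 : j * s + s ≤ m := by
      have h3 : (j + 1) * s ≤ m / s * s := Nat.mul_le_mul_right s hj
      have h4 := Nat.div_mul_le_self m s
      have h5 : (j + 1) * s = j * s + s := by ring
      omega
    have e1 : (j * s + a) / s = j := by
      rw [mul_comm, Nat.mul_add_div hs, Nat.div_eq_of_lt ha, add_zero]
    have e2 : (j * s + b) / s = j := by
      rw [mul_comm, Nat.mul_add_div hs, Nat.div_eq_of_lt hb, add_zero]
    simp only [coe_filter, mem_product, mem_range, Set.mem_setOf_eq]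
    refine ⟨⟨by omega, by omega⟩, ?_⟩
    rw [e1, e2]
  · rintro ⟨j, a, b⟩ hq ⟨j', a', b'⟩ hq' h
    simp only [coe_product, coe_range, Set.mem_prod, Set.mem_Iio] at hq hq'
    obtain ⟨hj, ha, hb⟩ := hq
    obtain ⟨hj', ha', hb'⟩ := hq'
    simp only [Prod.mk.injEq] at h
    obtain ⟨h1, h2⟩ := h
    have e1 : (j * s + a) / s = j := by
      rw [mul_comm, Nat.mul_add_div hs, Nat.div_eq_of_lt ha, add_zero]
    have e2 : (j' * s + a') / s = j' := by
      rw [mul_comm, Nat.mul_add_div hs, Nat.div_eq_of_lt ha', add_zero]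
    have e3 : j = j' := by rw [← e1, ← e2, h1]
    subst e3
    have e4 : a = a' := by omega
    have e5 : b = b' := by omega
    rw [e4, e5]

theorem FB_bound (m s : ℕ) (hs : 0 < s) (l : ℝ) (hl : 0 ≤ l) (h4 : 4 * l ≤ s) :
    2 * l * m - l ^ 2 ≤ FB m s := by
  rcases le_or_gt m s with h | h
  · rw [FB_small m s h]
    push_cast
    nlinarith [sq_nonneg ((m : ℝ) - l)]
  · have h1 : ((m / s * (s * s) : ℕ) : ℝ) ≤ FB m s := by exact_mod_cast FB_large m s hs
    refine le_trans ?_ h1
    have hq : 1 ≤ m / s := (Nat.one_le_div_iff hs).mpr h.le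
    have h2 : m < (m / s + 1) * s := by
      have := Nat.lt_mul_div_succ m hs
      rw [mul_comm]
      exact this
    have h3 : m ≤ 2 * (m / s * s) := by
      have h5 : (m / s + 1) * s = m / s * s + s := by ring
      have h6 : 1 * s ≤ m / s * s := Nat.mul_le_mul_right s hq
      omega
    have h3' : (m : ℝ) ≤ 2 * (((m / s : ℕ) : ℝ) * s) := by exact_mod_cast h3
    push_cast
    have h7 : (0 : ℝ) ≤ m := Nat.cast_nonneg m
    have h8 : (0 : ℝ) < s := by exact_mod_cast hs
    nlinarith [mul_nonneg hl h7, sq_nonneg l, mul_le_mul_of_nonneg_right h4 h7,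
      mul_le_mul_of_nonneg_right h3' h8.le]

end SEL1_

open SEL1_ in
open Classical in
theorem p_SEL1 : T_SEL1 := by
  intro n M s W c C hC hM hs
  rcases Nat.eq_zero_or_pos s with hs0 | hs0
  · subst hs0
    have hW : (W.card : ℝ) ≤ 0 := by
      have := hs
      push_cast at this
      linarith
    have hW0 : W.card = 0 := by
      have h0 : (0 : ℝ) ≤ W.card := Nat.cast_nonneg _
      exact_mod_cast le_antisymm hW h0
    refine ⟨fun _ => none, fun v h => absurd rfl h, fun u v h => absurd rfl h.2, fun a => ?_, ?_⟩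
    · simp [cl]
    · rw [hW0]
      push_cast
      have : (0 : ℝ) ≤ np (Same (fun _ : Fin n => (none : Option (Fin n)))) := Nat.cast_nonneg _
      nlinarith
  let K : Fin M → Finset (Fin n) := fun a => W.filter fun u => c u = a
  choose ρ hρ1 hρ2 using fun a : Fin M => exists_rank (K a)
  let q : Fin n → ℕ := fun v => ρ (c v) v / s
  let rep : Fin M → ℕ → Option (Fin n) := fun a j =>
    if h : ∃ u, u ∈ W ∧ c u = a ∧ q u = j then some h.choose else none
  let g : Fin n → Option (Fin n) := fun v => if v ∈ W then rep (c v) (q v) else none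
  have hg : ∀ v ∈ W, ∃ u, g v = some u ∧ u ∈ W ∧ c u = c v ∧ q u = q v := by
    intro v hv
    have h : ∃ u, u ∈ W ∧ c u = c v ∧ q u = q v := ⟨v, hv, rfl, rfl⟩
    refine ⟨h.choose, ?_, h.choose_spec⟩
    show (if v ∈ W then rep (c v) (q v) else none) = _
    rw [if_pos hv]
    exact dif_pos h
  have hgW : ∀ v, g v ≠ none → v ∈ W := by
    intro v hv
    by_contra hn
    exact hv (if_neg hn)
  have hsame : ∀ x y, Same g x y ↔ x ∈ W ∧ y ∈ W ∧ c x = c y ∧ q x = q y := by
    intro x y
    constructor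
    · rintro ⟨h1, h2⟩
      have hx := hgW x h2
      have hy := hgW y (by rw [← h1]; exact h2)
      obtain ⟨u, hu1, hu2, hu3, hu4⟩ := hg x hx
      obtain ⟨v, hv1, hv2, hv3, hv4⟩ := hg y hy
      rw [hu1, hv1] at h1
      have h3 : u = v := Option.some.inj h1
      subst h3
      exact ⟨hx, hy, by rw [← hu3, hv3], by rw [← hu4, hv4]⟩
    · rintro ⟨hx, hy, h1, h2⟩
      refine ⟨?_, ?_⟩
      · show (if x ∈ W then rep (c x) (q x) else none) = (if y ∈ W then rep (c y) (q y) else none)
        rw [if_pos hx, if_pos hy, h1, h2]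
      · obtain ⟨u, hu1, -⟩ := hg x hx
        rw [hu1]
        exact Option.some_ne_none u
  refine ⟨g, hgW, fun u v h => ((hsame u v).1 h).2.2.1, fun a => ?_, ?_⟩
  · -- the pieces are small
    rw [cl]
    rcases (univ.filter fun v => g v = some a).eq_empty_or_nonempty with h0 | ⟨v0, hv0⟩
    · rw [h0]; simp
    · rw [mem_filter] at hv0
      have key : ∀ v ∈ univ.filter (fun v => g v = some a),
          v ∈ K (c v0) ∧ ρ (c v0) v / s = ρ (c v0) v0 / s := by
        intro v hv
        rw [mem_filter] at hv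
        have h1 : Same g v v0 := ⟨by rw [hv.2, hv0.2], by rw [hv.2]; exact Option.some_ne_none a⟩
        obtain ⟨h2, -, h3, h4⟩ := (hsame v v0).1 h1
        refine ⟨mem_filter.2 ⟨h2, h3⟩, ?_⟩
        have h5 : ρ (c v) v / s = ρ (c v0) v0 / s := h4
        rwa [h3] at h5
      have h6 : (univ.filter fun v => g v = some a).card ≤
          (Finset.Ico (ρ (c v0) v0 / s * s) (ρ (c v0) v0 / s * s + s)).card := by
        apply card_le_card_of_injOn (ρ (c v0))
        · intro v hv
          obtain ⟨-, h7⟩ := key v hv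
          rw [coe_Ico, Set.mem_Ico, ← h7]
          have h8 := Nat.div_add_mod (ρ (c v0) v) s
          have h9 := Nat.mod_lt (ρ (c v0) v) hs0
          rw [mul_comm] at h8
          omega
        · intro u hu v hv h
          exact hρ1 (c v0) (key u hu).1 (key v hv).1 h
      rw [Nat.card_Ico] at h6
      omega
  · -- counting
    have hcount : ∑ a : Fin M, FB (K a).card s ≤ np (Same g) := by
      rw [np, card_eq_sum_card_fiberwise (f := fun p : Fin n × Fin n => c p.1)
        (t := (univ : Finset (Fin M))) (fun _ _ => mem_coe.2 (mem_univ _))]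
      apply sum_le_sum
      intro a _
      rw [FB]
      refine le_trans (card_le_card ?_) (card_image_le (f := fun p : Fin n × Fin n =>
        (ρ a p.1, ρ a p.2)))
      rintro ⟨i, j⟩ hij
      rw [mem_filter, mem_product] at hij
      obtain ⟨⟨hi, hj⟩, h1⟩ := hij
      rw [← hρ2 a, mem_image] at hi hj
      obtain ⟨x, hx, hxi⟩ := hi
      obtain ⟨y, hy, hyj⟩ := hj
      rw [mem_image]
      refine ⟨(x, y), ?_, ?_⟩
      · rw [mem_filter, mem_filter]
        have hx' := mem_filter.1 hx
        have hy' := mem_filter.1 hy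
        refine ⟨⟨mem_univ _, (hsame x y).2 ⟨hx'.1, hy'.1, by rw [hx'.2, hy'.2], ?_⟩⟩, hx'.2⟩
        show ρ (c x) x / s = ρ (c y) y / s
        rw [hx'.2, hy'.2, hxi, hyj]
        exact h1
      · simp only [hxi, hyj]
    have hsum : ∑ a : Fin M, ((K a).card : ℝ) = W.card := by
      have h1 : W.card = ∑ a : Fin M, (K a).card :=
        card_eq_sum_card_fiberwise (fun _ _ => mem_coe.2 (mem_univ _))
      rw [h1]
      push_cast
      rfl
    set l : ℝ := W.card / C with hl
    have hl0 : 0 ≤ l := div_nonneg (Nat.cast_nonneg _) hC.le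
    have hl1 : l * C = W.card := div_mul_cancel₀ _ hC.ne'
    have hl4 : 4 * l ≤ s := by
      rw [hl, ← mul_div_assoc, div_le_iff₀ hC, mul_comm (s : ℝ) C]
      exact hs
    have h2 : 2 * l * W.card - M * l ^ 2 ≤ np (Same g) := by
      calc 2 * l * W.card - M * l ^ 2 = ∑ a : Fin M, (2 * l * ((K a).card : ℝ) - l ^ 2) := by
            rw [sum_sub_distrib, ← mul_sum, hsum]
            simp
        _ ≤ ∑ a : Fin M, (FB (K a).card s : ℝ) :=
            sum_le_sum fun a _ => FB_bound (K a).card s hs0 l hl0 hl4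
        _ ≤ np (Same g) := by exact_mod_cast hcount
    have h3 : (M : ℝ) * l ^ 2 ≤ C * l ^ 2 := mul_le_mul_of_nonneg_right hM (sq_nonneg l)
    have h4 : C * (2 * l * W.card - C * l ^ 2) = (W.card : ℝ) ^ 2 := by
      have : C * (2 * l * W.card - C * l ^ 2) = 2 * (l * C) * W.card - (l * C) ^ 2 := by ring
      rw [this, hl1]; ring
    calc (W.card : ℝ) ^ 2 = C * (2 * l * W.card - C * l ^ 2) := h4.symm
      _ ≤ C * np (Same g) := mul_le_mul_of_nonneg_left (by linarith) hC.le

end Pool.Agent.THL
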