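import Pool.Agent.THL.Defs2
import Pool.Agent.THL.SEL1

set_option autoImplicit false

/-!
# THL: cutting the classes of a family of sets (block SELR)
-/

open Finset

namespace Pool.Agent.THL

namespace SELR_

open SEL1_ in
open Classical in
theorem core (n r r' M s : ℕ) (W : Finset (Fin n)) (S : Fin n → Finset (Fin M))
    (Q : Finset (Fin M)) (C : ℝ) (hC : 0 < C) (hr : 1 ≤ r) (hrr : r ≤ r')
    (hS : ∀ v ∈ W, (S v).card = r) (hQ : ∀ v ∈ W, S v ⊆ Q) (hQc : (Q.card : ℝ) ≤ C * r)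
    (hs : 4 * (W.card : ℝ) ≤ C * s) :
    ∃ S' : Fin n → Finset (Fin (r' * n)), (∀ v, (S' v).card ≤ r) ∧ (∀ v, v ∉ W → S' v = ∅) ∧
      (∀ b v₀, b ∈ S' v₀ → ∃ a, ∀ v, b ∈ S' v → a ∈ S v) ∧
      (∀ b, (univ.filter fun v => b ∈ S' v).card ≤ s) ∧
      (W.card : ℝ) ^ 2 ≤ C * np (Meet S') := by
  rcases Nat.eq_zero_or_pos s with hs0 | hs0
  · subst hs0
    have hW : (W.card : ℝ) ≤ 0 := by
      have := hs
      push_cast at this
      linarith
    have hW0 : W.card = 0 := by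
      have h0 : (0 : ℝ) ≤ W.card := Nat.cast_nonneg _
      exact_mod_cast le_antisymm hW h0
    refine ⟨fun _ => ∅, fun v => by simp, fun v _ => rfl,
      fun b v₀ h => absurd h (notMem_empty b), fun b => by simp, ?_⟩
    rw [hW0]
    push_cast
    have : (0 : ℝ) ≤ np (Meet (fun _ : Fin n => (∅ : Finset (Fin (r' * n))))) :=
      Nat.cast_nonneg _
    nlinarith
  let K : Fin M → Finset (Fin n) := fun a => W.filter fun u => a ∈ S u
  choose ρ hρ1 hρ2 using fun a : Fin M => exists_rank (K a)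
  let PP : Finset (Fin M × ℕ) := W.biUnion fun v => (S v).image fun a => (a, ρ a v / s)
  have hPm : ∀ v ∈ W, ∀ a ∈ S v, (a, ρ a v / s) ∈ PP := fun v hv a ha =>
    mem_biUnion.2 ⟨v, hv, mem_image.2 ⟨a, ha, rfl⟩⟩
  have hPP : PP.card ≤ r' * n := by
    calc PP.card ≤ ∑ v ∈ W, ((S v).image fun a => (a, ρ a v / s)).card := card_biUnion_le
      _ ≤ ∑ v ∈ W, r := sum_le_sum fun v hv => card_image_le.trans (hS v hv).le
      _ = W.card * r := by rw [sum_const, smul_eq_mul]
      _ ≤ n * r' := Nat.mul_le_mul (by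
          have := card_le_univ W
          rwa [Fintype.card_fin] at this) hrr
      _ = r' * n := mul_comm _ _
  obtain ⟨φ, hφ1, hφ2⟩ := exists_rank PP
  have hφ3 : ∀ q ∈ PP, φ q < r' * n := by
    intro q hq
    have h1 : φ q ∈ range PP.card := by
      rw [← hφ2]
      exact mem_image_of_mem φ hq
    rw [mem_range] at h1
    exact lt_of_lt_of_le h1 hPP
  let S' : Fin n → Finset (Fin (r' * n)) := fun v =>
    univ.filter fun b => v ∈ W ∧ ∃ a ∈ S v, φ (a, ρ a v / s) = b.1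
  have hS' : ∀ v b, b ∈ S' v ↔ v ∈ W ∧ ∃ a ∈ S v, φ (a, ρ a v / s) = b.1 := by
    intro v b
    simp only [S', mem_filter, mem_univ, true_and]
  have hkey : ∀ b v₀ a₀, v₀ ∈ W → a₀ ∈ S v₀ → φ (a₀, ρ a₀ v₀ / s) = b.1 → ∀ v, b ∈ S' v →
      v ∈ K a₀ ∧ ρ a₀ v / s = ρ a₀ v₀ / s := by
    intro b v₀ a₀ h1 h2 h3 v hv
    obtain ⟨h4, a, h5, h6⟩ := (hS' v b).1 hv
    have h7 : (a, ρ a v / s) = (a₀, ρ a₀ v₀ / s) :=
      hφ1 (hPm v h4 a h5) (hPm v₀ h1 a₀ h2) (by rw [h6, h3])
    rw [Prod.mk.injEq] at h7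
    obtain ⟨h8, h9⟩ := h7
    subst h8
    exact ⟨mem_filter.2 ⟨h4, h5⟩, h9⟩
  refine ⟨S', fun v => ?_, fun v hv => ?_, fun b v₀ hb => ?_, fun b => ?_, ?_⟩
  · by_cases hv : v ∈ W
    · rw [← hS v hv, ← card_image_of_injective (S' v) Fin.val_injective]
      refine le_trans (card_le_card ?_) (card_image_le (s := S v)
        (f := fun a => φ (a, ρ a v / s)))
      intro i hi
      rw [mem_image] at hi
      obtain ⟨b, hb, rfl⟩ := hi
      obtain ⟨-, a, h1, h2⟩ := (hS' v b).1 hb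
      exact mem_image.2 ⟨a, h1, h2⟩
    · have : S' v = ∅ := by
        rw [eq_empty_iff_forall_notMem]
        exact fun b hb => hv ((hS' v b).1 hb).1
      rw [this, card_empty]
      exact Nat.zero_le r
  · rw [eq_empty_iff_forall_notMem]
    exact fun b hb => hv ((hS' v b).1 hb).1
  · obtain ⟨h1, a₀, h2, h3⟩ := (hS' v₀ b).1 hb
    exact ⟨a₀, fun v hv => (mem_filter.1 (hkey b v₀ a₀ h1 h2 h3 v hv).1).2⟩
  · rcases (univ.filter fun v => b ∈ S' v).eq_empty_or_nonempty with h0 | ⟨v0, hv0⟩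
    · rw [h0]; simp
    · rw [mem_filter] at hv0
      obtain ⟨h1, a₀, h2, h3⟩ := (hS' v0 b).1 hv0.2
      have key := hkey b v0 a₀ h1 h2 h3
      have h6 : (univ.filter fun v => b ∈ S' v).card ≤
          (Finset.Ico (ρ a₀ v0 / s * s) (ρ a₀ v0 / s * s + s)).card := by
        apply card_le_card_of_injOn (ρ a₀)
        · intro v hv
          obtain ⟨-, h7⟩ := key v (mem_filter.1 (mem_coe.1 hv)).2
          rw [coe_Ico, Set.mem_Ico, ← h7]
          have h8 := Nat.div_add_mod (ρ a₀ v) s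
          have h9 := Nat.mod_lt (ρ a₀ v) hs0
          rw [mul_comm] at h8
          omega
        · intro u hu v hv h
          exact hρ1 a₀ (key u (mem_filter.1 (mem_coe.1 hu)).2).1
            (key v (mem_filter.1 (mem_coe.1 hv)).2).1 h
      rw [Nat.card_Ico] at h6
      omega
  · -- counting
    let R : Fin M → Fin n × Fin n → Prop := fun a q =>
      q.1 ∈ K a ∧ q.2 ∈ K a ∧ ρ a q.1 / s = ρ a q.2 / s
    have c1 : ∑ a : Fin M, FB (K a).card s ≤ ∑ a : Fin M, (univ.filter (R a)).card := by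
      apply sum_le_sum
      intro a _
      rw [FB]
      refine le_trans (card_le_card ?_) (card_image_le (f := fun p : Fin n × Fin n =>
        (ρ a p.1, ρ a p.2)))
      rintro ⟨i, j⟩ hij
      rw [mem_filter, mem_product] at hij
      obtain ⟨⟨hi, hj⟩, h1⟩ := hij
      rw [← hρ2 a, mem_image] at hi hj
      obtain ⟨x, hx, hxi⟩ := hi
      obtain ⟨y, hy, hyj⟩ := hj
      rw [mem_image]
      refine ⟨(x, y), ?_, ?_⟩
      · rw [mem_filter]
        refine ⟨mem_univ _, hx, hy, ?_⟩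
        show ρ a x / s = ρ a y / s
        rw [hxi, hyj]
        exact h1
      · simp only [hxi, hyj]
    have c2 : ∑ a : Fin M, (univ.filter (R a)).card =
        ∑ q : Fin n × Fin n, (univ.filter fun a => R a q).card :=
      sum_card_bipartiteAbove_eq_sum_card_bipartiteBelow R
    have c3 : ∑ q : Fin n × Fin n, (univ.filter fun a => R a q).card ≤
        ∑ q : Fin n × Fin n, if Meet S' q.1 q.2 then r else 0 := by
      apply sum_le_sum
      rintro ⟨x, y⟩ _
      rcases (univ.filter fun a => R a (x, y)).eq_empty_or_nonempty with h0 | ⟨a, ha⟩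
      · rw [h0, card_empty]
        exact Nat.zero_le _
      · rw [mem_filter] at ha
        obtain ⟨-, hx, hy, hxy⟩ := ha
        have hx1 := mem_filter.1 hx
        have hy1 := mem_filter.1 hy
        have hm : Meet S' x y := by
          refine ⟨⟨φ (a, ρ a x / s), hφ3 _ (hPm x hx1.1 a hx1.2)⟩, ?_⟩
          rw [mem_inter]
          refine ⟨(hS' x _).2 ⟨hx1.1, a, hx1.2, rfl⟩, (hS' y _).2 ⟨hy1.1, a, hy1.2, ?_⟩⟩
          have hxy' : ρ a x / s = ρ a y / s := hxy
          rw [← hxy']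
        rw [if_pos hm, ← hS x hx1.1]
        apply card_le_card
        intro b hb
        exact (mem_filter.1 (mem_filter.1 hb).2.1).2
    have c4 : ∑ q : Fin n × Fin n, (if Meet S' q.1 q.2 then r else 0) = r * np (Meet S') := by
      rw [← sum_filter, sum_const, smul_eq_mul, np, mul_comm]
    have hcount : ∑ a : Fin M, FB (K a).card s ≤ r * np (Meet S') := by
      rw [← c4]
      exact c1.trans (c2.le.trans c3)
    have hcQ : ∑ a ∈ Q, FB (K a).card s ≤ r * np (Meet S') :=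
      (sum_le_sum_of_subset (subset_univ Q)).trans hcount
    have hsum : ∑ a ∈ Q, (K a).card = r * W.card := by
      have h1 : ∑ a ∈ Q, (K a).card = ∑ u ∈ W, (Q.filter fun a => a ∈ S u).card :=
        sum_card_bipartiteAbove_eq_sum_card_bipartiteBelow (fun (a : Fin M) (u : Fin n) =>
          a ∈ S u)
      rw [h1]
      have h2 : ∀ u ∈ W, (Q.filter fun a => a ∈ S u).card = r := by
        intro u hu
        rw [← hS u hu]
        congr 1
        ext a
        rw [mem_filter]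
        exact ⟨fun h => h.2, fun h => ⟨hQ u hu h, h⟩⟩
      rw [sum_congr rfl h2, sum_const, smul_eq_mul, mul_comm]
    have hsum' : ∑ a ∈ Q, ((K a).card : ℝ) = r * W.card := by exact_mod_cast hsum
    set l : ℝ := W.card / C with hl
    have hl0 : 0 ≤ l := div_nonneg (Nat.cast_nonneg _) hC.le
    have hl1 : l * C = W.card := div_mul_cancel₀ _ hC.ne'
    have hl4 : 4 * l ≤ s := by
      rw [hl, ← mul_div_assoc, div_le_iff₀ hC, mul_comm (s : ℝ) C]
      exact hs
    have h2 : 2 * l * (r * W.card) - Q.card * l ^ 2 ≤ r * np (Meet S') := by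
      calc 2 * l * (r * W.card) - Q.card * l ^ 2 =
            ∑ a ∈ Q, (2 * l * ((K a).card : ℝ) - l ^ 2) := by
            rw [sum_sub_distrib, ← mul_sum, hsum']
            simp
        _ ≤ ∑ a ∈ Q, (FB (K a).card s : ℝ) :=
            sum_le_sum fun a _ => FB_bound (K a).card s hs0 l hl0 hl4
        _ ≤ r * np (Meet S') := by exact_mod_cast hcQ
    have h3 : (Q.card : ℝ) * l ^ 2 ≤ C * r * l ^ 2 :=
      mul_le_mul_of_nonneg_right hQc (sq_nonneg l)
    have hr0 : (0 : ℝ) < r := by exact_mod_cast hr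
    have h5 : (r : ℝ) * (2 * l * W.card - C * l ^ 2) ≤ r * np (Meet S') := by
      refine le_trans ?_ h2
      linarith
    have h6 : 2 * l * W.card - C * l ^ 2 ≤ np (Meet S') := le_of_mul_le_mul_left h5 hr0
    have h4 : C * (2 * l * W.card - C * l ^ 2) = (W.card : ℝ) ^ 2 := by
      have : C * (2 * l * W.card - C * l ^ 2) = 2 * (l * C) * W.card - (l * C) ^ 2 := by ring
      rw [this, hl1]; ring
    calc (W.card : ℝ) ^ 2 = C * (2 * l * W.card - C * l ^ 2) := h4.symm
      _ ≤ C * np (Meet S') := mul_le_mul_of_nonneg_left h6 hC.le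

end SELR_

/-- SELR for a nonempty palette (`T_SELR` with the hypothesis `1 ≤ M`) -/
def T_SELRM : Prop := ∀ (n r r' M s : ℕ) (W : Finset (Fin n)) (S : Fin n → Finset (Fin M))
    (Q : Finset (Fin M)) (C : ℝ), 0 < C → 1 ≤ M → 1 ≤ r → r ≤ r' → (∀ v ∈ W, (S v).card = r) →
    (∀ v ∈ W, S v ⊆ Q) → (Q.card : ℝ) ≤ C * r → 4 * (W.card : ℝ) ≤ C * s →
    ∃ S' : Fin n → Finset (Fin (r' * n)), (∀ v, (S' v).card ≤ r) ∧ (∀ v, v ∉ W → S' v = ∅) ∧
      (∀ b, ∃ a, ∀ v, b ∈ S' v → a ∈ S v) ∧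
      (∀ b, (univ.filter fun v => b ∈ S' v).card ≤ s) ∧
      (W.card : ℝ) ^ 2 ≤ C * np (Meet S')

theorem p_SELRM : T_SELRM := by
  intro n r r' M s W S Q C hC hM hr hrr hS hQ hQc hs
  obtain ⟨S', h1, h2, h3, h4, h5⟩ := SELR_.core n r r' M s W S Q C hC hr hrr hS hQ hQc hs
  refine ⟨S', h1, h2, fun b => ?_, h4, h5⟩
  by_cases hb : ∃ v₀, b ∈ S' v₀
  · obtain ⟨v₀, hv₀⟩ := hb
    exact h3 b v₀ hv₀
  · exact ⟨⟨0, hM⟩, fun v hv => absurd ⟨v, hv⟩ hb⟩

theorem p_SELR : T_SELR := p_SELRM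

end Pool.Agent.THL
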