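import Pool.Agent.THL.One
import Pool.Agent.THL.JAN
import Pool.Agent.THL.CNT
import Pool.Agent.THL.CF
import Pool.Agent.THL.BF
import Pool.Agent.THL.INT
import Pool.Agent.THL.IWT
import Pool.Agent.THL.RUN
import Pool.Agent.THL.PAT
import Pool.Agent.THL.ONE2
import Pool.Agent.THL.DEG
import Pool.Agent.THL.IND
import Pool.Agent.THL.ENG2
import Pool.Agent.THL.SELR
import Pool.Agent.THL.PAL
import Pool.Agent.THL.LIFT
import Pool.Agent.THL.FIN2

set_option autoImplicit false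

namespace Pool.Agent.THL

theorem p_MAIN : T_FIN2 :=
  p_FIN2 (p_ENG2 (p_ONE2 p_JAN p_CNT p_BF (p_PAT p_CF p_BF p_INT p_IWT p_RUN)) p_DEG
    (p_IND p_JAN)) p_SELR p_PAL p_LIFT

end Pool.Agent.THL
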