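import Pool.Agent.THL.Defs2

set_option autoImplicit false

/-! A nonrepetitive colouring of `G` gives one of `G[E_1]`. -/

namespace Pool.Agent.THL

theorem nonrep_one {V α : Type} (G : SimpleGraph V) (c : V → α) (h : Nonrep G c) :
    Nonrep (EB G 1) (fun q => c q.1) := by
  intro a b p hp t ht hlen hrep
  let f : EB G 1 →g G := ⟨Prod.fst, fun h => h⟩
  have hinj : Function.Injective f := by
    rintro ⟨x, i⟩ ⟨y, j⟩ hxy
    have h1 : x = y := hxy
    rw [h1, Subsingleton.elim i j]
  refine h _ _ (p.map f) (SimpleGraph.Walk.map_isPath_of_injective hinj hp) t ht ?_ ?_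
  · rw [SimpleGraph.Walk.support_map, List.length_map]
    exact hlen
  · rw [SimpleGraph.Walk.support_map, List.map_map]
    exact hrep

end Pool.Agent.THL
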