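import Mathlib
import Pool.Agent.THL.Defs

set_option autoImplicit false

/-!
# THL, block SELK: greedy selection for a family of `k`-sets
-/

open Finset

namespace Pool.Agent.THL

namespace SELK_

open Classical in
theorem exists_popular {n M : ℕ} (k : ℕ) (S : Fin n → Finset (Fin M)) (C : ℝ)
    (hk : 1 ≤ k) (hM : (M : ℝ) ≤ C * k) (R : Finset (Fin n)) (hR : R.Nonempty)
    (hS : ∀ v ∈ R, (S v).card = k) :
    ∃ a : Fin M, (R.card : ℝ) ≤ C * ((R.filter fun v => a ∈ S v).card : ℝ) := by
  classical
  have hdc : ∑ a : Fin M, (R.filter fun v => a ∈ S v).card = R.card * k := by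
    have h1 : ∑ a : Fin M, (R.filter fun v => a ∈ S v).card
        = ∑ v ∈ R, (S v).card := by
      simp only [Finset.card_filter]
      rw [Finset.sum_comm]
      refine Finset.sum_congr rfl fun v _ => ?_
      rw [← Finset.card_filter]
      congr 1
      ext a
      simp
    rw [h1, Finset.sum_congr rfl hS]
    simp
  by_contra hcon
  push Not at hcon
  obtain ⟨v0, hv0⟩ := hR
  have hne : (S v0).Nonempty := by
    rw [← Finset.card_pos, hS v0 hv0]
    omega
  obtain ⟨a0, _⟩ := hne
  have hk' : (0 : ℝ) < k := by exact_mod_cast hk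
  have hRpos : (0 : ℝ) < R.card := by
    exact_mod_cast Finset.card_pos.2 ⟨v0, hv0⟩
  have hMpos : (0 : ℝ) < M := by
    have : 0 < M := Fin.pos a0
    exact_mod_cast this
  have hsum : ∑ a : Fin M, C * ((R.filter fun v => a ∈ S v).card : ℝ)
      < ∑ _a : Fin M, (R.card : ℝ) := by
    refine Finset.sum_lt_sum_of_nonempty ⟨a0, Finset.mem_univ _⟩ fun a _ => hcon a
  rw [← Finset.mul_sum] at hsum
  have h2 : (∑ a : Fin M, ((R.filter fun v => a ∈ S v).card : ℝ)) = R.card * k := by
    exact_mod_cast hdc
  rw [h2] at hsum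
  simp only [Finset.sum_const, Finset.card_univ, Fintype.card_fin, nsmul_eq_mul] at hsum
  nlinarith

open Classical in
theorem step {n M : ℕ} (k s : ℕ) (S : Fin n → Finset (Fin M)) (C : ℝ)
    (hC : 0 < C) (hk : 1 ≤ k) (hM : (M : ℝ) ≤ C * k) (R : Finset (Fin n)) :
    (∀ v ∈ R, (S v).card = k) → (R.card : ℝ) ≤ C * s →
    ∃ g : Fin n → Option (Fin n), (∀ v, g v ≠ none → v ∈ R) ∧
      (∀ v r, g v = some r → r ∈ R) ∧
      (∀ r, (∃ v, g v = some r) → ∃ a, ∀ v, g v = some r → a ∈ S v) ∧
      (∀ a, cl g a ≤ s) ∧ (R.card : ℝ) ^ 2 ≤ 2 * C * np (Same g) := by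
  classical
  induction R using Finset.strongInduction with
  | H R ih =>
    intro hS hRs
    rcases R.eq_empty_or_nonempty with rfl | hne
    · refine ⟨fun _ => none, by simp, by simp, by simp, ?_, ?_⟩
      · intro a
        simp [cl]
      · simp only [Finset.card_empty, Nat.cast_zero]
        have : (0 : ℝ) ≤ 2 * C * np (Same fun _ : Fin n => (none : Option (Fin n))) := by
          positivity
        simpa using this
    · obtain ⟨a, ha⟩ := exists_popular k S C hk hM R hne hS
      set T := R.filter fun v => a ∈ S v with hT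
      have hRpos : (0 : ℝ) < R.card := by
        exact_mod_cast Finset.card_pos.2 hne
      obtain ⟨Q, hQT, hQc⟩ := Finset.exists_subset_card_eq (min_le_left T.card s)
      have hQC : (R.card : ℝ) ≤ C * Q.card := by
        rw [hQc]
        rcases min_choice T.card s with h | h
        · rw [h]; exact ha
        · rw [h]; exact hRs
      have hQpos : 0 < Q.card := by
        rcases Nat.eq_zero_or_pos Q.card with h | h
        · rw [h] at hQC
          simp only [Nat.cast_zero, mul_zero] at hQC
          linarith
        · exact h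
      obtain ⟨q, hq⟩ := Finset.card_pos.1 hQpos
      have hQR : Q ⊆ R := hQT.trans (Finset.filter_subset _ _)
      have hQa : ∀ v ∈ Q, a ∈ S v := fun v hv => (Finset.mem_filter.1 (hQT hv)).2
      have hss : R \ Q ⊂ R := by
        refine Finset.ssubset_iff_subset_ne.2 ⟨Finset.sdiff_subset, fun h => ?_⟩
        have := hQR hq
        rw [← h] at this
        exact (Finset.mem_sdiff.1 this).2 hq
      have hcard : ((R \ Q).card : ℝ) = R.card - Q.card := by
        rw [Finset.card_sdiff_of_subset hQR, Nat.cast_sub (Finset.card_le_card hQR)]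
      obtain ⟨g', hg1, hg2, hg3, hg4, hg5⟩ := ih (R \ Q) hss
        (fun v hv => hS v (Finset.mem_sdiff.1 hv).1)
        (by rw [hcard]; have : (0 : ℝ) ≤ Q.card := Nat.cast_nonneg _; linarith)
      have hg1' : ∀ v r, g' v = some r → v ∉ Q ∧ v ∈ R := by
        intro v r h
        have := hg1 v (by rw [h]; simp)
        rw [Finset.mem_sdiff] at this
        exact ⟨this.2, this.1⟩
      have hg2' : ∀ v r, g' v = some r → r ≠ q := by
        intro v r h e
        have := hg2 v r h
        rw [Finset.mem_sdiff] at this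
        exact this.2 (e ▸ hq)
      let g : Fin n → Option (Fin n) := fun v => if v ∈ Q then some q else g' v
      have hgQ : ∀ v, v ∈ Q → g v = some q := fun v hv => by simp [g, hv]
      have hgn : ∀ v, v ∉ Q → g v = g' v := fun v hv => by simp [g, hv]
      have hgq : ∀ v, g v = some q ↔ v ∈ Q := by
        intro v
        constructor
        · intro h
          by_contra hv
          rw [hgn v hv] at h
          exact hg2' v q h rfl
        · exact hgQ v
      have hgr : ∀ v r, r ≠ q → g v = some r → g' v = some r := by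
        intro v r hr h
        by_cases hv : v ∈ Q
        · rw [hgQ v hv] at h
          exact absurd (Option.some.inj h).symm hr
        · rwa [hgn v hv] at h
      refine ⟨g, ?_, ?_, ?_, ?_, ?_⟩
      · intro v hv
        by_cases hvQ : v ∈ Q
        · exact hQR hvQ
        · rw [hgn v hvQ] at hv
          exact (Finset.mem_sdiff.1 (hg1 v hv)).1
      · intro v r h
        by_cases hr : r = q
        · rw [hr]; exact hQR hq
        · exact (Finset.mem_sdiff.1 (hg2 v r (hgr v r hr h))).1
      · rintro r ⟨v, hv⟩
        by_cases hr : r = q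
        · subst hr
          exact ⟨a, fun u hu => hQa u ((hgq u).1 hu)⟩
        · obtain ⟨b, hb⟩ := hg3 r ⟨v, hgr v r hr hv⟩
          exact ⟨b, fun u hu => hb u (hgr u r hr hu)⟩
      · intro r
        by_cases hr : r = q
        · subst hr
          have : cl g r = Q.card := by
            unfold cl
            congr 1
            ext v
            simp [hgq]
          rw [this, hQc]
          exact min_le_right _ _
        · refine le_trans ?_ (hg4 r)
          unfold cl
          refine Finset.card_le_card fun v hv => ?_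
          rw [Finset.mem_filter] at hv ⊢
          exact ⟨hv.1, hgr v r hr hv.2⟩
      · have hnp : Q.card * Q.card + np (Same g') ≤ np (Same g) := by
          unfold np
          rw [← Finset.card_product, ← Finset.card_union_of_disjoint]
          · refine Finset.card_le_card fun x hx => ?_
            rw [Finset.mem_union, Finset.mem_product, Finset.mem_filter] at hx
            rw [Finset.mem_filter]
            refine ⟨Finset.mem_univ _, ?_⟩
            rcases hx with hx | hx
            · refine ⟨?_, ?_⟩
              · rw [hgQ _ hx.1, hgQ _ hx.2]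
              · rw [hgQ _ hx.1]; simp
            · obtain ⟨h1, h2⟩ := hx.2
              obtain ⟨r, hr⟩ := Option.ne_none_iff_exists'.1 h2
              have hx1 := hg1' _ r hr
              have hx2 := hg1' x.2 r (h1 ▸ hr)
              refine ⟨?_, ?_⟩
              · rw [hgn _ hx1.1, hgn _ hx2.1, h1]
              · rw [hgn _ hx1.1]; exact h2
          · rw [Finset.disjoint_left]
            intro x hx hx'
            rw [Finset.mem_product] at hx
            rw [Finset.mem_filter] at hx'
            obtain ⟨r, hr⟩ := Option.ne_none_iff_exists'.1 hx'.2.2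
            exact (hg1' _ r hr).1 hx.1
        have hnp' : (Q.card : ℝ) * Q.card + np (Same g') ≤ np (Same g) := by
          exact_mod_cast hnp
        rw [hcard] at hg5
        have hQ0 : (0 : ℝ) < Q.card := by exact_mod_cast hQpos
        have h6 : 2 * C * ((Q.card : ℝ) * Q.card + np (Same g')) ≤ 2 * C * np (Same g) :=
          mul_le_mul_of_nonneg_left hnp' (by positivity)
        nlinarith [mul_le_mul_of_nonneg_left hQC hQ0.le]

end SELK_

/-- SELK for every `M`: colours are attached to the used classes only. -/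
theorem SELK_used : ∀ (n k M s : ℕ) (W : Finset (Fin n)) (S : Fin n → Finset (Fin M)) (C : ℝ),
    0 < C → 1 ≤ k → (∀ v ∈ W, (S v).card = k) → (M : ℝ) ≤ C * k → (W.card : ℝ) ≤ C * s →
    ∃ g : Fin n → Option (Fin n), (∀ v, g v ≠ none → v ∈ W) ∧
      (∀ r, (∃ v, g v = some r) → ∃ a, ∀ v, g v = some r → a ∈ S v) ∧ (∀ a, cl g a ≤ s) ∧
      (W.card : ℝ) ^ 2 ≤ 2 * C * np (Same g) := by
  intro n k M s W S C hC hk hS hM hW
  obtain ⟨g, h1, _, h3, h4, h5⟩ := SELK_.step k s S C hC hk hM W hS hW
  exact ⟨g, h1, h3, h4, h5⟩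

/-- SELK for `M ≥ 1`. -/
theorem SELK_pos : ∀ (n k M s : ℕ) (W : Finset (Fin n)) (S : Fin n → Finset (Fin M)) (C : ℝ),
    0 < C → 1 ≤ k → 1 ≤ M → (∀ v ∈ W, (S v).card = k) → (M : ℝ) ≤ C * k →
    (W.card : ℝ) ≤ C * s →
    ∃ g : Fin n → Option (Fin n), (∀ v, g v ≠ none → v ∈ W) ∧
      (∀ r, ∃ a, ∀ v, g v = some r → a ∈ S v) ∧ (∀ a, cl g a ≤ s) ∧
      (W.card : ℝ) ^ 2 ≤ 2 * C * np (Same g) := by
  intro n k M s W S C hC hk hM1 hS hM hW
  obtain ⟨g, h1, h3, h4, h5⟩ := SELK_used n k M s W S C hC hk hS hM hW
  refine ⟨g, h1, fun r => ?_, h4, h5⟩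
  by_cases hr : ∃ v, g v = some r
  · exact h3 r hr
  · exact ⟨⟨0, hM1⟩, fun v hv => absurd ⟨v, hv⟩ hr⟩

theorem p_SELK : T_SELK := SELK_pos

end Pool.Agent.THL
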